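import Pool.Agent.Helper38.TP.Int

/-!
# The coordinates are integral over the polynomials in the forms, any number of forms
-/

set_option autoImplicit false

namespace Pool.Agent.Helper38.TN

open Pool.Agent.Helper10.Sub Pool.Agent.Helper38.TP MvPolynomial

theorem int_eqN {K : Type} [Field K] {N n : ℕ} (J₀ : Set (MvPolynomial (Fin (N + 1)) K))
    (hJ₀ : ∀ f ∈ J₀, ∃ e, f.IsHomogeneous e)
    (F : Fin (n + 1) → MvPolynomial (Fin (N + 1)) K) (d : Fin (n + 1) → ℕ) (hd : ∀ i, 1 ≤ d i)
    (hF : ∀ i, (F i).IsHomogeneous (d i))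
    {Ω : Type} [Field Ω] [IsAlgClosed Ω] [Algebra K Ω]
    (hempty : ∀ A : Fin (N + 1) → Ω, OnV J₀ A → (∀ i, aeval A (F i) = 0) → A = 0)
    (k : Fin (N + 1)) :
    ∃ (e : ℕ) (c : ℕ → MvPolynomial (Fin (n + 1)) K), ∀ x : Fin (N + 1) → K,
      (∀ f ∈ J₀, eval x f = 0) →
      x k ^ e + ∑ i ∈ Finset.range e, eval (fun j => eval x (F j)) (c i) * x k ^ i = 0 := by
  classical
  set I : Ideal (MvPolynomial (Fin (N + 1)) K) := Ideal.span J₀ with hIdef
  have hfin := int_span_top (Ω := Ω) I (fun f hf n => int_span_hom J₀ hJ₀ f hf n) F d hd hF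
    (fun x hx hx' => hempty x (fun f hf => hx f (Ideal.subset_span hf)) hx')
  have hint : IsIntegral (Algebra.adjoin K (Set.range fun i => Ideal.Quotient.mk I (F i)))
      (Ideal.Quotient.mk I (X k)) := by
    have h1 : Algebra.IsIntegral (Algebra.adjoin K (Set.range fun i => Ideal.Quotient.mk I (F i)))
      (MvPolynomial (Fin (N + 1)) K ⧸ I) := Algebra.IsIntegral.of_finite _ _
    exact h1.isIntegral _
  obtain ⟨p, hp, hp0⟩ := hint
  have hc : ∀ i, ∃ c : MvPolynomial (Fin (n + 1)) K,
      Ideal.Quotient.mk I (aeval F c) = (p.coeff i : MvPolynomial (Fin (N + 1)) K ⧸ I) := by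
    intro i
    have h1 : ∀ z : MvPolynomial (Fin (N + 1)) K ⧸ I,
        z ∈ Algebra.adjoin K (Set.range fun i => Ideal.Quotient.mk I (F i)) →
        ∃ c : MvPolynomial (Fin (n + 1)) K, aeval (fun i => Ideal.Quotient.mk I (F i)) c = z := by
      intro z hz
      rw [Algebra.adjoin_range_eq_range_aeval, AlgHom.mem_range] at hz
      exact hz
    obtain ⟨c, hc⟩ := h1 _ (p.coeff i).2
    refine ⟨c, ?_⟩
    rw [← hc]
    have h6 : (Ideal.Quotient.mkₐ K I) (aeval F c) =
        aeval (fun i => Ideal.Quotient.mk I (F i)) c := by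
      rw [← AlgHom.comp_apply, comp_aeval]
      rfl
    exact h6
  choose c hc using hc
  refine ⟨p.natDegree, c, fun x hx => ?_⟩
  have hI0 : ∀ f ∈ I, eval x f = 0 := by
    intro f hf
    have h1 : I ≤ RingHom.ker (eval x : MvPolynomial (Fin (N + 1)) K →+* K) := by
      rw [hIdef, Ideal.span_le]
      intro g hg
      exact hx g hg
    exact h1 hf
  set ev : MvPolynomial (Fin (N + 1)) K ⧸ I →+* K := Ideal.Quotient.lift I (eval x) hI0 with hev
  have hev1 : ∀ f, ev (Ideal.Quotient.mk I f) = eval x f := fun f => Ideal.Quotient.lift_mk _ _ _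
  have h2 : ∀ i, ev (p.coeff i : MvPolynomial (Fin (N + 1)) K ⧸ I) =
      eval (fun j => eval x (F j)) (c i) := by
    intro i
    rw [← hc i, hev1]
    have h3 : ∀ q : MvPolynomial (Fin (n + 1)) K, eval x (aeval F q) =
        eval (fun j => eval x (F j)) q := by
      intro q
      induction q using MvPolynomial.induction_on with
      | C a => rw [algHom_C, MvPolynomial.algebraMap_eq, eval_C, eval_C]
      | add f g hf hg => rw [map_add, map_add, map_add, hf, hg]
      | mul_X f j hf => rw [map_mul, map_mul, map_mul, hf, aeval_X, eval_X]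
    exact h3 _
  have h4 := congrArg ev hp0
  rw [Polynomial.eval₂_eq_sum_range, map_sum, map_zero, Finset.sum_range_succ] at h4
  have h5 : ev ((algebraMap (Algebra.adjoin K (Set.range fun i => Ideal.Quotient.mk I (F i)))
      (MvPolynomial (Fin (N + 1)) K ⧸ I)) (p.coeff p.natDegree) *
        Ideal.Quotient.mk I (X k) ^ p.natDegree) = x k ^ p.natDegree := by
    have h6 : p.coeff p.natDegree = 1 := hp
    rw [h6, map_one, one_mul, map_pow, hev1, eval_X]
  rw [h5] at h4
  rw [add_comm, ← h4]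
  congr 1
  refine Finset.sum_congr rfl fun i _ => ?_
  rw [map_mul, map_pow, hev1, eval_X, ← h2 i]
  rfl

end Pool.Agent.Helper38.TN
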