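import Pool.Agent.Helper38.TP.Defs
import Pool.Agent.Helper38.TP.Ht
import Pool.Agent.Helper10.Sub.AppDefs

/-!
# Integral points near the corners, all dimensions: definitions
-/

set_option autoImplicit false

namespace Pool.Agent.Helper38.TN

open Pool.Agent.Helper10.Sub Pool.Agent.Helper38.TP MvPolynomial

section mono
variable {K : Type} [Field K] {r : ℕ}

/-- Monomials with integer exponents. -/
def mono (t : Fin r → K) (e : Fin r → ℤ) : K := ∏ j, t j ^ e j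

lemma mono_zero (t : Fin r → K) : mono t 0 = 1 := by simp [mono]

lemma mono_ne {t : Fin r → K} (ht : ∀ j, t j ≠ 0) (e : Fin r → ℤ) : mono t e ≠ 0 :=
  Finset.prod_ne_zero_iff.mpr fun j _ => zpow_ne_zero _ (ht j)

lemma mono_add {t : Fin r → K} (ht : ∀ j, t j ≠ 0) (e e' : Fin r → ℤ) :
    mono t (e + e') = mono t e * mono t e' := by
  rw [mono, mono, mono, ← Finset.prod_mul_distrib]
  exact Finset.prod_congr rfl fun j _ => zpow_add₀ (ht j) _ _

lemma mono_neg (t : Fin r → K) (e : Fin r → ℤ) : mono t (-e) = (mono t e)⁻¹ := by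
  rw [mono, mono, ← Finset.prod_inv_distrib]
  exact Finset.prod_congr rfl fun j _ => zpow_neg _ _

lemma mono_sub {t : Fin r → K} (ht : ∀ j, t j ≠ 0) (e e' : Fin r → ℤ) :
    mono t (e - e') = mono t e / mono t e' := by
  rw [sub_eq_add_neg, mono_add ht, mono_neg, div_eq_mul_inv]

lemma mono_nsmul (t : Fin r → K) (n : ℕ) (e : Fin r → ℤ) : mono t (n • e) = mono t e ^ n := by
  rw [mono, mono, ← Finset.prod_pow]
  refine Finset.prod_congr rfl fun j _ => ?_
  rw [Pi.smul_apply, nsmul_eq_mul, mul_comm, zpow_mul, zpow_natCast]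

lemma mono_sum {ι : Type*} (s : Finset ι) {t : Fin r → K} (ht : ∀ j, t j ≠ 0)
    (e : ι → Fin r → ℤ) : mono t (∑ i ∈ s, e i) = ∏ i ∈ s, mono t (e i) := by
  classical
  induction s using Finset.induction_on with
  | empty => rw [Finset.sum_empty, Finset.prod_empty, mono_zero]
  | insert a s ha ih => rw [Finset.sum_insert ha, Finset.prod_insert ha, mono_add ht, ih]

lemma mono_nat (t : Fin r → K) (e : Fin r →₀ ℕ) :
    mono t (fun j => (e j : ℤ)) = ∏ j, t j ^ e j :=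
  Finset.prod_congr rfl fun j _ => zpow_natCast _ _

/-- The monomial of `MvPolynomial` is evaluated by `mono`. -/
lemma eval_monomial_mono (t : Fin r → K) (e : Fin r →₀ ℕ) (a : K) :
    eval t (monomial e a) = a * mono t (fun j => (e j : ℤ)) := by
  rw [eval_monomial, mono_nat, Finsupp.prod_fintype _ _ fun j => pow_zero _]

end mono

section units
variable {K : Type} [Field K] {Λ : Type} [Fintype Λ] {L : Λ → Type}
    [∀ s, NontriviallyNormedField (L s)] [∀ s, Algebra K (L s)] {Z : MP K L}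

lemma U_zpow {u : K} (hu : Z.U u) (n : ℤ) : Z.U (u ^ n) := by
  rcases n with n | n
  · rw [Int.ofNat_eq_natCast, zpow_natCast]
    exact hu.pow n
  · rw [zpow_negSucc]
    exact (hu.pow _).inv

lemma U_mono {r : ℕ} {t : Fin r → K} (ht : ∀ j, Z.U (t j)) (e : Fin r → ℤ) :
    Z.U (mono t e) := MP.U.prod _ fun j _ => U_zpow (ht j) _

end units

section AM
variable {n r : ℕ}

/-- The exponent of the monomial `m` in the `c i`. -/
def cc (c : Fin (n + 1) → Fin r → ℤ) (m : Fin (n + 1) → ℕ) : Fin r → ℤ := ∑ i, m i • c i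

/-- The exponents of the monomials of degree `M` in the `c i`. -/
def AM (c : Fin (n + 1) → Fin r → ℤ) (M : ℕ) : Finset (Fin r → ℤ) :=
  (Finset.univ.piAntidiag M).image (cc c)

lemma mem_AM {c : Fin (n + 1) → Fin r → ℤ} {M : ℕ} {α : Fin r → ℤ} :
    α ∈ AM c M ↔ ∃ m : Fin (n + 1) → ℕ, ∑ i, m i = M ∧ cc c m = α := by
  rw [AM, Finset.mem_image]
  constructor
  · rintro ⟨m, hm, rfl⟩
    exact ⟨m, (Finset.mem_piAntidiag.mp hm).1, rfl⟩
  · rintro ⟨m, hm, rfl⟩
    exact ⟨m, Finset.mem_piAntidiag.mpr ⟨hm, fun i _ => Finset.mem_univ i⟩, rfl⟩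

/-- The largest exponent of the index `a` in a monomial of degree `M` with exponent `α`. -/
noncomputable def mu (c : Fin (n + 1) → Fin r → ℤ) (M : ℕ) (a : Fin (n + 1)) (α : Fin r → ℤ) : ℕ :=
  ((Finset.univ.piAntidiag M).filter fun m => cc c m = α).sup fun m => m a

lemma le_mu {c : Fin (n + 1) → Fin r → ℤ} {M : ℕ} {α : Fin r → ℤ} (a : Fin (n + 1))
    {m : Fin (n + 1) → ℕ} (hm : ∑ i, m i = M) (hα : cc c m = α) : m a ≤ mu c M a α :=
  Finset.le_sup (f := fun m : Fin (n + 1) → ℕ => m a) (by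
    rw [Finset.mem_filter, Finset.mem_piAntidiag]
    exact ⟨⟨hm, fun i _ => Finset.mem_univ i⟩, hα⟩)

lemma exists_mu {c : Fin (n + 1) → Fin r → ℤ} {M : ℕ} {α : Fin r → ℤ} (a : Fin (n + 1))
    (hα : α ∈ AM c M) :
    ∃ m : Fin (n + 1) → ℕ, ∑ i, m i = M ∧ cc c m = α ∧ m a = mu c M a α := by
  obtain ⟨m₀, hm₀, h₀⟩ := mem_AM.mp hα
  have hne : ((Finset.univ.piAntidiag M).filter fun m : Fin (n + 1) → ℕ => cc c m = α).Nonempty :=
    ⟨m₀, by
      rw [Finset.mem_filter, Finset.mem_piAntidiag]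
      exact ⟨⟨hm₀, fun i _ => Finset.mem_univ i⟩, h₀⟩⟩
  obtain ⟨m, hm, h⟩ := Finset.exists_mem_eq_sup _ hne fun m => m a
  rw [Finset.mem_filter, Finset.mem_piAntidiag] at hm
  exact ⟨m, hm.1.1, hm.2, h.symm⟩

end AM

section torus
variable {K : Type} [Field K] {N n r : ℕ}

/-- `z ↦ (Q k (z))` defines a non-constant morphism from a power of the multiplicative group to
`X ∖ D`. -/
structure IsTorus (J : Set (MvPolynomial (Fin (N + 1)) K))
    (F : Fin (n + 1) → MvPolynomial (Fin (N + 1)) K) (d : Fin (n + 1) → ℕ)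
    (Q : Fin (N + 1) → MvPolynomial (Fin r) K) (m : Fin (n + 1) → Fin r →₀ ℕ) : Prop where
  onX : ∀ f ∈ J, aeval Q f = 0
  units : ∀ i, ∃ c : K, c ≠ 0 ∧ aeval Q (F i) = monomial (m i) c
  nonconst : ∃ i j, d j • m i ≠ d i • m j

/-- The vector `x` is proportional to a value of `Q`. -/
def OnT (Q : Fin (N + 1) → MvPolynomial (Fin r) K) (x : Fin (N + 1) → K) : Prop :=
  ∃ (μ : K) (z : Fin r → K), μ ≠ 0 ∧ (∀ j, z j ≠ 0) ∧ x = μ • fun k => eval z (Q k)

/-- Sets covered by finitely many points and finitely many images of tori. -/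
def SmallN (J : Set (MvPolynomial (Fin (N + 1)) K))
    (F : Fin (n + 1) → MvPolynomial (Fin (N + 1)) K) (d : Fin (n + 1) → ℕ)
    (E : Set (Fin (N + 1) → K)) : Prop :=
  ∃ (A : Set (Fin (N + 1) → K))
    (𝒯 : Set ((Fin (N + 1) → MvPolynomial (Fin n) K) × (Fin (n + 1) → Fin n →₀ ℕ))),
    A.Finite ∧ 𝒯.Finite ∧ (∀ t ∈ 𝒯, IsTorus J F d t.1 t.2) ∧
    ∀ x ∈ E, (∃ v ∈ A, ∃ μ : K, μ ≠ 0 ∧ x = μ • v) ∨ ∃ t ∈ 𝒯, OnT t.1 x

/-- The corresponding notion of largeness. -/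
def bigN (J : Set (MvPolynomial (Fin (N + 1)) K))
    (F : Fin (n + 1) → MvPolynomial (Fin (N + 1)) K) (d : Fin (n + 1) → ℕ) :
    LN (Fin (N + 1) → K) where
  Big E := ¬ SmallN J F d E
  mono := by
    rintro E E' hE hbig ⟨A, 𝒯, h1, h2, h4, h⟩
    exact hbig ⟨A, 𝒯, h1, h2, h4, fun x hx => h x (hE hx)⟩
  union := by
    intro E E' hbig
    by_contra hcon
    rw [not_or, not_not, not_not] at hcon
    obtain ⟨⟨A, 𝒯, h1, h2, h4, h⟩, ⟨A', 𝒯', h1', h2', h4', h'⟩⟩ := hcon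
    apply hbig
    refine ⟨A ∪ A', 𝒯 ∪ 𝒯', h1.union h1', h2.union h2', ?_, ?_⟩
    · rintro t (ht | ht)
      exacts [h4 t ht, h4' t ht]
    · rintro x (hx | hx)
      · rcases h x hx with ⟨v, hv, hv'⟩ | ⟨t, ht, ht'⟩
        · exact Or.inl ⟨v, Or.inl hv, hv'⟩
        · exact Or.inr ⟨t, Or.inl ht, ht'⟩
      · rcases h' x hx with ⟨v, hv, hv'⟩ | ⟨t, ht, ht'⟩
        · exact Or.inl ⟨v, Or.inr hv, hv'⟩
        · exact Or.inr ⟨t, Or.inr ht, ht'⟩
  inf := by
    intro E hbig hfin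
    exact hbig ⟨E, ∅, hfin, Set.finite_empty, fun t ht => absurd ht (Set.notMem_empty t),
      fun x hx => Or.inl ⟨x, hx, 1, one_ne_zero, (one_smul _ _).symm⟩⟩

end torus

end Pool.Agent.Helper38.TN
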