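import Pool.Agent.Helper38.TN.Defs

/-!
# Restriction to a one-dimensional torus

Plan. `d j₀ • m i₀ ≠ d i₀ • m j₀` at some coordinate `l`. Let
`φ : MvPolynomial (Fin r) K →ₐ[K] MvPolynomial (Fin 1) K` send `X l` to `X 0` and `X j`, `j ≠ l`,
to `1`; take `Q' k = φ (Q k)`, `m' i = Finsupp.single 0 (m i l)`. `onX`: `aeval Q' f = φ (aeval Q f)`
(`MvPolynomial.comp_aeval`/`map_aeval`). `units`: `φ (monomial (m i) c) = monomial (m' i) c`.
-/

set_option autoImplicit false

namespace Pool.Agent.Helper38.TN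

open MvPolynomial

/-- the restriction to the torus of the coordinate `l` -/
noncomputable def onePhi {K : Type} [Field K] {r : ℕ} (l : Fin r) :
    MvPolynomial (Fin r) K →ₐ[K] MvPolynomial (Fin 1) K :=
  aeval (fun j => if j = l then X 0 else 1)

theorem onePhi_monomial {K : Type} [Field K] {r : ℕ} (l : Fin r) (e : Fin r →₀ ℕ) (c : K) :
    onePhi l (monomial e c) = monomial (Finsupp.single 0 (e l)) c := by
  rw [onePhi, aeval_monomial, Finsupp.prod_fintype _ _ (fun j => pow_zero _),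
    Finset.prod_eq_single l]
  · rw [if_pos rfl, algebraMap_eq, monomial_eq,
      Finsupp.prod_single_index (h := fun n e => (X n : MvPolynomial (Fin 1) K) ^ e) (pow_zero _)]
  · intro j _ hj
    rw [if_neg hj, one_pow]
  · intro h
    exact absurd (Finset.mem_univ l) h

theorem torus_one {K : Type} [Field K] {N n r : ℕ} (J : Set (MvPolynomial (Fin (N + 1)) K))
    (F : Fin (n + 1) → MvPolynomial (Fin (N + 1)) K) (d : Fin (n + 1) → ℕ)
    (Q : Fin (N + 1) → MvPolynomial (Fin r) K) (m : Fin (n + 1) → Fin r →₀ ℕ)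
    (h : IsTorus J F d Q m) :
    ∃ (Q' : Fin (N + 1) → MvPolynomial (Fin 1) K) (m' : Fin (n + 1) → Fin 1 →₀ ℕ),
      IsTorus J F d Q' m' := by
  obtain ⟨i₀, j₀, hij⟩ := h.nonconst
  obtain ⟨l, hl⟩ : ∃ l, d j₀ * m i₀ l ≠ d i₀ * m j₀ l := by
    by_contra hcon
    push Not at hcon
    apply hij
    ext l
    simpa using hcon l
  have hφ : ∀ f : MvPolynomial (Fin (N + 1)) K,
      aeval (fun k => onePhi l (Q k)) f = onePhi l (aeval Q f) := by
    intro f
    rw [comp_aeval_apply]
  refine ⟨fun k => onePhi l (Q k), fun i => Finsupp.single 0 (m i l), ?_, ?_, i₀, j₀, ?_⟩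
  · intro f hf
    rw [hφ, h.onX f hf, map_zero]
  · intro i
    obtain ⟨c, hc, hci⟩ := h.units i
    exact ⟨c, hc, by rw [hφ, hci, onePhi_monomial]⟩
  · intro he
    apply hl
    have := DFunLike.congr_fun he 0
    simpa using this

end Pool.Agent.Helper38.TN
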