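import Pool.Agent.Helper38.TP.CD
import Pool.Agent.Helper10.Sub.AppDefs

/-!
# The distance to a family of corners
-/

set_option autoImplicit false
set_option linter.unusedSectionVars false

namespace Pool.Agent.Helper38.TN

open Pool.Agent.Helper10.Sub Pool.Agent.Helper38.TP MvPolynomial

variable {K : Type} [Field K] {N n : ℕ}

/-- The non-empty set of indices `I` is a corner: the common zeros of the `F i`, `i ∈ I`, on `X` are
isolated and reduced. -/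
def IsCorner (Ω : Type) [Field Ω] [Algebra K Ω] (J : Set (MvPolynomial (Fin (N + 1)) K))
    (F : Fin (n + 1) → MvPolynomial (Fin (N + 1)) K) (I : Finset (Fin (n + 1))) : Prop :=
  I.Nonempty ∧ ∀ A : Fin (N + 1) → Ω, A ≠ 0 → OnV (J ∪ F '' (I : Set (Fin (n + 1)))) A →
    Jac (J ∪ F '' (I : Set (Fin (n + 1)))) A

/-- The distance to the corners in `𝒞`, at most `1`. -/
noncomputable def cdC (𝒞 : Set (Finset (Fin (n + 1)))) (v : K → ℝ)
    (F : Fin (n + 1) → MvPolynomial (Fin (N + 1)) K)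
    (d : Fin (n + 1) → ℕ) (x : Fin (N + 1) → K) : ℝ :=
  sInf (insert 1 {t | ∃ I ∈ 𝒞, t = ⨆ i : I, prox v (F i) (d i) x})

variable (𝒞 : Set (Finset (Fin (n + 1)))) (v u : K → ℝ)
  (F : Fin (n + 1) → MvPolynomial (Fin (N + 1)) K) (d : Fin (n + 1) → ℕ) (x : Fin (N + 1) → K)

lemma cdC_finite : (insert 1 {t | ∃ I ∈ 𝒞, t = ⨆ i : I, prox v (F i) (d i) x}).Finite := by
  refine Set.Finite.insert _ ((Set.finite_range fun I : Finset (Fin (n + 1)) =>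
    ⨆ i : I, prox v (F i) (d i) x).subset ?_)
  rintro t ⟨I, -, rfl⟩
  exact ⟨I, rfl⟩

lemma cdC_le_one : cdC 𝒞 v F d x ≤ 1 :=
  csInf_le (cdC_finite 𝒞 v F d x).bddBelow (Set.mem_insert _ _)

lemma cdC_le {I : Finset (Fin (n + 1))} (hI : I ∈ 𝒞) :
    cdC 𝒞 v F d x ≤ ⨆ i : I, prox v (F i) (d i) x :=
  csInf_le (cdC_finite 𝒞 v F d x).bddBelow (Set.mem_insert_of_mem _ ⟨I, hI, rfl⟩)

lemma cdC_eq : cdC 𝒞 v F d x = 1 ∨ ∃ I ∈ 𝒞, cdC 𝒞 v F d x = ⨆ i : I, prox v (F i) (d i) x := by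
  have h := (Set.insert_nonempty 1 {t | ∃ I ∈ 𝒞, t = ⨆ i : I, prox v (F i) (d i) x}).csInf_mem
    (cdC_finite 𝒞 v F d x)
  rcases h with h | ⟨I, hI, h⟩
  · exact Or.inl h
  · exact Or.inr ⟨I, hI, h⟩

lemma cdC_nonneg (hv : ∀ y, 0 ≤ v y) : 0 ≤ cdC 𝒞 v F d x := by
  rcases cdC_eq 𝒞 v F d x with h | ⟨I, -, h⟩
  · rw [h]; exact zero_le_one
  · rw [h]; exact Real.iSup_nonneg fun i => prox_nonneg v x hv _ _

/-- For a corner `I` some `prox` is at least the distance (if `I` is non-empty). -/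
lemma cdC_le_prox {I : Finset (Fin (n + 1))} (hI : I ∈ 𝒞) (hne : I.Nonempty) :
    ∃ i ∈ I, cdC 𝒞 v F d x ≤ prox v (F i) (d i) x := by
  have : Nonempty I := hne.to_subtype
  obtain ⟨i, hi⟩ := exists_eq_ciSup_of_finite (f := fun i : I => prox v (F i) (d i) x)
  exact ⟨i.1, i.2, (cdC_le 𝒞 v F d x hI).trans hi.ge⟩

lemma prox_le_sup (I : Finset (Fin (n + 1))) {i : Fin (n + 1)} (hi : i ∈ I) :
    prox v (F i) (d i) x ≤ ⨆ i : I, prox v (F i) (d i) x :=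
  le_ciSup (f := fun i : I => prox v (F i) (d i) x) (Set.finite_range _).bddAbove ⟨i, hi⟩

lemma cdC_smul (hv : ∀ y, 0 ≤ v y) (hm : ∀ y z, v (y * z) = v y * v z) (h1 : v 1 = 1)
    (hF : ∀ i, (F i).IsHomogeneous (d i)) (μ : K) (hμ : v μ ≠ 0) :
    cdC 𝒞 v F d (μ • x) = cdC 𝒞 v F d x := by
  unfold cdC
  congr 2
  ext t
  constructor
  · rintro ⟨I, hI, rfl⟩
    exact ⟨I, hI, iSup_congr fun i => prox_smul v x hv hm h1 _ _ (hF i) μ hμ⟩
  · rintro ⟨I, hI, rfl⟩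
    exact ⟨I, hI, iSup_congr fun i => (prox_smul v x hv hm h1 _ _ (hF i) μ hμ).symm⟩

lemma sup_pow (m : ℕ) (hm : m ≠ 0) (h : ∀ y, v y = u y ^ m) (hu : ∀ y, 0 ≤ u y)
    (I : Finset (Fin (n + 1))) :
    (⨆ i : I, prox v (F i) (d i) x) = (⨆ i : I, prox u (F i) (d i) x) ^ m := by
  rcases I.eq_empty_or_nonempty with rfl | hI
  · have : IsEmpty (∅ : Finset (Fin (n + 1))) := Finset.isEmpty_coe_sort.2 rfl
    rw [Real.iSup_of_isEmpty, Real.iSup_of_isEmpty, zero_pow hm]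
  · have : Nonempty I := hI.to_subtype
    rw [Real.iSup_pow (fun i => prox_nonneg u x hu _ _)]
    exact iSup_congr fun i => prox_pow v u x m hm h hu _ _

lemma cdC_pow (m : ℕ) (hm : m ≠ 0) (h : ∀ y, v y = u y ^ m) (hu : ∀ y, 0 ≤ u y) :
    cdC 𝒞 v F d x = cdC 𝒞 u F d x ^ m := by
  have h0 : 0 ≤ cdC 𝒞 u F d x := cdC_nonneg 𝒞 u F d x hu
  apply le_antisymm
  · rcases cdC_eq 𝒞 u F d x with h2 | ⟨I, hI, h2⟩
    · rw [h2, one_pow]
      exact cdC_le_one 𝒞 v F d x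
    · rw [h2, ← sup_pow v u F d x m hm h hu]
      exact cdC_le 𝒞 v F d x hI
  · rcases cdC_eq 𝒞 v F d x with h2 | ⟨I, hI, h2⟩
    · rw [h2]
      exact pow_le_one₀ h0 (cdC_le_one 𝒞 u F d x)
    · rw [h2, sup_pow v u F d x m hm h hu]
      exact pow_le_pow_left₀ h0 (cdC_le 𝒞 u F d x hI) m

end Pool.Agent.Helper38.TN
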