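import Pool.Agent.Helper38.TP.Gap
import Pool.Agent.Helper38.TP.RelH
import Pool.Agent.Helper38.TN.CDC
import Pool.Agent.Helper10.Sub.ConstJ
import Pool.Agent.Helper89.SubTRANSFER

/-!
# The choice of the corners, and the product of the distances
-/

set_option autoImplicit false
set_option linter.unusedSectionVars false

namespace Pool.Agent.Helper38.TN

open Pool.Agent.Helper38.TP Pool.Agent.Helper85.Sub Pool.Agent.Helper85.RC
open Pool.Agent.Helper10.Sub NumberField MvPolynomial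

section loc
variable {K : Type} [Field K] {N n : ℕ} (L : Type) [NontriviallyNormedField L]
  [Algebra K L]

/-- The size of the root of the coefficient. -/
noncomputable def alH (D : Fin (n + 1) → K) (d : Fin (n + 1) → ℕ) (j : Fin (n + 1)) : ℝ :=
  gapNu L (D j) ^ ((1 : ℝ) / d j)

lemma alH_pos (D : Fin (n + 1) → K) (hD : ∀ i, D i ≠ 0) (d : Fin (n + 1) → ℕ) (j : Fin (n + 1)) :
    0 < alH L D d j := by
  apply Real.rpow_pos_of_pos
  unfold gapNu
  rw [norm_pos_iff, Ne, map_eq_zero_iff _ (algebraMap K L).injective]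
  exact hD j

lemma proxH (F : Fin (n + 1) → MvPolynomial (Fin (N + 1)) K) (d : Fin (n + 1) → ℕ)
    (hd : ∀ i, 1 ≤ d i) (D : Fin (n + 1) → K) (x : Fin (N + 1) → K) (w : Fin (n + 1) → K)
    (hF : ∀ i, eval x (F i) = D i * w i ^ d i) (j : Fin (n + 1)) :
    prox (gapNu L) (F j) (d j) x = alH L D d j * (gapNu L (w j) / nrm L x) := by
  unfold prox alH
  rw [gapNu_sup, hF]
  have h1 : gapNu L (D j * w j ^ d j) / nrm L x ^ d j =
      gapNu L (D j) * (gapNu L (w j) / nrm L x) ^ d j := by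
    unfold gapNu
    rw [map_mul, map_pow, norm_mul, norm_pow, div_pow, mul_div_assoc]
  have h2 : 0 ≤ gapNu L (w j) / nrm L x := div_nonneg (norm_nonneg _) (nrm_nonneg _)
  have h0 : 0 ≤ gapNu L (D j) := norm_nonneg _
  rw [h1, Real.mul_rpow h0 (pow_nonneg h2 _), one_div,
    Real.pow_rpow_inv_natCast h2 (by have := hd j; omega)]

/-- The choice of the corner at one place. -/
lemma gap_locH [ProperSpace L] {Ω : Type} [Field Ω] [IsAlgClosed Ω] [Algebra K Ω]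
    (J₀ : Set (MvPolynomial (Fin (N + 1)) K)) (hJ₀ : ∀ f ∈ J₀, ∃ e, f.IsHomogeneous e)
    (F : Fin (n + 1) → MvPolynomial (Fin (N + 1)) K) (d : Fin (n + 1) → ℕ) (hd : ∀ i, 1 ≤ d i)
    (hF : ∀ i, (F i).IsHomogeneous (d i))
    (hempty : ∀ A : Fin (N + 1) → Ω, OnV J₀ A → (∀ i, aeval A (F i) = 0) → A = 0)
    (D : Fin (n + 1) → K) (hD : ∀ i, D i ≠ 0)
    (𝒞 : Set (Finset (Fin (n + 1)))) (h𝒞 : ∀ I ∈ 𝒞, IsCorner Ω J₀ F I) :
    ∃ C₁' Cs : ℝ, 0 ≤ C₁' ∧ 0 ≤ Cs ∧ ∀ (x : Fin (N + 1) → K) (w : Fin (n + 1) → K), x ≠ 0 →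
      (∀ f ∈ J₀, eval x f = 0) → (∀ i, eval x (F i) = D i * w i ^ d i) →
      ∃ o : Option (Finset (Fin (n + 1)) × Fin (n + 1)),
        (∀ I a, o = some (I, a) → GoodC J₀ F L I a ∧ nrm L x ≤ C₁' * ‖algebraMap K L (w a)‖) ∧
        facN L w (nrm L x) o ≤ Cs * cdC 𝒞 (gapNu L) F d x := by
  classical
  have hal := alH_pos L D hD d
  -- the lower bound
  have hE : ∀ A : Fin (N + 1) → L, OnV J₀ A →
      (∀ i ∈ (Finset.univ : Finset (Fin (n + 1))), aeval A (F i) = 0) → A = 0 := by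
    intro A hA hAF
    refine transfer0 (Ω := Ω) (J₀ ∪ Set.range F) ?_ A ?_
    · intro B hB
      exact hempty B (fun f hf => hB f (Or.inl hf)) fun i => hB _ (Or.inr ⟨i, rfl⟩)
    · rintro f (hf | ⟨i, rfl⟩)
      · exact hA f hf
      · exact hAF i (Finset.mem_univ i)
  obtain ⟨c, hc1, hlow⟩ := lowerI (L := L) J₀ hJ₀ F d hd hF D Finset.univ hE
  have hc0 : 0 ≤ c := by linarith
  set α : ℝ := ∑ j, (alH L D d j)⁻¹ with hα
  have hα0 : 0 ≤ α := Finset.sum_nonneg fun j _ => (inv_pos.2 (hal j)).le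
  have hαj : ∀ j, (alH L D d j)⁻¹ ≤ α := fun j =>
    Finset.single_le_sum (f := fun j => (alH L D d j)⁻¹) (fun i _ => (inv_pos.2 (hal i)).le)
      (Finset.mem_univ j)
  refine ⟨c, 1 + c * α + α, hc0, by positivity, fun x w hx hxJ hev => ?_⟩
  have hX : 0 < nrm L x := nrm_pos hx
  have hδ0 : 0 ≤ cdC 𝒞 (gapNu L) F d x := cdC_nonneg 𝒞 _ F d x fun y => norm_nonneg _
  have hcα : 0 ≤ c * α := mul_nonneg hc0 hα0
  rcases cdC_eq 𝒞 (gapNu L) F d x with h1 | ⟨I, hI, h1⟩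
  · refine ⟨none, fun I a h => by simp at h, ?_⟩
    rw [h1]
    change (1 : ℝ) ≤ _
    linarith
  · obtain ⟨i, -, hi2⟩ := hlow x w hx hxJ hev
    by_cases hiI : i ∈ I
    · -- not near the corner
      refine ⟨none, fun I a h => by simp at h, ?_⟩
      change (1 : ℝ) ≤ _
      have h2 : prox (gapNu L) (F i) (d i) x ≤ cdC 𝒞 (gapNu L) F d x := by
        rw [h1]
        exact prox_le_sup (gapNu L) F d x I hiI
      rw [proxH L F d hd D x w hev] at h2
      have h3 : 1 ≤ c * (gapNu L (w i) / nrm L x) := by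
        rw [← mul_div_assoc, le_div_iff₀ hX, one_mul]
        exact hi2
      have h4 : gapNu L (w i) / nrm L x ≤ α * cdC 𝒞 (gapNu L) F d x := by
        have h5 : gapNu L (w i) / nrm L x =
            (alH L D d i)⁻¹ * (alH L D d i * (gapNu L (w i) / nrm L x)) := by
          rw [inv_mul_cancel_left₀ (hal i).ne']
        rw [h5]
        exact mul_le_mul (hαj i) h2 (mul_nonneg (hal i).le
          (div_nonneg (norm_nonneg _) hX.le)) hα0
      calc (1 : ℝ) ≤ c * (gapNu L (w i) / nrm L x) := h3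
        _ ≤ c * (α * cdC 𝒞 (gapNu L) F d x) := mul_le_mul_of_nonneg_left h4 hc0
        _ ≤ _ := by nlinarith
    · refine ⟨some (I, i), ?_, ?_⟩
      · intro I' a' h
        obtain ⟨rfl, rfl⟩ : I = I' ∧ i = a' := by
          have := Option.some.inj h
          exact ⟨congrArg Prod.fst this, congrArg Prod.snd this⟩
        refine ⟨⟨hiI, (h𝒞 I hI).1, fun A hA hOn => ?_⟩, hi2⟩
        exact transfer (Ω := Ω) _ (h𝒞 I hI).2 A hA hOn
      · change ‖fun i : {i // i ∈ I} => algebraMap K L (w i.1)‖ / nrm L x ≤ _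
        rw [div_le_iff₀ hX]
        have h5 : 0 ≤ (1 + c * α + α) * cdC 𝒞 (gapNu L) F d x * nrm L x := by positivity
        refine (pi_norm_le_iff_of_nonneg h5).2 fun j => ?_
        have h2 : prox (gapNu L) (F j.1) (d j.1) x ≤ cdC 𝒞 (gapNu L) F d x := by
          rw [h1]
          exact prox_le_sup (gapNu L) F d x I j.2
        rw [proxH L F d hd D x w hev] at h2
        have h4 : gapNu L (w j.1) / nrm L x ≤ α * cdC 𝒞 (gapNu L) F d x := by
          have h5 : gapNu L (w j.1) / nrm L x =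
              (alH L D d j.1)⁻¹ * (alH L D d j.1 * (gapNu L (w j.1) / nrm L x)) := by
            rw [inv_mul_cancel_left₀ (hal j.1).ne']
          rw [h5]
          exact mul_le_mul (hαj j.1) h2 (mul_nonneg (hal j.1).le
            (div_nonneg (norm_nonneg _) hX.le)) hα0
        rw [div_le_iff₀ hX] at h4
        have h6 : α * cdC 𝒞 (gapNu L) F d x * nrm L x ≤
            (1 + c * α + α) * cdC 𝒞 (gapNu L) F d x * nrm L x := by
          gcongr
          linarith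
        exact le_trans (show ‖algebraMap K L (w j.1)‖ ≤ _ from h4) h6

end loc

/-- **The choice of the corners, and the product.** -/
theorem gap_leH {K : Type} [Field K] [NumberField K] (T : Finset Nat.Primes)
    (S : Finset (FinitePlace K))
    (hS : ∀ v ∈ S, ∃ t ∈ T, ((t : ℕ) : 𝓞 K) ∈ v.maximalIdeal.asIdeal) {N n : ℕ}
    {Ω : Type} [Field Ω] [IsAlgClosed Ω] [Algebra K Ω]
    (J₀ : Set (MvPolynomial (Fin (N + 1)) K)) (hJ₀ : ∀ f ∈ J₀, ∃ e, f.IsHomogeneous e)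
    (F : Fin (n + 1) → MvPolynomial (Fin (N + 1)) K) (d : Fin (n + 1) → ℕ) (hd : ∀ i, 1 ≤ d i)
    (hF : ∀ i, (F i).IsHomogeneous (d i))
    (hempty : ∀ A : Fin (N + 1) → Ω, OnV J₀ A → (∀ i, aeval A (F i) = 0) → A = 0)
    (D : Fin (n + 1) → K) (hD : ∀ i, D i ≠ 0)
    (𝒞 : Set (Finset (Fin (n + 1)))) (h𝒞 : ∀ I ∈ 𝒞, IsCorner Ω J₀ F I) :
    ∃ C₁' C₂ : ℝ, 0 ≤ C₂ ∧ ∀ (x : Fin (N + 1) → K) (w : Fin (n + 1) → K), x ≠ 0 →
      (∀ f ∈ J₀, eval x f = 0) → (∀ i, eval x (F i) = D i * w i ^ d i) →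
      ∃ o : Lam K T → Option (Finset (Fin (n + 1)) × Fin (n + 1)),
        (∀ s I a, o s = some (I, a) →
          GoodC J₀ F (LF K T s) I a ∧ nrm (LF K T s) x ≤ C₁' * ‖algebraMap K (LF K T s) (w a)‖) ∧
        ∏ s, facN (LF K T s) w (nrm (LF K T s) x) (o s) ≤
          C₂ * ((∏ v : InfinitePlace K, cdC 𝒞 v F d x ^ v.mult) * ∏ v ∈ S, cdC 𝒞 v F d x) := by
  classical
  obtain ⟨ST, hST1, -, hST3, hST4⟩ := prod_lam K T
  have hSST : S ⊆ ST := fun v hv => hST1 v (hS v hv)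
  choose C₁ Cs hC₁ hCs hloc using fun s : Lam K T =>
    gap_locH (L := LF K T s) (Ω := Ω) J₀ hJ₀ F d hd hF hempty D hD 𝒞 h𝒞
  refine ⟨∑ s, C₁ s, ∏ s, Cs s, Finset.prod_nonneg fun s _ => hCs s, fun x w hx hxJ hev => ?_⟩
  choose o ho1 ho2 using fun s => hloc s x w hx hxJ hev
  refine ⟨o, fun s I a h => ⟨(ho1 s I a h).1, (ho1 s I a h).2.trans
    (mul_le_mul_of_nonneg_right ?_ (norm_nonneg _))⟩, ?_⟩
  · exact Finset.single_le_sum (f := C₁) (fun s _ => hC₁ s) (Finset.mem_univ s)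
  have hcdF : ∀ v : FinitePlace K, 0 ≤ cdC 𝒞 v F d x := fun v =>
    cdC_nonneg 𝒞 _ F d x fun y => apply_nonneg v y
  have hcdI : ∀ v : InfinitePlace K, 0 ≤ cdC 𝒞 v F d x := fun v =>
    cdC_nonneg 𝒞 _ F d x fun y => apply_nonneg v y
  have hprod : ∏ s, cdC 𝒞 (gapNu (LF K T s)) F d x =
      (∏ w : InfinitePlace K, cdC 𝒞 w F d x ^ w.mult) * ∏ v ∈ ST, cdC 𝒞 v F d x := by
    refine hST4 (fun s => cdC 𝒞 (gapNu (LF K T s)) F d x)
      (fun w => cdC 𝒞 w F d x) (fun v => cdC 𝒞 v F d x)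
      (fun s => cdC_nonneg 𝒞 _ F d x fun y => norm_nonneg _) ?_ ?_
    · intro σ
      have h3 : (gapNu (LF K T (Sum.inl σ)) : K → ℝ) = (InfinitePlace.mk σ : K → ℝ) := by
        funext y
        exact (InfinitePlace.apply σ y).symm
      show cdC 𝒞 (gapNu (LF K T (Sum.inl σ))) F d x = cdC 𝒞 (InfinitePlace.mk σ) F d x
      rw [h3]
    · intro s v m hm hv
      exact cdC_pow 𝒞 v (gapNu (LF K T (Sum.inr s))) F d x m hm (fun y => hv y)
        (fun y => norm_nonneg _)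
  have hfac : ∀ s, 0 ≤ facN (LF K T s) w (nrm (LF K T s) x) (o s) := by
    intro s
    rcases o s with _ | ⟨I, a⟩
    · exact zero_le_one
    · exact div_nonneg (norm_nonneg _) (nrm_nonneg _)
  calc ∏ s, facN (LF K T s) w (nrm (LF K T s) x) (o s)
      ≤ ∏ s, (Cs s * cdC 𝒞 (gapNu (LF K T s)) F d x) :=
        Finset.prod_le_prod (fun s _ => hfac s) fun s _ => ho2 s
    _ = (∏ s, Cs s) * ((∏ w : InfinitePlace K, cdC 𝒞 w F d x ^ w.mult) *
          ((∏ v ∈ ST \ S, cdC 𝒞 v F d x) * ∏ v ∈ S, cdC 𝒞 v F d x)) := by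
        rw [Finset.prod_mul_distrib, hprod, Finset.prod_sdiff hSST]
    _ ≤ (∏ s, Cs s) * ((∏ w : InfinitePlace K, cdC 𝒞 w F d x ^ w.mult) *
          (1 * ∏ v ∈ S, cdC 𝒞 v F d x)) := by
        have h4 : ∏ v ∈ ST \ S, cdC 𝒞 v F d x ≤ 1 :=
          Finset.prod_le_one (fun v _ => hcdF v) fun v _ => cdC_le_one 𝒞 _ F d x
        have h5 : 0 ≤ ∏ w : InfinitePlace K, cdC 𝒞 w F d x ^ w.mult :=
          Finset.prod_nonneg fun w _ => pow_nonneg (hcdI w) _
        have h6 : 0 ≤ ∏ v ∈ S, cdC 𝒞 v F d x := Finset.prod_nonneg fun v _ => hcdF v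
        have h7 : 0 ≤ ∏ s, Cs s := Finset.prod_nonneg fun s _ => hCs s
        gcongr
    _ = _ := by rw [one_mul]

end Pool.Agent.Helper38.TN
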