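import Pool.Agent.Helper38.TP.CD

/-!
# The distance to the corners, any number of forms
-/

set_option autoImplicit false
set_option linter.unusedSectionVars false

namespace Pool.Agent.Helper38.TN

open Pool.Agent.Helper38.TP MvPolynomial

variable {K : Type} [Field K] {N n : ℕ}

/-- The distance to the corners. -/
noncomputable def cdist (v : K → ℝ) (F : Fin (n + 1) → MvPolynomial (Fin (N + 1)) K)
    (d : Fin (n + 1) → ℕ) (x : Fin (N + 1) → K) : ℝ :=
  ⨅ i : Fin (n + 1), ⨆ j : {j : Fin (n + 1) // j ≠ i}, prox v (F j) (d j) x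

variable (v u : K → ℝ) (F : Fin (n + 1) → MvPolynomial (Fin (N + 1)) K) (d : Fin (n + 1) → ℕ)
  (x : Fin (N + 1) → K) [NeZero n]

lemma ex_ne (i : Fin (n + 1)) : Nonempty {j : Fin (n + 1) // j ≠ i} := by
  have hn := NeZero.ne n
  have : Nontrivial (Fin (n + 1)) := Fin.nontrivial_iff_two_le.2 (by omega)
  obtain ⟨j, hj⟩ := exists_ne i
  exact ⟨⟨j, hj⟩⟩

lemma cdN_le_iff {t : ℝ} :
    cdist v F d x ≤ t ↔ ∃ i, ∀ j, j ≠ i → prox v (F j) (d j) x ≤ t := by
  unfold cdist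
  constructor
  · intro h
    obtain ⟨i, hi⟩ := exists_eq_ciInf_of_finite
      (f := fun i : Fin (n + 1) => ⨆ j : {j : Fin (n + 1) // j ≠ i}, prox v (F j) (d j) x)
    refine ⟨i, fun j hj => ?_⟩
    have h1 : prox v (F j) (d j) x ≤ ⨆ j : {j : Fin (n + 1) // j ≠ i}, prox v (F j) (d j) x :=
      le_ciSup (f := fun j : {j : Fin (n + 1) // j ≠ i} => prox v (F j) (d j) x)
        (Set.finite_range _).bddAbove ⟨j, hj⟩
    have h2 : (⨆ j : {j : Fin (n + 1) // j ≠ i}, prox v (F j) (d j) x) =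
      ⨅ i : Fin (n + 1), ⨆ j : {j : Fin (n + 1) // j ≠ i}, prox v (F j) (d j) x := hi
    exact h1.trans (h2.le.trans h)
  · rintro ⟨i, hi⟩
    have : Nonempty {j : Fin (n + 1) // j ≠ i} := ex_ne i
    have h1 : (⨆ j : {j : Fin (n + 1) // j ≠ i}, prox v (F j) (d j) x) ≤ t :=
      ciSup_le fun j => hi j.1 j.2
    exact (ciInf_le
      (f := fun i : Fin (n + 1) => ⨆ j : {j : Fin (n + 1) // j ≠ i}, prox v (F j) (d j) x)
      (Set.finite_range _).bddBelow i).trans h1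

lemma le_cdN_iff {t : ℝ} :
    t ≤ cdist v F d x ↔ ∀ i, ∃ j, j ≠ i ∧ t ≤ prox v (F j) (d j) x := by
  unfold cdist
  constructor
  · intro h i
    have : Nonempty {j : Fin (n + 1) // j ≠ i} := ex_ne i
    obtain ⟨j, hj⟩ := exists_eq_ciSup_of_finite
      (f := fun j : {j : Fin (n + 1) // j ≠ i} => prox v (F j) (d j) x)
    refine ⟨j.1, j.2, ?_⟩
    have h1 := ciInf_le
      (f := fun i : Fin (n + 1) => ⨆ j : {j : Fin (n + 1) // j ≠ i}, prox v (F j) (d j) x)
      (Set.finite_range _).bddBelow i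
    have h2 : prox v (F j.1) (d j.1) x =
      ⨆ j : {j : Fin (n + 1) // j ≠ i}, prox v (F j) (d j) x := hj
    rw [h2]
    exact h.trans h1
  · intro h
    refine le_ciInf fun i => ?_
    obtain ⟨j, hj, hj1⟩ := h i
    exact hj1.trans (le_ciSup (f := fun j : {j : Fin (n + 1) // j ≠ i} => prox v (F j) (d j) x)
      (Set.finite_range _).bddAbove ⟨j, hj⟩)

lemma cdN_nonneg (hv : ∀ y, 0 ≤ v y) : 0 ≤ cdist v F d x := by
  rw [le_cdN_iff]
  intro i
  obtain ⟨j⟩ := ex_ne i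
  exact ⟨j.1, j.2, prox_nonneg v x hv _ _⟩

lemma cdN_smul (hv : ∀ y, 0 ≤ v y) (hm : ∀ y z, v (y * z) = v y * v z) (h1 : v 1 = 1)
    (hF : ∀ i, (F i).IsHomogeneous (d i)) (μ : K) (hμ : v μ ≠ 0) :
    cdist v F d (μ • x) = cdist v F d x := by
  unfold cdist
  refine iInf_congr fun i => iSup_congr fun j => ?_
  exact prox_smul v x hv hm h1 _ _ (hF j) μ hμ

lemma cdN_pow (m : ℕ) (hm : m ≠ 0) (h : ∀ y, v y = u y ^ m) (hu : ∀ y, 0 ≤ u y) :
    cdist v F d x = cdist u F d x ^ m := by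
  have h0 : 0 ≤ cdist u F d x := cdN_nonneg u F d x hu
  apply le_antisymm
  · rw [cdN_le_iff]
    obtain ⟨i, hi⟩ := (cdN_le_iff u F d x).1 (le_refl (cdist u F d x))
    refine ⟨i, fun j hj => ?_⟩
    rw [prox_pow v u x m hm h hu]
    exact pow_le_pow_left₀ (prox_nonneg u x hu _ _) (hi j hj) m
  · rw [le_cdN_iff]
    intro i
    obtain ⟨j, hj, hj1⟩ := (le_cdN_iff u F d x).1 (le_refl (cdist u F d x)) i
    refine ⟨j, hj, ?_⟩
    rw [prox_pow v u x m hm h hu]
    exact pow_le_pow_left₀ h0 hj1 m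

/-- The case of three forms. -/
lemma cdN_three (v : K → ℝ) (F : Fin 3 → MvPolynomial (Fin (N + 1)) K) (d : Fin 3 → ℕ)
    (x : Fin (N + 1) → K) : cdist (n := 2) v F d x = cornerDist v F d x := rfl

end Pool.Agent.Helper38.TN
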