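import Pool.Agent.Helper38.TN.Core
import Pool.Agent.Helper38.TP.SmallG
import Pool.Agent.Helper38.TN.ScalN
import Pool.Agent.Helper38.TN.GapN

/-!
# Integral points near the corners, all dimensions: final assembly
-/

set_option autoImplicit false
set_option linter.unusedSectionVars false

namespace Pool.Agent.Helper38.TN

open Pool.Agent.Helper10.Sub Pool.Agent.Helper38.TP MvPolynomial

section abstract_form

variable {K : Type} [Field K] [CharZero K] {Λ : Type} [Fintype Λ] [DecidableEq Λ] {L : Λ → Type}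
  [∀ s, NontriviallyNormedField (L s)] [∀ s, ProperSpace (L s)] [∀ s, Algebra K (L s)] {N n : ℕ}

/-- Lower bound at a place, any number of forms. -/
lemma lowerN {r : ℕ} {L : Type} [NontriviallyNormedField L] [ProperSpace L] [Algebra K L]
    (J₀ : Set (MvPolynomial (Fin (N + 1)) K)) (hJ₀ : ∀ f ∈ J₀, ∃ e, f.IsHomogeneous e)
    (F : Fin r → MvPolynomial (Fin (N + 1)) K) (d : Fin r → ℕ)
    (hF : ∀ i, (F i).IsHomogeneous (d i))
    (hempty : ∀ A : Fin (N + 1) → L, OnV J₀ A → (∀ i, aeval A (F i) = 0) → A = 0) :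
    ∃ η : ℝ, 0 < η ∧ ∀ x : Fin (N + 1) → K, x ≠ 0 → OnV J₀ x →
      ∃ i, η * nrm L x ^ d i ≤ ‖algebraMap K L (eval x (F i))‖ := by
  obtain ⟨η, hη, h⟩ := loc0 (L := L) J₀ hJ₀ F d hF (by
    intro A hA hOn
    by_contra hcon
    push Not at hcon
    exact hA (hempty A hOn hcon))
  refine ⟨η, hη, fun x hx hxP => ?_⟩
  obtain ⟨i, hi⟩ := h (fun k => algebraMap K L (x k)) (by
    intro h0
    apply hx
    funext k
    exact (map_eq_zero_iff _ (algebraMap K L).injective).mp (congrFun h0 k)) (by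
    intro f hf
    rw [aeval_alg]
    have := hxP f hf
    rw [aeval_self'] at this
    rw [this, map_zero])
  rw [aeval_alg] at hi
  exact ⟨i, hi⟩

/-- The constants. -/
lemma constsN {r : ℕ} (J₀ : Set (MvPolynomial (Fin (N + 1)) K))
    (hJ₀ : ∀ f ∈ J₀, ∃ e, f.IsHomogeneous e)
    (F : Fin r → MvPolynomial (Fin (N + 1)) K) (d : Fin r → ℕ) (hd : ∀ i, 1 ≤ d i)
    (hF : ∀ i, (F i).IsHomogeneous (d i)) (D : Fin r → K) (hD : ∀ i, D i ≠ 0)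
    (hempty : ∀ s, ∀ A : Fin (N + 1) → L s, OnV J₀ A → (∀ i, aeval A (F i) = 0) → A = 0) :
    ∃ C₁ : ℝ, 1 ≤ C₁ ∧ ∀ x : Fin (N + 1) → K, x ≠ 0 → OnV J₀ x → ∀ w : Fin r → K,
      (∀ i, eval x (F i) = D i * w i ^ d i) →
      (∀ s i, ‖algebraMap K (L s) (w i)‖ ≤ C₁ * nrm (L s) x) ∧
      ∀ s, ∃ i, nrm (L s) x ≤ C₁ * ‖algebraMap K (L s) (w i)‖ := by
  classical
  have hup : ∀ (s : Λ) (i : Fin r), ∃ C : ℝ, 0 ≤ C ∧ ∀ x : Fin (N + 1) → K, ∀ w : Fin r → K,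
      (∀ i, eval x (F i) = D i * w i ^ d i) →
      ‖algebraMap K (L s) (w i)‖ ≤ C * nrm (L s) x := by
    intro s i
    obtain ⟨C, hC, h⟩ := aeval_le (L := L s) (F i) (d i) (hF i)
    have hDi : 0 < ‖algebraMap K (L s) (D i)‖ := norm_pos_iff.mpr
      (by rw [Ne, map_eq_zero_iff _ (algebraMap K (L s)).injective]; exact hD i)
    refine ⟨max 1 (C / ‖algebraMap K (L s) (D i)‖), by positivity, fun x w hev => ?_⟩
    apply root_le (Nat.one_le_iff_ne_zero.mp (hd i)) (norm_nonneg _) (nrm_nonneg _)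
    have h1 := h (fun k => algebraMap K (L s) (x k))
    rw [aeval_alg, hev i, map_mul, map_pow, norm_mul, norm_pow] at h1
    rw [div_mul_eq_mul_div, le_div_iff₀ hDi, mul_comm]
    exact h1
  have hlow : ∀ s : Λ, ∃ C : ℝ, 0 ≤ C ∧ ∀ x : Fin (N + 1) → K, x ≠ 0 → OnV J₀ x →
      ∀ w : Fin r → K, (∀ i, eval x (F i) = D i * w i ^ d i) →
      ∃ i, nrm (L s) x ≤ C * ‖algebraMap K (L s) (w i)‖ := by
    intro s
    obtain ⟨η, hη, h⟩ := lowerN (L := L s) J₀ hJ₀ F d hF (hempty s)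
    refine ⟨∑ i, max 1 (‖algebraMap K (L s) (D i)‖ / η),
      Finset.sum_nonneg fun _ _ => by positivity, fun x hx hxJ w hev => ?_⟩
    obtain ⟨i, hi⟩ := h x hx hxJ
    refine ⟨i, ?_⟩
    have h1 : nrm (L s) x ≤ max 1 (‖algebraMap K (L s) (D i)‖ / η) *
        ‖algebraMap K (L s) (w i)‖ := by
      apply root_le (Nat.one_le_iff_ne_zero.mp (hd i)) (nrm_nonneg _) (norm_nonneg _)
      rw [hev i, map_mul, map_pow, norm_mul, norm_pow] at hi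
      rw [div_mul_eq_mul_div, le_div_iff₀ hη, mul_comm]
      exact hi
    refine h1.trans (mul_le_mul_of_nonneg_right ?_ (norm_nonneg _))
    exact Finset.single_le_sum (f := fun i => max 1 (‖algebraMap K (L s) (D i)‖ / η))
      (fun _ _ => by positivity) (Finset.mem_univ i)
  choose Cu hCu hu using hup
  choose Cl hCl hl using hlow
  have h1 : 0 ≤ ∑ s, ∑ i, Cu s i :=
    Finset.sum_nonneg fun s _ => Finset.sum_nonneg fun i _ => hCu s i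
  have h2 : 0 ≤ ∑ s, Cl s := Finset.sum_nonneg fun s _ => hCl s
  refine ⟨1 + (∑ s, ∑ i, Cu s i) + ∑ s, Cl s, by linarith, fun x hx hxJ w hev => ⟨?_, ?_⟩⟩
  · intro s i
    refine (hu s i x w hev).trans (mul_le_mul_of_nonneg_right ?_ (nrm_nonneg _))
    have h3 : Cu s i ≤ ∑ i, Cu s i :=
      Finset.single_le_sum (f := fun i => Cu s i) (fun i _ => hCu s i) (Finset.mem_univ i)
    have h4 : ∑ i, Cu s i ≤ ∑ s, ∑ i, Cu s i :=
      Finset.single_le_sum (f := fun s => ∑ i, Cu s i)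
        (fun s _ => Finset.sum_nonneg fun i _ => hCu s i) (Finset.mem_univ s)
    linarith
  · intro s
    obtain ⟨i, hi⟩ := hl s x hx hxJ w hev
    refine ⟨i, hi.trans (mul_le_mul_of_nonneg_right ?_ (norm_nonneg _))⟩
    have h3 : Cl s ≤ ∑ s, Cl s :=
      Finset.single_le_sum (f := fun s => Cl s) (fun s _ => hCl s) (Finset.mem_univ s)
    linarith

/-- **Points near the corners**, abstract form, all dimensions. -/
theorem smallN' (hn : 1 ≤ n) (Z : MP K L) {Ω : Type} [Field Ω] [IsAlgClosed Ω] [Algebra K Ω]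
    (J₀ : Set (MvPolynomial (Fin (N + 1)) K)) (hJ₀ : ∀ f ∈ J₀, ∃ e, f.IsHomogeneous e)
    (F : Fin (n + 1) → MvPolynomial (Fin (N + 1)) K) (d : Fin (n + 1) → ℕ) (hd : ∀ i, 1 ≤ d i)
    (hF : ∀ i, (F i).IsHomogeneous (d i))
    (hempty : ∀ A : Fin (N + 1) → Ω, OnV J₀ A → (∀ i, aeval A (F i) = 0) → A = 0)
    (hred : ∀ a, ∀ A : Fin (N + 1) → Ω, A ≠ 0 → OnV (J₀ ∪ F '' {i | i ≠ a}) A →
      Jac (J₀ ∪ F '' {i | i ≠ a}) A)
    (E : Set (Fin (N + 1) → K)) (hO : ∀ x ∈ E, ∀ k, x k ∈ Z.O) (hx0 : ∀ x ∈ E, x ≠ 0)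
    (hX : ∀ x ∈ E, ∀ f ∈ J₀, eval x f = 0)
    (𝒟 : Finset K) (h𝒟 : ∀ D ∈ 𝒟, D ≠ 0)
    (hint : ∀ x ∈ E, ∀ i, ∃ D ∈ 𝒟, ∃ w : K, Z.U w ∧ eval x (F i) = D * w ^ d i)
    (C₀ : ℝ) (hbal : ∀ x ∈ E, ∀ s, nrm (L s) x ≤ C₀ * Ht L x)
    (θ : ℝ) (hθ : 0 < θ)
    (hgap : ∀ (D : Fin (n + 1) → K) (C₁ : ℝ), (∀ i, D i ≠ 0) → 1 ≤ C₁ → ∃ C₂ : ℝ, ∀ x ∈ E,
      ∀ w : Fin (n + 1) → K, (∀ i, Z.U (w i)) → (∀ i, eval x (F i) = D i * w i ^ d i) →
      ∀ a : Λ → Fin (n + 1), (∀ s, nrm (L s) x ≤ C₁ * ‖algebraMap K (L s) (w (a s))‖) →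
      (∀ s i, ‖algebraMap K (L s) (w i)‖ ≤ C₁ * nrm (L s) x) →
      ∏ s, (‖fun i : Ix (a s) => algebraMap K (L s) (w i.1)‖ / nrm (L s) x) ≤
        C₂ * Ht L x ^ (-θ)) :
    SmallN J₀ F d E := by
  classical
  by_contra hE
  change (bigN J₀ F d).Big E at hE
  have hE0 : ∀ A : Fin (N + 1) → Ω, OnV (J₀ ∪ Set.range F) A → A = 0 :=
    fun A hA => hempty A (fun f hf => hA f (Or.inl hf)) (fun i => hA _ (Or.inr ⟨i, rfl⟩))
  have hempty' : ∀ s, ∀ A : Fin (N + 1) → L s, OnV J₀ A → (∀ i, aeval A (F i) = 0) →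
      A = 0 := by
    intro s A hA hAF
    apply transfer0 _ hE0 A
    rintro f (hf | ⟨i, rfl⟩)
    · exact hA f hf
    · exact hAF i
  -- fix the constants
  obtain ⟨D, hD𝒟, hE₁⟩ := (bigN J₀ F d).partition (Fintype.piFinset (fun _ : Fin (n + 1) => 𝒟)) hE
    (fun D x => ∀ i, ∃ w : K, Z.U w ∧ eval x (F i) = D i * w ^ d i) (by
      intro x hx
      choose D hD w hw h using hint x hx
      exact ⟨D, Fintype.mem_piFinset.mpr hD, fun i => ⟨w i, hw i, h i⟩⟩)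
  rw [Fintype.mem_piFinset] at hD𝒟
  have hD : ∀ i, D i ≠ 0 := fun i => h𝒟 _ (hD𝒟 i)
  set E₁ : Set (Fin (N + 1) → K) := _ with hE₁def
  change (bigN J₀ F d).Big E₁ at hE₁
  have hE₁E : ∀ x ∈ E₁, x ∈ E := fun x hx => hx.1
  have hw' : ∀ x ∈ E₁, ∀ i, ∃ w : K, Z.U w ∧ eval x (F i) = D i * w ^ d i := fun x hx => hx.2
  choose! w hw hev using hw'
  obtain ⟨C₁, hC₁, hcon⟩ := constsN (L := L) J₀ hJ₀ F d hd hF D hD hempty'
  have hOn : ∀ x ∈ E, OnV J₀ x := by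
    intro x hx f hf
    rw [aeval_self']
    exact hX x hx f hf
  have hup : ∀ x ∈ E₁, ∀ s i, ‖algebraMap K (L s) (w x i)‖ ≤ max C₀ C₁ * nrm (L s) x := by
    intro x hx s i
    refine ((hcon x (hx0 x (hE₁E x hx)) (hOn x (hE₁E x hx)) (w x) (hev x hx)).1 s i).trans ?_
    exact mul_le_mul_of_nonneg_right (le_max_right _ _) (nrm_nonneg _)
  have hlow : ∀ x ∈ E₁, ∀ s, ∃ i, nrm (L s) x ≤ max C₀ C₁ * ‖algebraMap K (L s) (w x i)‖ := by
    intro x hx s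
    obtain ⟨i, hi⟩ := (hcon x (hx0 x (hE₁E x hx)) (hOn x (hE₁E x hx)) (w x) (hev x hx)).2 s
    exact ⟨i, hi.trans (mul_le_mul_of_nonneg_right (le_max_right _ _) (norm_nonneg _))⟩
  have hC : 1 ≤ max C₀ C₁ := hC₁.trans (le_max_right _ _)
  obtain ⟨C₂, hC₂⟩ := hgap D (max C₀ C₁) hD hC
  have h : Pts Z (bigN J₀ F d) J₀ F d D w (max C₀ C₁) θ C₂ E₁ := by
    refine ⟨hJ₀, hd, hF, hD, hempty', ?_, hE₁, hw, hev, fun x hx => hO x (hE₁E x hx),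
      fun x hx => hx0 x (hE₁E x hx), fun x hx => hX x (hE₁E x hx), hC, ?_, hup, hlow, hθ, ?_⟩
    · intro s a
      have h1 : ((Finset.univ.erase a : Finset (Fin (n + 1))) : Set (Fin (n + 1))) =
          {i | i ≠ a} := by
        ext i
        simp
      rw [h1]
      intro A hA hOnA
      exact transfer _ (hred a) A hA hOnA
    · intro x hx s
      refine (hbal x (hE₁E x hx) s).trans (mul_le_mul_of_nonneg_right (le_max_left _ _) ?_)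
      exact zero_le_one.trans (one_le_Ht Z (hO x (hE₁E x hx)) (hx0 x (hE₁E x hx)))
    · intro x hx a ha
      exact hC₂ x (hE₁E x hx) (w x) (hw x hx) (hev x hx) a ha (hup x hx)
  exact coreN hn h hempty

end abstract_form

section number_field

open Pool.Agent.Helper85.Sub Pool.Agent.Helper85.RC Pool.Agent.Helper10 NumberField
open scoped LinearAlgebra.Projectivization

variable {K : Type} [Field K] [NumberField K] {N n : ℕ}

/-- The product of the distances to the corners. -/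
noncomputable def cornerProdN (S : Finset (FinitePlace K))
    (F : Fin (n + 1) → MvPolynomial (Fin (N + 1)) K) (d : Fin (n + 1) → ℕ)
    (x : Fin (N + 1) → K) : ℝ :=
  (∏ w : InfinitePlace K, cdist w F d x ^ w.mult) * ∏ v ∈ S, cdist v F d x

lemma cornerProdN_smul [NeZero n] (S : Finset (FinitePlace K))
    (F : Fin (n + 1) → MvPolynomial (Fin (N + 1)) K) (d : Fin (n + 1) → ℕ)
    (hF : ∀ i, (F i).IsHomogeneous (d i)) (x : Fin (N + 1) → K) (μ : K) (hμ : μ ≠ 0) :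
    cornerProdN S F d (μ • x) = cornerProdN S F d x := by
  unfold cornerProdN
  congr 1
  · refine Finset.prod_congr rfl fun w _ => ?_
    rw [cdN_smul w F d x (fun y => apply_nonneg w y) (fun y z => map_mul w y z) (map_one w) hF μ
      (by simpa using hμ)]
  · refine Finset.prod_congr rfl fun v _ => ?_
    rw [cdN_smul v F d x (fun y => apply_nonneg v y) (fun y z => map_mul v y z) (map_one v) hF μ
      (by simpa using hμ)]

/-- A set of points covered by finitely many points and finitely many images of tori. -/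
def SmallPN {K : Type} [Field K] {N n : ℕ} (J₀ : Set (MvPolynomial (Fin (N + 1)) K))
    (F : Fin (n + 1) → MvPolynomial (Fin (N + 1)) K) (d : Fin (n + 1) → ℕ)
    (T : Set (ℙ K (Fin (N + 1) → K))) : Prop :=
  ∃ (A : Set (ℙ K (Fin (N + 1) → K)))
    (𝒯 : Set ((Fin (N + 1) → MvPolynomial (Fin n) K) × (Fin (n + 1) → Fin n →₀ ℕ))),
    A.Finite ∧ 𝒯.Finite ∧ (∀ t ∈ 𝒯, IsTorus J₀ F d t.1 t.2) ∧
    ∀ Q ∈ T, Q ∈ A ∨ ∃ t ∈ 𝒯, OnT t.1 Q.rep

omit [NumberField K] in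
lemma smallPN_of_small {J₀ : Set (MvPolynomial (Fin (N + 1)) K)}
    {F : Fin (n + 1) → MvPolynomial (Fin (N + 1)) K} {d : Fin (n + 1) → ℕ}
    {T : Set (ℙ K (Fin (N + 1) → K))} (c : ℙ K (Fin (N + 1) → K) → K) (hc : ∀ Q, c Q ≠ 0)
    (h : SmallN J₀ F d ((fun Q => c Q • Q.rep) '' T)) : SmallPN J₀ F d T := by
  classical
  obtain ⟨A, 𝒯, hA, h𝒯, hT, h⟩ := h
  refine ⟨{Q | ∃ v ∈ A, ∃ μ : K, μ ≠ 0 ∧ Q.rep = μ • v}, 𝒯, ?_, h𝒯, hT, ?_⟩
  · have h1 : {Q : ℙ K (Fin (N + 1) → K) | ∃ v ∈ A, ∃ μ : K, μ ≠ 0 ∧ Q.rep = μ • v} =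
        ⋃ v ∈ A, {Q | ∃ μ : K, μ ≠ 0 ∧ Q.rep = μ • v} := by
      ext Q
      simp only [Set.mem_ofPred_eq, Set.mem_iUnion, exists_prop]
    rw [h1]
    apply hA.biUnion
    intro v _
    apply Set.Subsingleton.finite
    rintro Q ⟨μ, hμ, hQ⟩ Q' ⟨μ', hμ', hQ'⟩
    rw [← Projectivization.mk_rep Q, ← Projectivization.mk_rep Q',
      Projectivization.mk_eq_mk_iff']
    refine ⟨μ * μ'⁻¹, ?_⟩
    rw [hQ, hQ', smul_smul, mul_assoc, inv_mul_cancel₀ hμ', mul_one]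
  · intro Q hQT
    have hrep : Q.rep = (c Q)⁻¹ • (c Q • Q.rep) := by
      rw [smul_smul, inv_mul_cancel₀ (hc Q), one_smul]
    have hci : (c Q)⁻¹ ≠ 0 := inv_ne_zero (hc Q)
    rcases h _ ⟨Q, hQT, rfl⟩ with ⟨v, hv, μ, hμ, h⟩ | ⟨t, ht, μ, z, hμ, hz, h⟩
    · refine Or.inl ⟨v, hv, (c Q)⁻¹ * μ, mul_ne_zero hci hμ, ?_⟩
      rw [mul_smul, ← h]
      exact hrep
    · refine Or.inr ⟨t, ht, (c Q)⁻¹ * μ, z, mul_ne_zero hci hμ, hz, ?_⟩
      rw [mul_smul, ← h]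
      exact hrep

/-- **Integral points near the corners, all dimensions.** -/
theorem mainN [NeZero n] (S : Finset (FinitePlace K))
    (J₀ : Set (MvPolynomial (Fin (N + 1)) K)) (hJ₀ : ∀ f ∈ J₀, ∃ e, f.IsHomogeneous e)
    (F : Fin (n + 1) → MvPolynomial (Fin (N + 1)) K) (d : Fin (n + 1) → ℕ) (hd : ∀ i, 1 ≤ d i)
    (hF : ∀ i, (F i).IsHomogeneous (d i))
    {Ω : Type} [Field Ω] [IsAlgClosed Ω] [Algebra K Ω]
    (hempty : ∀ A : Fin (N + 1) → Ω, OnV J₀ A → (∀ i, aeval A (F i) = 0) → A = 0)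
    (hred : ∀ a, ∀ A : Fin (N + 1) → Ω, A ≠ 0 → OnV (J₀ ∪ F '' {i | i ≠ a}) A →
      Jac (J₀ ∪ F '' {i | i ≠ a}) A)
    (T : Set (ℙ K (Fin (N + 1) → K))) (hTX : ∀ Q ∈ T, ∀ f ∈ J₀, eval Q.rep f = 0)
    (hT : LV.IntegralSet S F d T) (θ C : ℝ) (hθ : 0 < θ) :
    SmallPN J₀ F d {Q | Q ∈ T ∧ cornerProdN S F d Q.rep ≤ C * Height.mulHeight Q.rep ^ (-θ)} := by
  classical
  obtain ⟨c, hc, hcf, hT⟩ := hT
  obtain ⟨P, Z, C₀, 𝒟, hZ, hSP, hC₀, h𝒟, hscal⟩ := scalN K S F d hd hF c hc hcf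
  have hμ : ∀ Q : ℙ K (Fin (N + 1) → K), Q ∈ T → ∃ μ : K, μ ≠ 0 ∧
      (∀ k, (μ • Q.rep) k ∈ Z.O) ∧
      Height.mulHeight Q.rep = Ht (LF K P) (μ • Q.rep) ∧
      (∀ s, nrm (LF K P s) (μ • Q.rep) ≤ C₀ * Ht (LF K P) (μ • Q.rep)) ∧
      ∀ i, ∃ D ∈ 𝒟, ∃ w : K, Z.U w ∧ eval (μ • Q.rep) (F i) = D * w ^ d i :=
    fun Q hQ => hscal Q.rep Q.rep_nonzero (hT Q hQ)
  choose! μ hμ0 hμO hμH hμb hμD using hμ
  set ν : ℙ K (Fin (N + 1) → K) → K := fun Q => if Q ∈ T then μ Q else 1 with hν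
  have hν0 : ∀ Q, ν Q ≠ 0 := by
    intro Q
    simp only [hν]
    split_ifs with h
    · exact hμ0 Q h
    · exact one_ne_zero
  have hνT : ∀ Q ∈ T, ν Q = μ Q := fun Q hQ => by simp only [hν]; rw [if_pos hQ]
  have hev0 : ∀ Q ∈ T, ∀ f ∈ J₀, eval (μ Q • Q.rep) f = 0 := by
    intro Q hQ f hf
    obtain ⟨e, he⟩ := hJ₀ f hf
    rw [CD_eval Q.rep f e he, hTX Q hQ f hf, mul_zero]
  set A : Set (ℙ K (Fin (N + 1) → K)) :=
    {Q | Q ∈ T ∧ cornerProdN S F d Q.rep ≤ C * Height.mulHeight Q.rep ^ (-θ)} with hAdef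
  have hA : ∀ Q ∈ A, Q ∈ T := fun Q hQ => hQ.1
  apply smallPN_of_small ν hν0
  refine smallN' (Nat.one_le_iff_ne_zero.2 (NeZero.ne n)) Z (Ω := Ω) J₀ hJ₀ F d hd hF hempty hred _
    ?_ ?_ ?_ 𝒟 (fun D hD => (h𝒟 D hD).ne) ?_ C₀ ?_ θ hθ ?_
  · rintro _ ⟨Q, hQ, rfl⟩
    beta_reduce
    rw [hνT Q (hA Q hQ)]
    exact hμO Q (hA Q hQ)
  · rintro _ ⟨Q, hQ, rfl⟩
    exact smul_ne_zero (hν0 Q) Q.rep_nonzero
  · rintro _ ⟨Q, hQ, rfl⟩
    beta_reduce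
    rw [hνT Q (hA Q hQ)]
    exact hev0 Q (hA Q hQ)
  · rintro _ ⟨Q, hQ, rfl⟩
    beta_reduce
    rw [hνT Q (hA Q hQ)]
    exact hμD Q (hA Q hQ)
  · rintro _ ⟨Q, hQ, rfl⟩
    beta_reduce
    rw [hνT Q (hA Q hQ)]
    exact hμb Q (hA Q hQ)
  · intro D C₁ hD hC₁
    obtain ⟨C', hC', hle⟩ := gap_leN P S hSP F d hd D hD C₁ hC₁
    refine ⟨C' * C, ?_⟩
    rintro _ ⟨Q, hQ, rfl⟩ w hw hev a ha hup
    beta_reduce at hev ha hup ⊢
    rw [hνT Q (hA Q hQ)] at hev ha hup ⊢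
    refine (hle _ w (smul_ne_zero (hμ0 Q (hA Q hQ)) Q.rep_nonzero) (fun i => (hw i).ne) hev a ha
      hup).trans ?_
    have h1 := cornerProdN_smul S F d hF Q.rep (μ Q) (hμ0 Q (hA Q hQ))
    have h2 := hQ.2
    rw [← h1, hμH Q (hA Q hQ)] at h2
    calc C' * cornerProdN S F d (μ Q • Q.rep) ≤ C' * (C * Ht (LF K P) (μ Q • Q.rep) ^ (-θ)) :=
          mul_le_mul_of_nonneg_left h2 hC'
      _ = _ := by ring

end number_field

end Pool.Agent.Helper38.TN
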