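import Pool.Agent.Helper38.TN.RungeH
import Pool.Agent.Helper38.TN.ScalN
import Pool.Agent.Helper38.TN.GapH
import Pool.Agent.Helper38.TN.MainH

/-!
# Integral points near corners: final assembly
-/

set_option autoImplicit false
set_option linter.unusedSectionVars false

namespace Pool.Agent.Helper38.TN

open Pool.Agent.Helper38.TP Pool.Agent.Helper85.Sub Pool.Agent.Helper85.RC Pool.Agent.Helper10.Sub
open Pool.Agent.Helper10 NumberField MvPolynomial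
open scoped LinearAlgebra.Projectivization

variable {K : Type} [Field K] [NumberField K] {N n : ℕ}

/-- The product of the distances to the corners. -/
noncomputable def cpC (𝒞 : Set (Finset (Fin (n + 1)))) (S : Finset (FinitePlace K))
    (F : Fin (n + 1) → MvPolynomial (Fin (N + 1)) K) (d : Fin (n + 1) → ℕ)
    (x : Fin (N + 1) → K) : ℝ :=
  (∏ w : InfinitePlace K, cdC 𝒞 w F d x ^ w.mult) * ∏ v ∈ S, cdC 𝒞 v F d x

lemma cpC_smul (𝒞 : Set (Finset (Fin (n + 1)))) (S : Finset (FinitePlace K))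
    (F : Fin (n + 1) → MvPolynomial (Fin (N + 1)) K) (d : Fin (n + 1) → ℕ)
    (hF : ∀ i, (F i).IsHomogeneous (d i)) (x : Fin (N + 1) → K) (μ : K) (hμ : μ ≠ 0) :
    cpC 𝒞 S F d (μ • x) = cpC 𝒞 S F d x := by
  unfold cpC
  congr 1
  · refine Finset.prod_congr rfl fun w _ => ?_
    rw [cdC_smul 𝒞 w F d x (fun y => apply_nonneg w y) (fun y z => map_mul w y z) (map_one w) hF μ
      (by simpa using hμ)]
  · refine Finset.prod_congr rfl fun v _ => ?_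
    rw [cdC_smul 𝒞 v F d x (fun y => apply_nonneg v y) (fun y z => map_mul v y z) (map_one v) hF μ
      (by simpa using hμ)]

/-- The number of indices `i ∈ G` with small `prox`, at most `k` at every place. -/
noncomputable def ncnt (S : Finset (FinitePlace K))
    (F : Fin (n + 1) → MvPolynomial (Fin (N + 1)) K) (d : Fin (n + 1) → ℕ)
    (G : Finset (Fin (n + 1))) (k : ℕ) (c₀ : ℝ) (x : Fin (N + 1) → K) : ℕ :=
  (∑ w : InfinitePlace K, min k (G.filter fun i => prox w (F i) (d i) x < c₀).card) +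
    ∑ v ∈ S, min k (G.filter fun i => prox v (F i) (d i) x < c₀).card

lemma ncnt_smul (S : Finset (FinitePlace K))
    (F : Fin (n + 1) → MvPolynomial (Fin (N + 1)) K) (d : Fin (n + 1) → ℕ)
    (hF : ∀ i, (F i).IsHomogeneous (d i)) (G : Finset (Fin (n + 1))) (k : ℕ) (c₀ : ℝ)
    (x : Fin (N + 1) → K) (μ : K) (hμ : μ ≠ 0) :
    ncnt S F d G k c₀ (μ • x) = ncnt S F d G k c₀ x := by
  have h1 : ∀ (w : InfinitePlace K) (i : Fin (n + 1)),
      prox w (F i) (d i) (μ • x) = prox w (F i) (d i) x := fun w i =>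
    prox_smul w x (fun y => apply_nonneg w y) (fun y z => map_mul w y z) (map_one w) _ _ (hF i) μ
      (by simpa using hμ)
  have h2 : ∀ (v : FinitePlace K) (i : Fin (n + 1)),
      prox v (F i) (d i) (μ • x) = prox v (F i) (d i) x := fun v i =>
    prox_smul v x (fun y => apply_nonneg v y) (fun y z => map_mul v y z) (map_one v) _ _ (hF i) μ
      (by simpa using hμ)
  unfold ncnt
  simp only [h1, h2]

omit [NumberField K] in
lemma scale_lowN {v : K → ℝ} (hv : ∀ y, 0 ≤ v y) (hm : ∀ y z, v (y * z) = v y * v z)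
    (h1 : v 1 = 1) (f : MvPolynomial (Fin (N + 1)) K) (e : ℕ) (hf : f.IsHomogeneous e)
    (x : Fin (N + 1) → K) (μ : K) (c : ℝ) (h : c * (⨆ j, v (x j)) ^ e ≤ v (eval x f)) :
    c * (⨆ j, v ((μ • x) j)) ^ e ≤ v (eval (μ • x) f) := by
  have h2 : (⨆ k, v ((μ • x) k)) = v μ * ⨆ k, v (x k) := by
    rw [Real.mul_iSup_of_nonneg (hv μ)]
    exact iSup_congr fun k => by rw [Pi.smul_apply, smul_eq_mul, hm]
  rw [h2, CD_eval x f e hf μ, hm, CD_pow v hm h1 μ e, mul_pow]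
  calc c * (v μ ^ e * (⨆ j, v (x j)) ^ e) = v μ ^ e * (c * (⨆ j, v (x j)) ^ e) := by ring
    _ ≤ _ := mul_le_mul_of_nonneg_left h (pow_nonneg (hv μ) _)

/-- **Pigeonhole**: points near few components are near the corners. -/
theorem runge_main (S : Finset (FinitePlace K))
    (J₀ : Set (MvPolynomial (Fin (N + 1)) K)) (hJ₀ : ∀ f ∈ J₀, ∃ e, f.IsHomogeneous e)
    (F : Fin (n + 1) → MvPolynomial (Fin (N + 1)) K) (d : Fin (n + 1) → ℕ) (hd : ∀ i, 1 ≤ d i)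
    (hF : ∀ i, (F i).IsHomogeneous (d i)) (G : Finset (Fin (n + 1))) (k : ℕ)
    (𝒞 : Set (Finset (Fin (n + 1))))
    (h𝒞 : ∀ I : Finset (Fin (n + 1)), I ⊆ G → I.card = k + 1 → I ∈ 𝒞)
    (T : Set (ℙ K (Fin (N + 1) → K)))
    (hT : LV.IntegralSet S F d T) (c₀ : ℝ) (hc₀ : 0 < c₀) :
    ∃ C' : ℝ, ∀ Q ∈ T, ncnt S F d G k c₀ Q.rep < G.card →
      cpC 𝒞 S F d Q.rep ≤ C' * Height.mulHeight Q.rep ^ (-1 : ℝ) := by
  classical
  obtain ⟨c, hc, hcf, hT⟩ := hT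
  obtain ⟨P, Z, C₀, 𝒟, hZ, hSP, hC₀, h𝒟, hscal⟩ := scalN K S F d hd hF c hc hcf
  obtain ⟨C', hC', htwo⟩ := runge_gapH P Z S hSP F d hd G k 𝒞 h𝒞 c hc c₀ hc₀
  refine ⟨C', ?_⟩
  intro Q hQ hn
  obtain ⟨μ, hμ0, hμO, hμH, hμb, hμD⟩ := hscal Q.rep Q.rep_nonzero (hT Q hQ)
  rw [← cpC_smul 𝒞 S F d hF Q.rep μ hμ0, hμH, Real.rpow_neg_one]
  rw [← ncnt_smul S F d hF G k c₀ Q.rep μ hμ0] at hn
  have h1 := htwo (μ • Q.rep) (smul_ne_zero hμ0 Q.rep_nonzero)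
    (one_le_Ht Z hμO (smul_ne_zero hμ0 Q.rep_nonzero))
    (fun i _ => by
      obtain ⟨D, hD, w, hw, h⟩ := hμD i
      rw [h]
      exact (h𝒟 D hD).mul (hw.pow _))
    (fun v hv i _ => scale_lowN (fun y => apply_nonneg v y) (fun y z => map_mul v y z)
      (map_one v) (F i) (d i) (hF i) Q.rep μ (c v) ((hT Q hQ i).2 v hv)) hn
  rw [div_eq_mul_inv] at h1
  exact h1

/-- **Main theorem.** -/
theorem mainP (S : Finset (FinitePlace K))
    (J₀ : Set (MvPolynomial (Fin (N + 1)) K)) (hJ₀ : ∀ f ∈ J₀, ∃ e, f.IsHomogeneous e)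
    (F : Fin (n + 1) → MvPolynomial (Fin (N + 1)) K) (d : Fin (n + 1) → ℕ) (hd : ∀ i, 1 ≤ d i)
    (hF : ∀ i, (F i).IsHomogeneous (d i)) {Ω : Type} [Field Ω] [IsAlgClosed Ω] [Algebra K Ω]
    (hempty : ∀ A : Fin (N + 1) → Ω, OnV J₀ A → (∀ i, aeval A (F i) = 0) → A = 0)
    (T : Set (ℙ K (Fin (N + 1) → K))) (hTX : ∀ Q ∈ T, ∀ f ∈ J₀, eval Q.rep f = 0)
    (hT : LV.IntegralSet S F d T) :
    (∀ ε C : ℝ, 0 < ε → SmallPN J₀ F d {Q | Q ∈ T ∧
      cpC {I | IsCorner Ω J₀ F I} S F d Q.rep ≤ C * Height.mulHeight Q.rep ^ (-ε)}) ∧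
    ∀ (G : Finset (Fin (n + 1))) (k : ℕ) (c₀ : ℝ), 0 < c₀ →
      (∀ I : Finset (Fin (n + 1)), I ⊆ G → I.card = k + 1 → IsCorner Ω J₀ F I) →
      SmallPN J₀ F d {Q | Q ∈ T ∧ ncnt S F d G k c₀ Q.rep < G.card} := by
  have key : ∀ ε C : ℝ, 0 < ε → SmallPN J₀ F d {Q | Q ∈ T ∧
      cpC {I | IsCorner Ω J₀ F I} S F d Q.rep ≤ C * Height.mulHeight Q.rep ^ (-ε)} := by
    intro ε C hε
    refine mainOf S J₀ hJ₀ F d hd hF (Ω := Ω) hempty T hTX hT ε C hε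
      (cpC {I | IsCorner Ω J₀ F I} S F d) (fun x μ hμ => cpC_smul _ S F d hF x μ hμ) ?_
    intro P hP D C₁ hD hC₁
    obtain ⟨C₁', C₂, hC₂, h⟩ := gap_leH P S hP (Ω := Ω) J₀ hJ₀ F d hd hF hempty D hD
      {I | IsCorner Ω J₀ F I} (fun I hI => hI)
    exact ⟨C₁', C₂, hC₂, fun x w hx hxJ _ hev _ _ => h x w hx hxJ hev⟩
  refine ⟨key, fun G k c₀ hc₀ hG => ?_⟩
  obtain ⟨C', h⟩ := runge_main S J₀ hJ₀ F d hd hF G k {I | IsCorner Ω J₀ F I} hG T hT c₀ hc₀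
  obtain ⟨A, 𝒯, h1, h2, h3, h4⟩ := key 1 C' one_pos
  exact ⟨A, 𝒯, h1, h2, h3, fun Q hQ => h4 Q ⟨hQ.1, h Q hQ.1 hQ.2⟩⟩

end Pool.Agent.Helper38.TN
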