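import Pool.Agent.Helper38.TN.RelN

/-!
# Integral points near the corners: no large sets
-/

set_option autoImplicit false
set_option linter.unusedSectionVars false

namespace Pool.Agent.Helper38.TN

open Pool.Agent.Helper10.Sub Pool.Agent.Helper38.TP MvPolynomial

variable {K : Type} [Field K] [CharZero K] {Λ : Type} [Fintype Λ] [DecidableEq Λ] {L : Λ → Type}
  [∀ s, NontriviallyNormedField (L s)] [∀ s, ProperSpace (L s)] [∀ s, Algebra K (L s)] {N n : ℕ}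
  {Z : MP K L} {J₀ : Set (MvPolynomial (Fin (N + 1)) K)}
    {F : Fin (n + 1) → MvPolynomial (Fin (N + 1)) K} {d : Fin (n + 1) → ℕ} {D : Fin (n + 1) → K}
    {w : (Fin (N + 1) → K) → Fin (n + 1) → K} {C₁ ε C₂ : ℝ} {E : Set (Fin (N + 1) → K)}

/-- The height is bounded on sets where the units are proportional. -/
lemma ht_prop (E : Set (Fin (N + 1) → K)) (hU : ∀ x ∈ E, ∀ i, Z.U (w x i))
    (hlow : ∀ x ∈ E, ∀ s, ∃ i, nrm (L s) x ≤ C₁ * ‖algebraMap K (L s) (w x i)‖) (hC₁ : 1 ≤ C₁)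
    (κ : Fin (n + 1) → K) (hκ : ∀ x ∈ E, ∀ i, w x i = κ i * w x 0) :
    ∃ B : ℝ, ∀ x ∈ E, Ht L x ≤ B := by
  set C : ℝ := C₁ * (∑ s, ∑ i, ‖algebraMap K (L s) (κ i)‖) with hC
  refine ⟨C ^ Fintype.card Λ, fun x hx => ?_⟩
  have hle : ∀ s i, ‖algebraMap K (L s) (κ i)‖ ≤ ∑ s, ∑ i, ‖algebraMap K (L s) (κ i)‖ := by
    intro s i
    have h1 : ‖algebraMap K (L s) (κ i)‖ ≤ ∑ i, ‖algebraMap K (L s) (κ i)‖ :=
      Finset.single_le_sum (f := fun i => ‖algebraMap K (L s) (κ i)‖)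
        (fun _ _ => norm_nonneg _) (Finset.mem_univ i)
    exact h1.trans (Finset.single_le_sum (f := fun s => ∑ i, ‖algebraMap K (L s) (κ i)‖)
        (fun _ _ => Finset.sum_nonneg fun _ _ => norm_nonneg _) (Finset.mem_univ s))
  calc Ht L x = ∏ s, nrm (L s) x := rfl
    _ ≤ ∏ s, (C * ‖algebraMap K (L s) (w x 0)‖) := by
        refine Finset.prod_le_prod (fun s _ => nrm_nonneg _) fun s _ => ?_
        obtain ⟨i, hi⟩ := hlow x hx s
        refine hi.trans ?_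
        rw [hκ x hx i, map_mul, norm_mul, ← mul_assoc]
        apply mul_le_mul_of_nonneg_right _ (norm_nonneg _)
        exact mul_le_mul_of_nonneg_left (hle s i) (by linarith)
    _ = C ^ Fintype.card Λ := by
        rw [Finset.prod_mul_distrib, (hU x hx 0).pf, mul_one, Finset.prod_const, Finset.card_univ]

theorem coreN (hn : 1 ≤ n) (h : Pts Z (bigN J₀ F d) J₀ F d D w C₁ ε C₂ E)
    {Ω : Type} [Field Ω] [IsAlgClosed Ω] [Algebra K Ω]
    (hΩ : ∀ A : Fin (N + 1) → Ω, OnV J₀ A → (∀ i, aeval A (F i) = 0) → A = 0) : False := by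
  classical
  refine core_of Z J₀ h.hJ₀ F d h.hd h.hF D h.hD hΩ E h.big w h.unit h.ev h.onV ?_ ?_
  · intro κ hκ
    have h' := h.mono (fun x hx => hx.1) hκ
    obtain ⟨B, hB⟩ := ht_prop (Z := Z) _ h'.unit h'.low h.hC₁ κ (fun x hx i => hx.2 i)
    obtain ⟨x, hx, hxB⟩ := (bigN J₀ F d).nonempty (h'.large (B + 1))
    linarith [hB x hx]
  · intro r t κ c E' hE' hB' hp k
    refine relN Z _ w t κ c ε h.hε E' hB' (fun x hx => h.unit x (hE' hx)) hp k ?_
    intro M S₀ A B _ _ _ _ _ _ C χ χ' h1 h2 h3 h4 h5 h6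
    exact relG (h.mono hE' hB') (by omega) C χ χ' h1 h2 h3 h4 h5 h6 k

end Pool.Agent.Helper38.TN
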