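import Pool.Agent.Helper38.TN.Defs

/-!
# Counting exponents

Plan. Write `A q = AM c q`.
1. `q • c a + A q ⊆ A (2 * q)` and `mu c (2 * q) a (q • c a + α) ≥ q` for `α ∈ A q` (take
   `m' = m + q • Pi.single a 1`), so `∑ α ∈ A (2q), mu c (2q) a α ≥ q * #(A q)`.
2. `1 ≤ #(A q) ≤ (q + 1) ^ (n + 1)` (image of `piAntidiag`, contained in functions with values
   in `{0, …, q}`; `Finset.card_image_le`, `Fintype.piFinset`).
3. There are arbitrarily large `q` with `#(A (2 * q)) ≤ 2 ^ (n + 2) * #(A q)`: otherwise, for all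
   `j ≥ j₀`, `#(A (2 ^ (j + 1))) > 2 ^ (n + 2) * #(A (2 ^ j))`, so
   `#(A (2 ^ (j₀ + i))) ≥ 2 ^ ((n + 2) * i)`, but it is at most
   `(2 ^ (j₀ + i) + 1) ^ (n + 1) ≤ 2 ^ ((j₀ + i + 1) * (n + 1))`, a contradiction for large `i`.
4. Take such a `q ≥ 1` with `q * ε > 2 ^ (n + 2)`, and `M = 2 * q`.
-/

set_option autoImplicit false

namespace Pool.Agent.Helper38.TN

theorem cnt_sum {n r : ℕ} (c : Fin (n + 1) → Fin r → ℤ) (q : ℕ) (a : Fin (n + 1)) :
    q * (AM c q).card ≤ ∑ α ∈ AM c (2 * q), mu c (2 * q) a α := by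
  classical
  have key : ∀ α ∈ AM c q, α + q • c a ∈ AM c (2 * q) ∧ q ≤ mu c (2 * q) a (α + q • c a) := by
    intro α hα
    obtain ⟨m, hm, hmα⟩ := mem_AM.1 hα
    obtain ⟨m', hm'⟩ : ∃ m' : Fin (n + 1) → ℕ, m' = m + q • Pi.single a 1 := ⟨_, rfl⟩
    have h1 : ∑ i, m' i = 2 * q := by
      rw [hm']
      simp only [Pi.add_apply, Pi.smul_apply, smul_eq_mul]
      rw [Finset.sum_add_distrib, hm, ← Finset.mul_sum, Finset.sum_pi_single' a (1 : ℕ),
        if_pos (Finset.mem_univ a)]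
      ring
    have h2 : cc c m' = α + q • c a := by
      rw [hm', ← hmα]
      unfold cc
      have h3 : ∀ i, (m + q • (Pi.single a 1 : Fin (n + 1) → ℕ)) i • c i =
          m i • c i + (if i = a then q • c a else 0) := by
        intro i
        rw [Pi.add_apply, add_smul, Pi.smul_apply, smul_eq_mul]
        by_cases hi : i = a
        · subst hi
          rw [Pi.single_eq_same, mul_one, if_pos rfl]
        · rw [Pi.single_eq_of_ne hi, mul_zero, zero_smul, if_neg hi]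
      rw [Finset.sum_congr rfl fun i _ => h3 i, Finset.sum_add_distrib,
        Finset.sum_ite_eq' Finset.univ a, if_pos (Finset.mem_univ a)]
    have h3 : m' a = m a + q := by
      rw [hm', Pi.add_apply, Pi.smul_apply, Pi.single_eq_same, smul_eq_mul, mul_one]
    exact ⟨mem_AM.2 ⟨m', h1, h2⟩, by
      have h4 := le_mu (c := c) a h1 h2
      omega⟩
  calc q * (AM c q).card = ∑ _α ∈ AM c q, q := by
        rw [Finset.sum_const, smul_eq_mul, mul_comm]
    _ ≤ ∑ α ∈ AM c q, mu c (2 * q) a (α + q • c a) :=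
        Finset.sum_le_sum fun α hα => (key α hα).2
    _ = ∑ β ∈ (AM c q).image fun α => α + q • c a, mu c (2 * q) a β := by
        rw [Finset.sum_image fun α _ β _ h => add_right_cancel h]
    _ ≤ ∑ α ∈ AM c (2 * q), mu c (2 * q) a α := by
        refine Finset.sum_le_sum_of_subset fun β hβ => ?_
        obtain ⟨α, hα, rfl⟩ := Finset.mem_image.1 hβ
        exact (key α hα).1

theorem cnt_card {n r : ℕ} (c : Fin (n + 1) → Fin r → ℤ) (q : ℕ) :
    (AM c q).card ≤ (q + 1) ^ (n + 1) := by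
  classical
  have h1 : (Finset.univ.piAntidiag q : Finset (Fin (n + 1) → ℕ)) ⊆
      Fintype.piFinset fun _ => Finset.range (q + 1) := by
    intro m hm
    rw [Finset.mem_piAntidiag] at hm
    rw [Fintype.mem_piFinset]
    intro i
    rw [Finset.mem_range, Nat.lt_succ_iff, ← hm.1]
    exact Finset.single_le_sum (f := m) (fun i _ => Nat.zero_le _) (Finset.mem_univ i)
  calc (AM c q).card ≤ (Finset.univ.piAntidiag q : Finset (Fin (n + 1) → ℕ)).card :=
        Finset.card_image_le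
    _ ≤ (Fintype.piFinset fun _ : Fin (n + 1) => Finset.range (q + 1)).card :=
        Finset.card_le_card h1
    _ = (q + 1) ^ (n + 1) := by
        rw [Fintype.card_piFinset, Finset.prod_const, Finset.card_range, Finset.card_univ,
          Fintype.card_fin]

theorem cnt_pos {n r : ℕ} (c : Fin (n + 1) → Fin r → ℤ) (q : ℕ) : 0 < (AM c q).card := by
  classical
  refine Finset.card_pos.2 ⟨cc c (Pi.single 0 q), mem_AM.2 ⟨Pi.single 0 q, ?_, rfl⟩⟩
  rw [Finset.sum_pi_single' (0 : Fin (n + 1)) q, if_pos (Finset.mem_univ _)]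

theorem cnt_pig {n r : ℕ} (c : Fin (n + 1) → Fin r → ℤ) (j₀ : ℕ) :
    ∃ j, j₀ ≤ j ∧ (AM c (2 * 2 ^ j)).card ≤ 2 ^ (n + 2) * (AM c (2 ^ j)).card := by
  by_contra hcon
  push Not at hcon
  have h1 : ∀ i, 2 ^ ((n + 2) * i) ≤ (AM c (2 ^ (j₀ + i))).card := by
    intro i
    induction i with
    | zero =>
      rw [mul_zero, pow_zero]
      exact cnt_pos c _
    | succ i ih =>
      have h2 := hcon (j₀ + i) (Nat.le_add_right _ _)
      have h3 : 2 * 2 ^ (j₀ + i) = 2 ^ (j₀ + (i + 1)) := by ring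
      rw [h3] at h2
      have h4 : 2 ^ ((n + 2) * (i + 1)) = 2 ^ (n + 2) * 2 ^ ((n + 2) * i) := by ring
      rw [h4]
      exact (Nat.mul_le_mul_left _ ih).trans h2.le
  obtain ⟨i, hi⟩ : ∃ i, i = (j₀ + 1) * (n + 1) + 1 := ⟨_, rfl⟩
  have h5 : (2 : ℕ) ^ ((n + 2) * i) ≤ 2 ^ ((j₀ + i + 1) * (n + 1)) := by
    refine (h1 i).trans ((cnt_card c _).trans ?_)
    rw [pow_mul]
    refine Nat.pow_le_pow_left ?_ _
    have h6 : 1 ≤ 2 ^ (j₀ + i) := Nat.one_le_two_pow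
    have h7 : 2 ^ (j₀ + i + 1) = 2 ^ (j₀ + i) + 2 ^ (j₀ + i) := by ring
    omega
  have h8 := (Nat.pow_le_pow_iff_right (by norm_num : 1 < 2)).1 h5
  have h9 : (n + 2) * i = (n + 1) * i + i := by ring
  have h10 : (j₀ + i + 1) * (n + 1) = (n + 1) * i + (j₀ + 1) * (n + 1) := by ring
  omega

theorem count {n r : ℕ} (c : Fin (n + 1) → Fin r → ℤ) (ε : ℝ) (hε : 0 < ε) :
    ∃ M : ℕ, 1 ≤ M ∧ ∀ a : Fin (n + 1),
      ((AM c M).card : ℝ) < ε * ∑ α ∈ AM c M, (mu c M a α : ℝ) := by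
  obtain ⟨j₀, hj₀⟩ := pow_unbounded_of_one_lt (2 ^ (n + 2) / ε) (by norm_num : (1 : ℝ) < 2)
  rw [div_lt_iff₀ hε] at hj₀
  obtain ⟨j, hj, hcard⟩ := cnt_pig c j₀
  refine ⟨2 * 2 ^ j, by
    have : 1 ≤ 2 ^ j := Nat.one_le_two_pow
    omega, fun a => ?_⟩
  have h1 : ((AM c (2 * 2 ^ j)).card : ℝ) ≤ 2 ^ (n + 2) * ((AM c (2 ^ j)).card : ℝ) := by
    exact_mod_cast hcard
  have h2 : (2 : ℝ) ^ j * ((AM c (2 ^ j)).card : ℝ) ≤
      ∑ α ∈ AM c (2 * 2 ^ j), (mu c (2 * 2 ^ j) a α : ℝ) := by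
    exact_mod_cast cnt_sum c (2 ^ j) a
  have h3 : (0 : ℝ) < ((AM c (2 ^ j)).card : ℝ) := by exact_mod_cast cnt_pos c _
  have h4 : (2 : ℝ) ^ (n + 2) < 2 ^ j * ε := by
    refine hj₀.trans_le ?_
    exact mul_le_mul_of_nonneg_right (pow_le_pow_right₀ (by norm_num) hj) hε.le
  calc ((AM c (2 * 2 ^ j)).card : ℝ) ≤ 2 ^ (n + 2) * ((AM c (2 ^ j)).card : ℝ) := h1
    _ < 2 ^ j * ε * ((AM c (2 ^ j)).card : ℝ) := mul_lt_mul_of_pos_right h4 h3
    _ = ε * (2 ^ j * ((AM c (2 ^ j)).card : ℝ)) := by ring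
    _ ≤ _ := mul_le_mul_of_nonneg_left h2 hε.le

end Pool.Agent.Helper38.TN
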