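import Pool.Agent.Helper38.TN.CoreOf
import Pool.Agent.Helper38.TN.Cnt
import Pool.Agent.Helper38.TP.RelG3

/-!
# Linear relations from the Subspace theorem, with the classes of monomials
-/

set_option autoImplicit false
set_option linter.unusedSectionVars false

namespace Pool.Agent.Helper38.TN

open Pool.Agent.Helper10.Sub Pool.Agent.Helper38.TP MvPolynomial

variable {K : Type} [Field K] {Λ : Type} [Fintype Λ] [DecidableEq Λ] {L : Λ → Type}
  [∀ s, NontriviallyNormedField (L s)] [∀ s, Algebra K (L s)] {N n r : ℕ}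

/-- The application of the Subspace theorem. -/
def Engine (Z : MP K L) (𝔅 : LN (Fin (N + 1) → K)) (w : (Fin (N + 1) → K) → Fin (n + 1) → K)
    (ε : ℝ) (E : Set (Fin (N + 1) → K)) (k : Fin (N + 1)) : Prop :=
  ∀ (M S₀ : ℕ) (A B : Type) [Fintype A] [DecidableEq A] [Nonempty A] [Fintype B] [DecidableEq B]
    [Nonempty B] (c : Cls K (n + 1) M A B) (χ : (Fin (N + 1) → K) → A → K)
    (χ' : (Fin (N + 1) → K) → B → K), (∀ x ∈ E, c.Val (w x) (χ x) (χ' x)) →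
    (∀ x ∈ E, ∀ α, Z.U (χ x α)) → (∀ x ∈ E, ∀ β, Z.U (χ' x β)) →
    (∀ β, ∃ m : Fin (n + 1) →₀ ℕ, ∑ i, m i = M + 1 ∧ c.cl m = β) →
    (∀ a, S₀ ≤ ∑ α, c.rep a α a) → 2 * (Fintype.card A : ℝ) ≤ ε * S₀ →
    ∃ E' ⊆ E, 𝔅.Big E' ∧ ∃ g : A ⊕ B → K, g ≠ 0 ∧ ∀ x ∈ E',
      x k * ∑ α, g (Sum.inl α) * χ x α + ∑ β, g (Sum.inr β) * χ' x β = 0

section mono
variable {c : Fin (n + 1) → Fin r → ℤ} {w : Fin (n + 1) → K} {t : Fin r → K}
  {κ : Fin (n + 1) → K}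

omit [DecidableEq Λ] in
/-- Monomials in the units. -/
lemma mon_cc (ht : ∀ j, t j ≠ 0) (hrel : ∀ i, w i = κ i * (w 0 * mono t (c i)))
    (m : Fin (n + 1) →₀ ℕ) :
    mon w m = (∏ i, κ i ^ m i) * (w 0 ^ (∑ i, m i) * mono t (cc c fun i => m i)) := by
  unfold mon cc
  rw [mono_sum _ ht, ← Finset.prod_pow_eq_pow_sum, ← Finset.prod_mul_distrib,
    ← Finset.prod_mul_distrib]
  refine Finset.prod_congr rfl fun i _ => ?_
  rw [mono_nsmul, ← mul_pow, ← mul_pow, ← hrel i]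

end mono

/-- The classes of the monomials. -/
noncomputable def clsN (c : Fin (n + 1) → Fin r → ℤ) (κ : Fin (n + 1) → K) (M : ℕ)
    (β₀ : {β // β ∈ AM c (M + 1)}) :
    Cls K (n + 1) M {α // α ∈ AM c M} {β // β ∈ AM c (M + 1)} where
  rep a α := Finsupp.equivFunOnFinite.symm (exists_mu a α.2).choose
  rep_sum a α := (exists_mu a α.2).choose_spec.1
  κ a α := ∏ i, κ i ^ (exists_mu a α.2).choose i
  cl m := if h : cc c (fun i => m i) ∈ AM c (M + 1) then ⟨_, h⟩ else β₀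
  κ' m := ∏ i, κ i ^ m i

theorem relN (Z : MP K L) (𝔅 : LN (Fin (N + 1) → K))
    (w : (Fin (N + 1) → K) → Fin (n + 1) → K) (t : (Fin (N + 1) → K) → Fin r → K)
    (κ : Fin (n + 1) → K) (c : Fin (n + 1) → Fin r → ℤ) (ε : ℝ) (hε : 0 < ε)
    (E : Set (Fin (N + 1) → K)) (hE : 𝔅.Big E) (hw : ∀ x ∈ E, ∀ i, Z.U (w x i))
    (hp : Par Z 𝔅 w t κ c E) (k : Fin (N + 1)) (hG : Engine Z 𝔅 w ε E k) :
    HasRel 𝔅 w t k E := by
  classical
  obtain ⟨M, hM, hcount⟩ := count c (ε / 2) (by positivity)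
  obtain ⟨x₀, hx₀⟩ := 𝔅.nonempty hE
  have hκ0 : ∀ i, κ i ≠ 0 := by
    intro i h0
    have h1 := hp.rel x₀ hx₀ i
    rw [h0, zero_mul] at h1
    exact (hw x₀ hx₀ i).ne h1
  have ht0 : ∀ x ∈ E, ∀ j, t x j ≠ 0 := fun x hx j => (hp.tU x hx j).ne
  obtain ⟨α₀, hα₀⟩ : (AM c M).Nonempty := Finset.card_pos.1 (cnt_pos c M)
  obtain ⟨β₀, hβ₀⟩ : (AM c (M + 1)).Nonempty := Finset.card_pos.1 (cnt_pos c (M + 1))
  haveI : Nonempty {α // α ∈ AM c M} := ⟨⟨α₀, hα₀⟩⟩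
  haveI : Nonempty {β // β ∈ AM c (M + 1)} := ⟨⟨β₀, hβ₀⟩⟩
  set C := clsN c κ M ⟨β₀, hβ₀⟩ with hC
  have hrep : ∀ a (α : {α // α ∈ AM c M}), cc c (fun i => C.rep a α i) = α.1 := fun a α =>
    (exists_mu a α.2).choose_spec.2.1
  have hrepmu : ∀ a (α : {α // α ∈ AM c M}), C.rep a α a = mu c M a α.1 := fun a α =>
    (exists_mu a α.2).choose_spec.2.2
  have hcl : ∀ (m : Fin (n + 1) →₀ ℕ) (h : cc c (fun i => m i) ∈ AM c (M + 1)),
      C.cl m = ⟨_, h⟩ := fun m h => dif_pos h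
  set χ : (Fin (N + 1) → K) → {α // α ∈ AM c M} → K := fun x α =>
    w x 0 ^ M * mono (t x) α.1 with hχ
  set χ' : (Fin (N + 1) → K) → {β // β ∈ AM c (M + 1)} → K := fun x β =>
    w x 0 ^ (M + 1) * mono (t x) β.1 with hχ'
  have hval : ∀ x ∈ E, C.Val (w x) (χ x) (χ' x) := by
    intro x hx
    refine ⟨fun a α => ?_, fun a α => ?_, fun m hm => ?_⟩
    · change (∏ i, κ i ^ (exists_mu a α.2).choose i) ≠ 0
      exact Finset.prod_ne_zero_iff.2 fun i _ => pow_ne_zero _ (hκ0 i)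
    · rw [mon_cc (ht0 x hx) (hp.rel x hx) (C.rep a α), C.rep_sum, hrep]
      rfl
    · have h1 : cc c (fun i => m i) ∈ AM c (M + 1) := mem_AM.2 ⟨_, hm, rfl⟩
      rw [mon_cc (ht0 x hx) (hp.rel x hx) m, hm, hcl m h1]
      rfl
  obtain ⟨a₀, -, ha₀⟩ := Finset.exists_min_image (Finset.univ : Finset (Fin (n + 1)))
    (fun a => ∑ α, C.rep a α a) ⟨0, Finset.mem_univ _⟩
  have hS₀ : 2 * (Fintype.card {α // α ∈ AM c M} : ℝ) ≤
      ε * (∑ α, C.rep a₀ α a₀ : ℕ) := by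
    have h1 := hcount a₀
    have h2 : (∑ α, C.rep a₀ α a₀ : ℕ) = ∑ α ∈ AM c M, mu c M a₀ α := by
      simp only [hrepmu]
      exact Finset.sum_coe_sort (AM c M) (fun α => mu c M a₀ α)
    rw [h2, Fintype.card_coe]
    push_cast
    linarith
  obtain ⟨E', hE', hB', g, hg, hrel⟩ := hG M (∑ α, C.rep a₀ α a₀)
    {α // α ∈ AM c M} {β // β ∈ AM c (M + 1)} C χ χ' hval
    (fun x hx α => ((hw x hx 0).pow M).mul (U_mono (hp.tU x hx) α.1))
    (fun x hx β => ((hw x hx 0).pow (M + 1)).mul (U_mono (hp.tU x hx) β.1)) (by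
      intro β
      obtain ⟨m, hm, hmβ⟩ := mem_AM.1 β.2
      refine ⟨Finsupp.equivFunOnFinite.symm m, hm, ?_⟩
      have h1 : cc c (fun i => (Finsupp.equivFunOnFinite.symm m : Fin (n + 1) →₀ ℕ) i) = β.1 :=
        hmβ
      rw [hcl _ (h1 ▸ β.2)]
      exact Subtype.ext h1) (fun a => ha₀ a (Finset.mem_univ a)) hS₀
  set A : (Fin r → ℤ) → K := fun α => if h : α ∈ AM c M then g (Sum.inl ⟨α, h⟩) else 0 with hA
  set B : (Fin r → ℤ) → K := fun β => if h : β ∈ AM c (M + 1) then -g (Sum.inr ⟨β, h⟩) else 0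
    with hB
  have hA' : ∀ α : {α // α ∈ AM c M}, A α.1 = g (Sum.inl α) := fun α => dif_pos α.2
  have hB'' : ∀ β : {β // β ∈ AM c (M + 1)}, B β.1 = -g (Sum.inr β) := fun β => dif_pos β.2
  have hmain : ∀ x ∈ E', x k * ∑ α ∈ AM c M, A α * mono (t x) α =
      w x 0 * ∑ β ∈ AM c (M + 1), B β * mono (t x) β := by
    intro x hx
    have h1 := hrel x hx
    have h0 : w x 0 ≠ 0 := (hw x (hE' hx) 0).ne
    have h2 : ∑ α : {α // α ∈ AM c M}, g (Sum.inl α) * χ x α =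
        w x 0 ^ M * ∑ α ∈ AM c M, A α * mono (t x) α := by
      rw [← Finset.sum_coe_sort (AM c M) (fun α => A α * mono (t x) α), Finset.mul_sum]
      refine Finset.sum_congr rfl fun α _ => ?_
      rw [hA' α, hχ]
      ring
    have h3 : ∑ β : {β // β ∈ AM c (M + 1)}, g (Sum.inr β) * χ' x β =
        -(w x 0 ^ M * (w x 0 * ∑ β ∈ AM c (M + 1), B β * mono (t x) β)) := by
      rw [← Finset.sum_coe_sort (AM c (M + 1)) (fun β => B β * mono (t x) β), Finset.mul_sum,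
        Finset.mul_sum, ← Finset.sum_neg_distrib]
      refine Finset.sum_congr rfl fun β _ => ?_
      rw [hB'' β, hχ']
      ring
    rw [h2, h3] at h1
    apply mul_left_cancel₀ (pow_ne_zero M h0)
    linear_combination h1
  refine ⟨E', hE', hB', AM c M, AM c (M + 1), A, B, ?_, hmain⟩
  by_contra hcon
  push Not at hcon
  have h1 : ∀ β ∈ AM c (M + 1), B β = 0 := by
    refine mono_lin Z 𝔅 t E' hB' (fun x hx => hp.tU x (hE' hx)) (hp.mono' hE').ind _ B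
      fun x hx => ?_
    have h2 := hmain x hx
    rw [Finset.sum_eq_zero (fun α hα => by rw [hcon α hα, zero_mul]), mul_zero] at h2
    exact (mul_eq_zero.1 h2.symm).resolve_left (hw x (hE' hx) 0).ne
  apply hg
  funext m
  rcases m with α | β
  · rw [← hA' α, hcon _ α.2]
    rfl
  · have h3 := hB'' β
    rw [h1 _ β.2] at h3
    rw [Pi.zero_apply, ← neg_eq_zero, ← h3]

end Pool.Agent.Helper38.TN
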