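import Pool.Agent.Helper38.TN.Zero
import Pool.Agent.Helper38.TN.IntN
import Pool.Agent.Helper6.TN.Int

/-!
# From the relations to Laurent polynomials

Plan. Put `ξ x = x k / w x 0`. For `S : ℕ` large all exponents `α + S`, `β + S` (`α ∈ SA`,
`β ∈ SB`) are non-negative: let `PA, PB : MvPolynomial (Fin r) K` be `t^S ∑ A α t^α`,
`t^S ∑ B β t^β`; then `eval (t x) PA * ξ x = eval (t x) PB` on `E`, and `PA ≠ 0` by `mono_lin`
(or because the exponents are distinct: coefficient of `α + S`).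
`int_eqN` at the point `ξ`-scaled: the vector `(w x 0)⁻¹ • x` is a zero of `J₀` and
`eval ((w x 0)⁻¹ • x) (F i) = D i * κ i ^ d i * mono (t x) (d i • c i)`, so
`ξ ^ e + ∑ i < e, C_i(D κ^d t^(d c)) ξ ^ i = 0` with Laurent polynomials `C_i(…)` in `t`.
There is `T₀` such that for all `T ≥ T₀` and all `i < e` the function
`mono (t x) (fun _ => (T * (e - i) : ℕ)) * C_i(…)` is `eval (t x)` of a polynomial; so
`y x = mono (t x) (fun _ => T) * ξ x` satisfies a monic equation with coefficients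
`eval (t x)` of polynomials, and `eval (t x) PA * y x = eval (t x) (t^T * PB)`. Now
`Pool.Agent.Helper6.TN.dvd_of_rel` (with `E`, `hE` from `poly_zero`) gives `Q` with
`y x = eval (t x) Q` for all `x ∈ E` with `eval (t x) PA ≠ 0`; these `x` form a large set `E'`
(independent of `T`) because `{x ∈ E | eval (t x) PA = 0}` is not large (`poly_zero` for this
subset; `hind` passes to subsets) and `𝔅.union`.
-/

set_option autoImplicit false

namespace Pool.Agent.Helper38.TN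

open Pool.Agent.Helper10.Sub Pool.Agent.Helper38.TP MvPolynomial

section laurent
variable {K : Type} [Field K] {β : Type} {r : ℕ}

/-- `g` is a Laurent polynomial in `t` on `E`. -/
def IsL (t : β → Fin r → K) (E : Set β) (g : β → K) : Prop :=
  ∃ S₀ : ℕ, ∀ S : ℕ, S₀ ≤ S → ∃ Q : MvPolynomial (Fin r) K, ∀ x ∈ E,
    mono (t x) (fun _ => (S : ℤ)) * g x = eval (t x) Q

variable {t : β → Fin r → K} {E : Set β}

theorem mono_natadd (y : Fin r → K) (S S' : ℕ) :
    mono y (fun _ => ((S + S' : ℕ) : ℤ)) = mono y (fun _ => (S : ℤ)) * mono y fun _ => (S' : ℤ) := by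
  rw [mono, mono, mono, ← Finset.prod_mul_distrib]
  refine Finset.prod_congr rfl fun j _ => ?_
  rw [zpow_natCast, zpow_natCast, zpow_natCast, pow_add]

theorem mono_natmul (y : Fin r → K) (S i : ℕ) :
    mono y (fun _ => ((S * i : ℕ) : ℤ)) = mono y (fun _ => (S : ℤ)) ^ i := by
  rw [mono, mono, ← Finset.prod_pow]
  refine Finset.prod_congr rfl fun j _ => ?_
  rw [zpow_natCast, zpow_natCast, pow_mul]

theorem mono_const (y : Fin r → K) (S : ℕ) :
    mono y (fun _ => (S : ℤ)) =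
      eval y (monomial (Finsupp.equivFunOnFinite.symm fun _ => S) (1 : K)) := by
  rw [eval_monomial_mono, one_mul]
  rfl

theorem IsL.congr {g h : β → K} (hg : IsL t E g) (hh : ∀ x ∈ E, h x = g x) : IsL t E h := by
  obtain ⟨S₀, hS⟩ := hg
  refine ⟨S₀, fun S hS' => ?_⟩
  obtain ⟨Q, hQ⟩ := hS S hS'
  exact ⟨Q, fun x hx => by rw [hh x hx, hQ x hx]⟩

theorem isL_const (a : K) : IsL t E fun _ => a := by
  refine ⟨0, fun S _ => ⟨monomial (Finsupp.equivFunOnFinite.symm fun _ => S) (1 : K) * C a,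
    fun x _ => ?_⟩⟩
  rw [map_mul, eval_C, ← mono_const]

theorem IsL.add {g h : β → K} (hg : IsL t E g) (hh : IsL t E h) : IsL t E fun x => g x + h x := by
  obtain ⟨S₀, hS⟩ := hg
  obtain ⟨S₁, hS₁⟩ := hh
  refine ⟨S₀ + S₁, fun S hS' => ?_⟩
  obtain ⟨Q, hQ⟩ := hS S (by omega)
  obtain ⟨Q₁, hQ₁⟩ := hS₁ S (by omega)
  exact ⟨Q + Q₁, fun x hx => by rw [map_add, mul_add, hQ x hx, hQ₁ x hx]⟩

theorem IsL.mul {g h : β → K} (hg : IsL t E g) (hh : IsL t E h) : IsL t E fun x => g x * h x := by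
  obtain ⟨S₀, hS⟩ := hg
  obtain ⟨S₁, hS₁⟩ := hh
  refine ⟨S₀ + S₁, fun S hS' => ?_⟩
  obtain ⟨T, rfl⟩ : ∃ T, S = S₀ + T := ⟨S - S₀, by omega⟩
  obtain ⟨Q, hQ⟩ := hS S₀ le_rfl
  obtain ⟨Q₁, hQ₁⟩ := hS₁ T (by omega)
  refine ⟨Q * Q₁, fun x hx => ?_⟩
  rw [map_mul, ← hQ x hx, ← hQ₁ x hx, mono_natadd]
  ring

theorem IsL.pow {g : β → K} (hg : IsL t E g) (m : ℕ) : IsL t E fun x => g x ^ m := by
  induction m with
  | zero => exact (isL_const 1).congr fun x _ => pow_zero _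
  | succ m ih => exact (ih.mul hg).congr fun x _ => pow_succ _ _

theorem IsL.sum {ι : Type*} (s : Finset ι) {g : ι → β → K} (hg : ∀ i ∈ s, IsL t E (g i)) :
    IsL t E fun x => ∑ i ∈ s, g i x := by
  classical
  induction s using Finset.induction_on with
  | empty => exact (isL_const 0).congr fun x _ => Finset.sum_empty
  | insert a s ha ih =>
    exact ((hg a (Finset.mem_insert_self _ _)).add
      (ih fun i hi => hg i (Finset.mem_insert_of_mem hi))).congr fun x _ => Finset.sum_insert ha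

theorem isL_mono (ht : ∀ x ∈ E, ∀ j, t x j ≠ 0) (e : Fin r → ℤ) :
    IsL t E fun x => mono (t x) e := by
  refine ⟨∑ j, (e j).natAbs, fun S hS => ?_⟩
  have h1 : ∀ j, 0 ≤ (S : ℤ) + e j := by
    intro j
    have h2 : (e j).natAbs ≤ ∑ j, (e j).natAbs :=
      Finset.single_le_sum (f := fun j => (e j).natAbs) (fun _ _ => Nat.zero_le _)
        (Finset.mem_univ j)
    omega
  refine ⟨monomial (Finsupp.equivFunOnFinite.symm fun j => ((S : ℤ) + e j).toNat) (1 : K),
    fun x hx => ?_⟩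
  rw [eval_monomial_mono, one_mul, ← mono_add (ht x hx)]
  congr 1
  funext j
  show (S : ℤ) + e j = (((S : ℤ) + e j).toNat : ℤ)
  rw [Int.toNat_of_nonneg (h1 j)]

theorem isL_eval {ι : Type*} (g : ι → β → K) (hg : ∀ i, IsL t E (g i)) (P : MvPolynomial ι K) :
    IsL t E fun x => eval (fun i => g i x) P := by
  induction P using MvPolynomial.induction_on with
  | C a => exact (isL_const a).congr fun x _ => eval_C _
  | add f h hf hh => exact (hf.add hh).congr fun x _ => map_add _ _ _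
  | mul_X f j hf =>
    exact (hf.mul (hg j)).congr fun x _ => by rw [map_mul, eval_X]

end laurent

theorem algN_smul {K : Type} [Field K] {σ : Type*} [Fintype σ] {f : MvPolynomial σ K} {e : ℕ}
    (hf : f.IsHomogeneous e) (μ : K) (x : σ → K) : eval (μ • x) f = μ ^ e * eval x f := by
  rw [eval_eq', eval_eq', Finset.mul_sum]
  refine Finset.sum_congr rfl fun m hm => ?_
  have h1 : ∑ i, m i = e := by
    have h2 := hf (mem_support_iff.1 hm)
    rw [Finsupp.weight_apply, Finsupp.sum_fintype _ _ (by simp)] at h2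
    simpa using h2
  have h3 : ∏ i, (μ • x) i ^ m i = μ ^ e * ∏ i, x i ^ m i := by
    rw [← h1, ← Finset.prod_pow_eq_pow_sum, ← Finset.prod_mul_distrib]
    refine Finset.prod_congr rfl fun i _ => ?_
    rw [Pi.smul_apply, smul_eq_mul, mul_pow]
  rw [h3]
  ring

variable {K : Type} [Field K] {Λ : Type} [Fintype Λ] [DecidableEq Λ] {L : Λ → Type}
    [∀ s, NontriviallyNormedField (L s)] [∀ s, Algebra K (L s)] {N n r : ℕ}

theorem algN (Z : MP K L) (𝔅 : LN (Fin (N + 1) → K)) {Ω : Type} [Field Ω] [IsAlgClosed Ω]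
    [Algebra K Ω] (J₀ : Set (MvPolynomial (Fin (N + 1)) K))
    (hJ₀ : ∀ f ∈ J₀, ∃ e, f.IsHomogeneous e)
    (F : Fin (n + 1) → MvPolynomial (Fin (N + 1)) K) (d : Fin (n + 1) → ℕ) (hd : ∀ i, 1 ≤ d i)
    (hF : ∀ i, (F i).IsHomogeneous (d i)) (D : Fin (n + 1) → K)
    (hempty : ∀ A : Fin (N + 1) → Ω, OnV J₀ A → (∀ i, aeval A (F i) = 0) → A = 0)
    (E : Set (Fin (N + 1) → K)) (hE : 𝔅.Big E)
    (w : (Fin (N + 1) → K) → Fin (n + 1) → K) (hw : ∀ x ∈ E, ∀ i, Z.U (w x i))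
    (hev : ∀ x ∈ E, ∀ i, eval x (F i) = D i * w x i ^ d i)
    (hX : ∀ x ∈ E, ∀ f ∈ J₀, eval x f = 0)
    (t : (Fin (N + 1) → K) → Fin r → K) (ht : ∀ x ∈ E, ∀ j, Z.U (t x j))
    (hind : ∀ e : Fin r → ℤ, e ≠ 0 → ∀ κ' : K, ¬ 𝔅.Big {x | x ∈ E ∧ mono (t x) e = κ'})
    (κ : Fin (n + 1) → K) (c : Fin (n + 1) → Fin r → ℤ)
    (hκ : ∀ x ∈ E, ∀ i, w x i = κ i * (w x 0 * mono (t x) (c i)))
    (k : Fin (N + 1)) (SA SB : Finset (Fin r → ℤ)) (A B : (Fin r → ℤ) → K)
    (hA : ∃ α ∈ SA, A α ≠ 0)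
    (hrel : ∀ x ∈ E, x k * ∑ α ∈ SA, A α * mono (t x) α =
      w x 0 * ∑ β ∈ SB, B β * mono (t x) β) :
    ∃ E' ⊆ E, 𝔅.Big E' ∧ ∃ T₀ : ℕ, ∀ T : ℕ, T₀ ≤ T → ∃ Q : MvPolynomial (Fin r) K, ∀ x ∈ E',
      mono (t x) (fun _ => (T : ℤ)) * x k = w x 0 * eval (t x) Q := by
  classical
  have ht0 : ∀ x ∈ E, ∀ j, t x j ≠ 0 := fun x hx j => (ht x hx j).ne
  have hw0 : ∀ x ∈ E, w x 0 ≠ 0 := fun x hx => (hw x hx 0).ne
  -- the relation
  obtain ⟨SA₀, hSA⟩ := IsL.sum (t := t) (E := E) SA (g := fun α x => A α * mono (t x) α)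
    fun α _ => (isL_const (A α)).mul (isL_mono ht0 α)
  obtain ⟨SB₀, hSB⟩ := IsL.sum (t := t) (E := E) SB (g := fun α x => B α * mono (t x) α)
    fun α _ => (isL_const (B α)).mul (isL_mono ht0 α)
  obtain ⟨PA, hPA⟩ := hSA (SA₀ + SB₀) (by omega)
  obtain ⟨PB, hPB⟩ := hSB (SA₀ + SB₀) (by omega)
  have hmne : ∀ x ∈ E, ∀ S : ℕ, mono (t x) (fun _ => (S : ℤ)) ≠ 0 := fun x hx S =>
    mono_ne (ht0 x hx) _
  have hPA0 : PA ≠ 0 := by
    rintro rfl
    obtain ⟨α, hα, hα0⟩ := hA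
    refine hα0 (mono_lin Z 𝔅 t E hE ht hind SA A (fun x hx => ?_) α hα)
    have h1 := hPA x hx
    rw [map_zero] at h1
    exact (mul_eq_zero.1 h1).resolve_left (hmne x hx _)
  -- the large set
  have hE' : 𝔅.Big {x | x ∈ E ∧ eval (t x) PA ≠ 0} := by
    have h1 : E ⊆ {x | x ∈ E ∧ eval (t x) PA = 0} ∪ {x | x ∈ E ∧ eval (t x) PA ≠ 0} := by
      intro x hx
      by_cases h : eval (t x) PA = 0
      · exact Or.inl ⟨hx, h⟩
      · exact Or.inr ⟨hx, h⟩
    rcases 𝔅.union (𝔅.mono h1 hE) with h2 | h2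
    · exfalso
      refine hPA0 (poly_zero Z 𝔅 t _ h2 (fun x hx => ht x hx.1) (fun e he κ' hbig => ?_) PA
        fun x hx => hx.2)
      exact hind e he κ' (𝔅.mono (fun x hx => ⟨hx.1.1, hx.2⟩) hbig)
    · exact h2
  -- integrality
  obtain ⟨e, Cc, hCc⟩ := int_eqN J₀ hJ₀ F d hd hF hempty k
  set g : Fin (n + 1) → (Fin (N + 1) → K) → K := fun i x =>
    D i * (κ i * mono (t x) (c i)) ^ d i with hg
  have hgL : ∀ i, IsL t E (g i) := fun i =>
    (isL_const (D i)).mul (((isL_const (κ i)).mul (isL_mono ht0 (c i))).pow (d i))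
  have hint : ∀ x ∈ E, (x k / w x 0) ^ e +
      ∑ i ∈ Finset.range e, eval (fun j => g j x) (Cc i) * (x k / w x 0) ^ i = 0 := by
    intro x hx
    have h1 := hCc ((w x 0)⁻¹ • x) fun f hf => by
      obtain ⟨m, hm⟩ := hJ₀ f hf
      rw [algN_smul hm, hX x hx f hf, mul_zero]
    have h2 : (fun j => eval ((w x 0)⁻¹ • x) (F j)) = fun j => g j x := by
      funext j
      rw [algN_smul (hF j), hev x hx j, hκ x hx j, hg]
      simp only
      rw [mul_pow, mul_pow, mul_pow, inv_pow]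
      have h3 : w x 0 ^ d j ≠ 0 := pow_ne_zero _ (hw0 x hx)
      field_simp
    rw [h2] at h1
    have h4 : ((w x 0)⁻¹ • x) k = x k / w x 0 := by
      rw [Pi.smul_apply, smul_eq_mul, div_eq_mul_inv, mul_comm]
    rw [h4] at h1
    exact h1
  choose Sc hSc using fun i => isL_eval (t := t) (E := E) g hgL (Cc i)
  refine ⟨{x | x ∈ E ∧ eval (t x) PA ≠ 0}, fun x hx => hx.1, hE', ∑ i ∈ Finset.range e, Sc i,
    fun T hT => ?_⟩
  have hSc' : ∀ i : Fin e, ∃ Q : MvPolynomial (Fin r) K, ∀ x ∈ E,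
      mono (t x) (fun _ => ((T * (e - i) : ℕ) : ℤ)) * eval (fun j => g j x) (Cc i) =
        eval (t x) Q := by
    intro i
    refine hSc i (T * (e - i)) ?_
    have h1 : Sc i ≤ ∑ i ∈ Finset.range e, Sc i :=
      Finset.single_le_sum (f := Sc) (fun _ _ => Nat.zero_le _) (Finset.mem_range.2 i.2)
    have h2 : 1 ≤ e - i := by have := i.2; omega
    calc Sc i ≤ T * 1 := by omega
      _ ≤ T * (e - i) := Nat.mul_le_mul_left _ h2
  choose Qc hQc using hSc'
  set y : (Fin (N + 1) → K) → K := fun x => mono (t x) (fun _ => (T : ℤ)) * (x k / w x 0) with hy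
  obtain ⟨Q, -, hQ⟩ := Pool.Agent.Helper6.TN.dvd_of_rel E t
    (fun P hP => poly_zero Z 𝔅 t E hE ht hind P hP) y PA
    (monomial (Finsupp.equivFunOnFinite.symm fun _ => T) (1 : K) * PB) hPA0
    (fun x hx => by
      rw [map_mul, ← mono_const, ← hPA x hx, ← hPB x hx, hy]
      have h1 := hrel x hx
      have h2 : x k / w x 0 * ∑ α ∈ SA, A α * mono (t x) α = ∑ β ∈ SB, B β * mono (t x) β := by
        rw [div_mul_eq_mul_div, h1, mul_div_cancel_left₀ _ (hw0 x hx)]
      simp only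
      rw [← h2]
      ring)
    (Polynomial.X ^ e + ∑ i : Fin e, Polynomial.C (Qc i) * Polynomial.X ^ (i : ℕ))
    (Polynomial.monic_X_pow_add (Polynomial.degree_sum_fin_lt Qc))
    (fun x hx => by
      rw [Polynomial.map_add, Polynomial.map_pow, Polynomial.map_X, Polynomial.map_sum,
        Polynomial.eval_add, Polynomial.eval_pow, Polynomial.eval_X, Polynomial.eval_finset_sum]
      have h1 := hint x hx
      rw [← Fin.sum_univ_eq_sum_range
        (fun i => eval (fun j => g j x) (Cc i) * (x k / w x 0) ^ i) e] at h1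
      have h2 : y x ^ e + ∑ i : Fin e, Polynomial.eval (y x) (Polynomial.map (eval (t x))
          (Polynomial.C (Qc i) * Polynomial.X ^ (i : ℕ))) =
          mono (t x) (fun _ => (T : ℤ)) ^ e * ((x k / w x 0) ^ e +
            ∑ i : Fin e, eval (fun j => g j x) (Cc i) * (x k / w x 0) ^ (i : ℕ)) := by
        rw [mul_add, Finset.mul_sum, hy]
        simp only
        rw [mul_pow]
        congr 1
        refine Finset.sum_congr rfl fun i _ => ?_
        rw [Polynomial.map_mul, Polynomial.map_C, Polynomial.map_pow, Polynomial.map_X,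
          Polynomial.eval_mul, Polynomial.eval_C, Polynomial.eval_pow, Polynomial.eval_X,
          ← hQc i x hx, mono_natmul, mul_pow]
        have h3 : mono (t x) (fun _ => (T : ℤ)) ^ e =
            mono (t x) (fun _ => (T : ℤ)) ^ (e - (i : ℕ)) *
              mono (t x) (fun _ => (T : ℤ)) ^ (i : ℕ) := by
          rw [← pow_add, Nat.sub_add_cancel i.2.le]
        rw [h3]
        ring
      rw [h2, h1, mul_zero])
  refine ⟨Q, fun x hx => ?_⟩
  have h1 := hQ x hx.1 hx.2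
  rw [← h1, hy]
  simp only
  field_simp [hw0 x hx.1]

end Pool.Agent.Helper38.TN
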