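import Pool.Agent.Helper38.TN.Core
import Pool.Agent.Helper38.TP.RelH2

/-!
# Integral points near arbitrary corners: no large sets
-/

set_option autoImplicit false
set_option linter.unusedSectionVars false

namespace Pool.Agent.Helper38.TN

open Pool.Agent.Helper10.Sub Pool.Agent.Helper38.TP MvPolynomial

variable {K : Type} [Field K] [CharZero K] {Λ : Type} [Fintype Λ] [DecidableEq Λ] {L : Λ → Type}
  [∀ s, NontriviallyNormedField (L s)] [∀ s, ProperSpace (L s)] [∀ s, Algebra K (L s)] {N n : ℕ}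
  {Z : MP K L} {J₀ : Set (MvPolynomial (Fin (N + 1)) K)}
    {F : Fin (n + 1) → MvPolynomial (Fin (N + 1)) K} {d : Fin (n + 1) → ℕ} {D : Fin (n + 1) → K}
    {w : (Fin (N + 1) → K) → Fin (n + 1) → K} {C₁ ε C₂ : ℝ} {E : Set (Fin (N + 1) → K)}

theorem coreH (h : PtsH Z (bigN J₀ F d) J₀ F d D w C₁ ε C₂ E)
    {Ω : Type} [Field Ω] [IsAlgClosed Ω] [Algebra K Ω]
    (hΩ : ∀ A : Fin (N + 1) → Ω, OnV J₀ A → (∀ i, aeval A (F i) = 0) → A = 0) : False := by
  classical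
  refine core_of Z J₀ h.hJ₀ F d h.hd h.hF D h.hD hΩ E h.big w h.unit h.ev h.onV ?_ ?_
  · intro κ hκ
    have h' := h.mono (fun x hx => hx.1) hκ
    obtain ⟨B, hB⟩ := ht_prop (Z := Z) _ h'.unit h'.low h.hC₁ κ (fun x hx i => hx.2 i)
    obtain ⟨x, hx, hxB⟩ := (bigN J₀ F d).nonempty (h'.large (B + 1))
    linarith [hB x hx]
  · intro r t κ c E' hE' hB' hp k
    refine relN Z _ w t κ c ε h.hε E' hB' (fun x hx => h.unit x (hE' hx)) hp k ?_
    intro M S₀ A B _ _ _ _ _ _ C χ χ' h1 h2 h3 h4 h5 h6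
    exact relH (h.mono hE' hB') C χ χ' h1 h2 h3 h4 h5 h6 k

end Pool.Agent.Helper38.TN
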