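import Pool.Agent.Helper38.TN.Zero

/-!
# Parametrised large sets are images of tori

Plan. Suppose `E` is large; derive a contradiction by showing `SmallN J₀ F d E` with `A = ∅` and
one element `(Q', m')` in `𝒯`, `Q' k = rename (Fin.castLE hr) (Q k)`, `m' i` the image of
`m i = d i • (fun j => T + c i j)` (natural numbers by `hT`) under `Finsupp.mapDomain (Fin.castLE hr)`
(or `Finsupp.embDomain`); for `x ∈ E` the vector `z` is `t x` on the first `r` coordinates, `1` on
the others, and `μ = w x 0 / mono (t x) (fun _ => T)`.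
`onX`: for `f ∈ J₀` homogeneous of degree `e`, `eval (t x) (aeval Q f) = eval (fun k => eval (t x) (Q k)) f`
is a power of `μ⁻¹` times `eval x f = 0`, for all `x ∈ E`; so `aeval Q f = 0` by `poly_zero`.
`units`: `eval (t x) (aeval Q (F i)) = μ⁻¹ ^ (d i) * D i * w x i ^ d i
  = D i * κ i ^ d i * mono (t x) (d i • (T + c i))`,
so `aeval Q (F i) = monomial (m i) (D i * κ i ^ d i)` by `poly_zero`; `κ i ≠ 0` because `E` is
nonempty. `nonconst` from `hc`: `d j • m i = d i • m j` iff `c i = c j` (as `d i, d j ≥ 1`).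
-/

set_option autoImplicit false

namespace Pool.Agent.Helper38.TN

open Pool.Agent.Helper10.Sub Pool.Agent.Helper38.TP MvPolynomial

theorem fin_eval_smul {K : Type} [Field K] {M : ℕ} {f : MvPolynomial (Fin M) K} {e : ℕ}
    (hf : f.IsHomogeneous e) (ν : K) (y : Fin M → K) :
    eval (ν • y) f = ν ^ e * eval y f := by
  rw [eval_eq', eval_eq', Finset.mul_sum]
  refine Finset.sum_congr rfl fun s hs => ?_
  have h1 : e = ∑ i, s i := by
    rw [hf.degree_eq_sum_deg_support hs, Finset.sum_subset (Finset.subset_univ _)]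
    intro i _ hi
    simpa using hi
  have h2 : ∏ i, (ν • y) i ^ s i = ν ^ e * ∏ i, y i ^ s i := by
    rw [h1, ← Finset.prod_pow_eq_pow_sum, ← Finset.prod_mul_distrib]
    exact Finset.prod_congr rfl fun i _ => by rw [Pi.smul_apply, smul_eq_mul, mul_pow]
  rw [h2]
  ring

theorem fin_eval_aeval {K : Type} [Field K] {M r : ℕ} (t : Fin r → K)
    (Q : Fin M → MvPolynomial (Fin r) K) (f : MvPolynomial (Fin M) K) :
    eval t (aeval Q f) = eval (fun k => eval t (Q k)) f := by
  have h := comp_aeval_apply (R := K) (f := Q) (aeval t : MvPolynomial (Fin r) K →ₐ[K] K) f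
  simpa [coe_aeval_eq_eval] using h

theorem fin_rename {K : Type} [Field K] {M r n : ℕ} (g : Fin r → Fin n)
    (Q : Fin M → MvPolynomial (Fin r) K) (f : MvPolynomial (Fin M) K) :
    aeval (fun k => rename g (Q k)) f = rename g (aeval Q f) :=
  (comp_aeval_apply (R := K) (f := Q) (rename g) f).symm

variable {K : Type} [Field K] {Λ : Type} [Fintype Λ] [DecidableEq Λ] {L : Λ → Type}
    [∀ s, NontriviallyNormedField (L s)] [∀ s, Algebra K (L s)] {N n r : ℕ}

theorem finN (Z : MP K L) (J₀ : Set (MvPolynomial (Fin (N + 1)) K))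
    (hJ₀ : ∀ f ∈ J₀, ∃ e, f.IsHomogeneous e)
    (F : Fin (n + 1) → MvPolynomial (Fin (N + 1)) K) (d : Fin (n + 1) → ℕ) (hd : ∀ i, 1 ≤ d i)
    (hF : ∀ i, (F i).IsHomogeneous (d i)) (D : Fin (n + 1) → K) (hD : ∀ i, D i ≠ 0) (hr : r ≤ n)
    (E : Set (Fin (N + 1) → K)) (hE : (bigN J₀ F d).Big E)
    (w : (Fin (N + 1) → K) → Fin (n + 1) → K) (hw : ∀ x ∈ E, ∀ i, Z.U (w x i))
    (hev : ∀ x ∈ E, ∀ i, eval x (F i) = D i * w x i ^ d i)
    (hX : ∀ x ∈ E, ∀ f ∈ J₀, eval x f = 0)
    (t : (Fin (N + 1) → K) → Fin r → K) (ht : ∀ x ∈ E, ∀ j, Z.U (t x j))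
    (hind : ∀ e : Fin r → ℤ, e ≠ 0 → ∀ κ' : K,
      ¬ (bigN J₀ F d).Big {x | x ∈ E ∧ mono (t x) e = κ'})
    (κ : Fin (n + 1) → K) (c : Fin (n + 1) → Fin r → ℤ)
    (hκ : ∀ x ∈ E, ∀ i, w x i = κ i * (w x 0 * mono (t x) (c i))) (hc : ∃ i j, c i ≠ c j)
    (T : ℕ) (hT : ∀ i j, 0 ≤ (T : ℤ) + c i j) (Q : Fin (N + 1) → MvPolynomial (Fin r) K)
    (hQ : ∀ x ∈ E, ∀ k, mono (t x) (fun _ => (T : ℤ)) * x k = w x 0 * eval (t x) (Q k)) :
    False := by
  classical
  obtain ⟨x₀, hx₀⟩ := (bigN J₀ F d).nonempty hE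
  have htne : ∀ x ∈ E, ∀ j, t x j ≠ 0 := fun x hx j => (ht x hx j).ne
  have hwne : ∀ x ∈ E, ∀ i, w x i ≠ 0 := fun x hx i => (hw x hx i).ne
  have hTne : ∀ x ∈ E, mono (t x) (fun _ => (T : ℤ)) ≠ 0 := fun x hx => mono_ne (htne x hx) _
  -- the vector of the values of `Q`
  have hxv : ∀ x ∈ E, x = (w x 0 / mono (t x) (fun _ => (T : ℤ))) • fun k => eval (t x) (Q k) := by
    intro x hx
    funext k
    rw [Pi.smul_apply, smul_eq_mul, div_mul_eq_mul_div, eq_div_iff (hTne x hx), ← hQ x hx k]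
    ring
  have hval : ∀ x ∈ E, ∀ (f : MvPolynomial (Fin (N + 1)) K) (e : ℕ), f.IsHomogeneous e →
      eval x f * mono (t x) (fun _ => (T : ℤ)) ^ e = w x 0 ^ e * eval (t x) (aeval Q f) := by
    intro x hx f e hf
    have h1 : eval x f = (w x 0 / mono (t x) (fun _ => (T : ℤ))) ^ e *
        eval (fun k => eval (t x) (Q k)) f := by
      conv_lhs => rw [hxv x hx]
      exact fin_eval_smul hf _ _
    rw [h1, fin_eval_aeval, div_pow]
    have h2 := pow_ne_zero e (hTne x hx)
    field_simp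
  -- the relations
  have honX : ∀ f ∈ J₀, aeval Q f = 0 := by
    intro f hf
    obtain ⟨e, he⟩ := hJ₀ f hf
    refine poly_zero Z (bigN J₀ F d) t E hE ht hind _ fun x hx => ?_
    have h1 := hval x hx f e he
    rw [hX x hx f hf, zero_mul] at h1
    exact (mul_eq_zero.1 h1.symm).resolve_left (pow_ne_zero _ (hwne x hx 0))
  -- the exponents
  obtain ⟨m, hm⟩ : ∃ m : Fin (n + 1) → Fin r →₀ ℕ, ∀ i j, m i j = d i * ((T : ℤ) + c i j).toNat :=
    ⟨fun i => Finsupp.equivFunOnFinite.symm fun j => d i * ((T : ℤ) + c i j).toNat,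
      fun i j => rfl⟩
  have hmz : ∀ i, (fun j => (m i j : ℤ)) = d i • ((fun _ => (T : ℤ)) + c i) := by
    intro i
    funext j
    rw [hm, Pi.smul_apply, Pi.add_apply, nsmul_eq_mul]
    push_cast
    rw [Int.toNat_of_nonneg (hT i j)]
  have hunits : ∀ i, aeval Q (F i) = monomial (m i) (D i * κ i ^ d i) := by
    intro i
    rw [← sub_eq_zero]
    refine poly_zero Z (bigN J₀ F d) t E hE ht hind _ fun x hx => ?_
    rw [map_sub, sub_eq_zero, eval_monomial_mono, hmz, mono_nsmul, mono_add (htne x hx)]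
    have h1 := hval x hx (F i) (d i) (hF i)
    have h2 := pow_ne_zero (d i) (hwne x hx 0)
    rw [hev x hx i, hκ x hx i] at h1
    apply mul_left_cancel₀ h2
    rw [← h1]
    ring
  have hκne : ∀ i, κ i ≠ 0 := by
    intro i h0
    have h1 := hκ x₀ hx₀ i
    rw [h0, zero_mul] at h1
    exact hwne x₀ hx₀ i h1
  have hinj : Function.Injective (Fin.castLE hr) := Fin.castLE_injective hr
  apply hE
  refine ⟨∅, {(fun k => rename (Fin.castLE hr) (Q k),
    fun i => (m i).mapDomain (Fin.castLE hr))}, Set.finite_empty, Set.finite_singleton _, ?_, ?_⟩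
  · rintro _ rfl
    refine ⟨fun f hf => ?_, fun i => ⟨D i * κ i ^ d i,
      mul_ne_zero (hD i) (pow_ne_zero _ (hκne i)), ?_⟩, ?_⟩
    · rw [fin_rename, honX f hf, map_zero]
    · rw [fin_rename, hunits i, rename_monomial]
    · obtain ⟨i, j, hij⟩ := hc
      refine ⟨i, j, fun h => hij ?_⟩
      simp only at h
      rw [← Finsupp.mapDomain_smul, ← Finsupp.mapDomain_smul] at h
      have h1 := Finsupp.mapDomain_injective hinj h
      funext l
      have h2 := DFunLike.congr_fun h1 l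
      rw [Finsupp.smul_apply, Finsupp.smul_apply, hm, hm, smul_eq_mul, smul_eq_mul] at h2
      have h3 : d i * d j * ((T : ℤ) + c i l).toNat = d i * d j * ((T : ℤ) + c j l).toNat := by
        linarith
      have h4 : 0 < d i * d j := Nat.mul_pos (hd i) (hd j)
      have h5 := Nat.eq_of_mul_eq_mul_left h4 h3
      have h6 := Int.toNat_of_nonneg (hT i l)
      have h7 := Int.toNat_of_nonneg (hT j l)
      omega
  · intro x hx
    refine Or.inr ⟨_, rfl, ?_⟩
    refine ⟨w x 0 / mono (t x) (fun _ => (T : ℤ)),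
      fun j => if h : (j : ℕ) < r then t x ⟨j, h⟩ else 1,
      div_ne_zero (hwne x hx 0) (hTne x hx), ?_, ?_⟩
    · intro j
      simp only
      split_ifs with h
      · exact htne x hx _
      · exact one_ne_zero
    · conv_lhs => rw [hxv x hx]
      congr 1
      funext k
      simp only
      rw [eval_rename]
      congr 2
      funext j
      simp [Function.comp]

end Pool.Agent.Helper38.TN
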