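import Pool.Agent.Helper38.TN.Defs
import Pool.Agent.Helper38.TP.LemU

/-!
# Independent characters: vanishing of polynomials

Plan. `mono_lin`: if some `g γ ≠ 0`, apply `TP.unit_eq` with `J := {γ // γ ∈ S}` (or
`J := {γ // γ ∈ S}` and `u x γ = mono (t x) γ`, `S' = univ.filter (g γ ≠ 0)`): there are
`γ ≠ γ'` with `mono (t x) γ = m * mono (t x) γ'` on a large subset, so `mono (t x) (γ - γ') = m`
there, against `hind`.
`poly_zero`: `p = ∑ e ∈ p.support, monomial e (coeff e p)`, `eval_monomial_mono`, the map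
`e ↦ fun j => (e j : ℤ)` is injective; use `mono_lin` with `S` = the image of the support.
-/

set_option autoImplicit false

namespace Pool.Agent.Helper38.TN

open Pool.Agent.Helper10.Sub Pool.Agent.Helper38.TP MvPolynomial

variable {K : Type} [Field K] {Λ : Type} [Fintype Λ] [DecidableEq Λ] {L : Λ → Type}
    [∀ s, NontriviallyNormedField (L s)] [∀ s, Algebra K (L s)]

theorem mono_lin (Z : MP K L) {β : Type} (𝔅 : LN β) {r : ℕ} (t : β → Fin r → K) (E : Set β)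
    (hE : 𝔅.Big E) (ht : ∀ x ∈ E, ∀ j, Z.U (t x j))
    (hind : ∀ e : Fin r → ℤ, e ≠ 0 → ∀ κ' : K, ¬ 𝔅.Big {x | x ∈ E ∧ mono (t x) e = κ'})
    (S : Finset (Fin r → ℤ)) (g : (Fin r → ℤ) → K)
    (h0 : ∀ x ∈ E, ∑ γ ∈ S, g γ * mono (t x) γ = 0) : ∀ γ ∈ S, g γ = 0 := by
  classical
  by_contra hcon
  push Not at hcon
  obtain ⟨γ₀, hγ₀, hg₀⟩ := hcon
  have hsum : ∀ x ∈ E, ∑ j ∈ (Finset.univ.filter fun j : {γ // γ ∈ S} => g j.1 ≠ 0),
      g j.1 * mono (t x) j.1 = 0 := by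
    intro x hx
    have h2 := h0 x hx
    rw [← Finset.sum_coe_sort S (fun γ => g γ * mono (t x) γ)] at h2
    rw [Finset.sum_filter]
    refine Eq.trans ?_ h2
    refine Finset.sum_congr rfl fun j _ => ?_
    by_cases hj : g j.1 = 0
    · rw [if_neg (not_not.mpr hj), hj, zero_mul]
    · rw [if_pos hj]
  obtain ⟨i, -, j, -, hij, m, hm⟩ := unit_eq Z 𝔅 (J := {γ // γ ∈ S})
    (fun x j => mono (t x) j.1) E hE (fun x hx j => U_mono (ht x hx) j.1) (fun j => g j.1)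
    (Finset.univ.filter fun j : {γ // γ ∈ S} => g j.1 ≠ 0)
    ⟨⟨γ₀, hγ₀⟩, by
      rw [Finset.mem_filter]
      exact ⟨Finset.mem_univ _, hg₀⟩⟩
    (fun j hj => (Finset.mem_filter.mp hj).2) hsum
  refine hind (i.1 - j.1) (sub_ne_zero.mpr fun h => hij (Subtype.ext h)) m (𝔅.mono ?_ hm)
  rintro x ⟨hx, hxm⟩
  refine ⟨hx, ?_⟩
  have h1 : ∀ j, t x j ≠ 0 := fun j => (ht x hx j).ne
  rw [mono_sub h1, div_eq_iff (mono_ne h1 j.1)]
  exact hxm

theorem poly_zero (Z : MP K L) {β : Type} (𝔅 : LN β) {r : ℕ} (t : β → Fin r → K) (E : Set β)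
    (hE : 𝔅.Big E) (ht : ∀ x ∈ E, ∀ j, Z.U (t x j))
    (hind : ∀ e : Fin r → ℤ, e ≠ 0 → ∀ κ' : K, ¬ 𝔅.Big {x | x ∈ E ∧ mono (t x) e = κ'})
    (p : MvPolynomial (Fin r) K) (h0 : ∀ x ∈ E, eval (t x) p = 0) : p = 0 := by
  classical
  set φ : (Fin r →₀ ℕ) → Fin r → ℤ := fun e j => (e j : ℤ) with hφ
  set ψ : (Fin r → ℤ) → Fin r →₀ ℕ :=
    fun γ => Finsupp.equivFunOnFinite.symm fun j => (γ j).toNat with hψ
  have hψφ : ∀ e, ψ (φ e) = e := by
    intro e
    ext j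
    simp [hψ, hφ]
  have hinj : Function.Injective φ := Function.LeftInverse.injective hψφ
  have h1 := mono_lin Z 𝔅 t E hE ht hind (p.support.image φ) (fun γ => coeff (ψ γ) p) (by
    intro x hx
    have h2 := h0 x hx
    rw [eval_eq'] at h2
    rw [Finset.sum_image fun a _ b _ h => hinj h]
    refine Eq.trans ?_ h2
    refine Finset.sum_congr rfl fun e _ => ?_
    rw [hψφ, hφ, mono_nat])
  ext e
  rw [coeff_zero]
  by_cases he : e ∈ p.support
  · have h2 := h1 (φ e) (Finset.mem_image_of_mem φ he)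
    rwa [hψφ] at h2
  · exact notMem_support_iff.mp he

end Pool.Agent.Helper38.TN
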