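import Pool.Agent.Helper38.TN.Lat
import Pool.Agent.Helper38.TN.Zero
import Pool.Agent.Helper38.TN.Alg
import Pool.Agent.Helper38.TN.Fin

/-!
# From linear relations to tori
-/

set_option autoImplicit false
set_option linter.unusedSectionVars false

namespace Pool.Agent.Helper38.TN

open Pool.Agent.Helper10.Sub Pool.Agent.Helper38.TP MvPolynomial

variable {K : Type} [Field K] {Λ : Type} [Fintype Λ] [DecidableEq Λ] {L : Λ → Type}
  [∀ s, NontriviallyNormedField (L s)] [∀ s, Algebra K (L s)] {N n r : ℕ}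

/-- The units in terms of independent units. -/
structure Par (Z : MP K L) (𝔅 : LN (Fin (N + 1) → K)) (w : (Fin (N + 1) → K) → Fin (n + 1) → K)
    (t : (Fin (N + 1) → K) → Fin r → K) (κ : Fin (n + 1) → K) (c : Fin (n + 1) → Fin r → ℤ)
    (E : Set (Fin (N + 1) → K)) : Prop where
  tU : ∀ x ∈ E, ∀ j, Z.U (t x j)
  ind : ∀ e : Fin r → ℤ, e ≠ 0 → ∀ κ' : K, ¬ 𝔅.Big {x | x ∈ E ∧ mono (t x) e = κ'}
  rel : ∀ x ∈ E, ∀ i, w x i = κ i * (w x 0 * mono (t x) (c i))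

lemma Par.mono' {Z : MP K L} {𝔅 : LN (Fin (N + 1) → K)}
    {w : (Fin (N + 1) → K) → Fin (n + 1) → K} {t : (Fin (N + 1) → K) → Fin r → K}
    {κ : Fin (n + 1) → K} {c : Fin (n + 1) → Fin r → ℤ} {E E' : Set (Fin (N + 1) → K)}
    (h : Par Z 𝔅 w t κ c E) (hE : E' ⊆ E) : Par Z 𝔅 w t κ c E' where
  tU := fun x hx => h.tU x (hE hx)
  ind := fun e he κ' hB => h.ind e he κ' (𝔅.mono (fun _ hx => ⟨hE hx.1, hx.2⟩) hB)
  rel := fun x hx => h.rel x (hE hx)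

/-- A linear relation for the coordinate `k`. -/
def HasRel (𝔅 : LN (Fin (N + 1) → K)) (w : (Fin (N + 1) → K) → Fin (n + 1) → K)
    (t : (Fin (N + 1) → K) → Fin r → K) (k : Fin (N + 1)) (E : Set (Fin (N + 1) → K)) : Prop :=
  ∃ E' ⊆ E, 𝔅.Big E' ∧ ∃ (SA SB : Finset (Fin r → ℤ)) (A B : (Fin r → ℤ) → K),
    (∃ α ∈ SA, A α ≠ 0) ∧ ∀ x ∈ E', x k * ∑ α ∈ SA, A α * mono (t x) α =
      w x 0 * ∑ β ∈ SB, B β * mono (t x) β

theorem core_of (Z : MP K L) (J₀ : Set (MvPolynomial (Fin (N + 1)) K))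
    (hJ₀ : ∀ f ∈ J₀, ∃ e, f.IsHomogeneous e)
    (F : Fin (n + 1) → MvPolynomial (Fin (N + 1)) K) (d : Fin (n + 1) → ℕ) (hd : ∀ i, 1 ≤ d i)
    (hF : ∀ i, (F i).IsHomogeneous (d i)) (D : Fin (n + 1) → K) (hD : ∀ i, D i ≠ 0)
    {Ω : Type} [Field Ω] [IsAlgClosed Ω] [Algebra K Ω]
    (hΩ : ∀ A : Fin (N + 1) → Ω, OnV J₀ A → (∀ i, aeval A (F i) = 0) → A = 0)
    (E : Set (Fin (N + 1) → K)) (hE : (bigN J₀ F d).Big E)
    (w : (Fin (N + 1) → K) → Fin (n + 1) → K) (hw : ∀ x ∈ E, ∀ i, Z.U (w x i))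
    (hev : ∀ x ∈ E, ∀ i, eval x (F i) = D i * w x i ^ d i)
    (hX : ∀ x ∈ E, ∀ f ∈ J₀, eval x f = 0)
    (hnc : ∀ κ : Fin (n + 1) → K, ¬ (bigN J₀ F d).Big {x | x ∈ E ∧ ∀ i, w x i = κ i * w x 0})
    (hR : ∀ (r : ℕ) (t : (Fin (N + 1) → K) → Fin r → K) (κ : Fin (n + 1) → K)
      (c : Fin (n + 1) → Fin r → ℤ) (E' : Set (Fin (N + 1) → K)), E' ⊆ E →
      (bigN J₀ F d).Big E' → Par Z (bigN J₀ F d) w t κ c E' → ∀ k,
      HasRel (bigN J₀ F d) w t k E') : False := by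
  classical
  set 𝔅 := bigN J₀ F d with h𝔅
  obtain ⟨E₁, hE₁, hB₁, r, t, κ₁, c₁, hr, htU, hκ₁, hind⟩ := exists_indep Z 𝔅
    (fun x (i : Fin n) => w x i.succ / w x 0) E hE
    (fun x hx i => (hw x hx i.succ).div (hw x hx 0))
  set κ : Fin (n + 1) → K := Fin.cons 1 κ₁ with hκ
  set c : Fin (n + 1) → Fin r → ℤ := Fin.cons 0 c₁ with hc
  have hpar : Par Z 𝔅 w t κ c E₁ := by
    refine ⟨htU, hind, fun x hx i => ?_⟩
    refine Fin.cases ?_ (fun i => ?_) i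
    · rw [hκ, hc, Fin.cons_zero, Fin.cons_zero, mono_zero, one_mul, mul_one]
    · rw [hκ, hc, Fin.cons_succ, Fin.cons_succ]
      have h1 := hκ₁ x hx i
      rw [div_eq_iff (hw x (hE₁ hx) 0).ne] at h1
      rw [h1]
      ring
  have hex : ∃ i j, c i ≠ c j := by
    by_contra hcon
    push Not at hcon
    apply hnc κ
    refine 𝔅.mono (fun x hx => ⟨hE₁ hx, fun i => ?_⟩) hB₁
    have h1 := hpar.rel x hx i
    have h2 : c i = 0 := by
      rw [hcon i 0, hc, Fin.cons_zero]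
    rw [h2, mono_zero, mul_one] at h1
    exact h1
  have key : ∀ s : Finset (Fin (N + 1)), ∃ E' ⊆ E₁, 𝔅.Big E' ∧ ∃ T₀ : ℕ, ∀ T : ℕ, T₀ ≤ T →
      ∃ Q : Fin (N + 1) → MvPolynomial (Fin r) K, ∀ x ∈ E', ∀ k ∈ s,
      mono (t x) (fun _ => (T : ℤ)) * x k = w x 0 * eval (t x) (Q k) := by
    intro s
    induction s using Finset.induction_on with
    | empty => exact ⟨E₁, subset_rfl, hB₁, 0, fun T _ => ⟨0, fun x _ k hk =>
        absurd hk (Finset.notMem_empty k)⟩⟩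
    | insert k s hk ih =>
      obtain ⟨E', hE', hB', T₀, hT⟩ := ih
      obtain ⟨E₂, hE₂, hB₂, SA, SB, A, B, hA, hrel⟩ := hR r t κ c E' (hE'.trans hE₁) hB'
        (hpar.mono' hE') k
      have hE₂E : E₂ ⊆ E := hE₂.trans (hE'.trans hE₁)
      have hp₂ := hpar.mono' (hE₂.trans hE')
      obtain ⟨E₃, hE₃, hB₃, T₁, hT₁⟩ := algN Z 𝔅 J₀ hJ₀ F d hd hF D hΩ E₂ hB₂ w
        (fun x hx => hw x (hE₂E hx)) (fun x hx => hev x (hE₂E hx)) (fun x hx => hX x (hE₂E hx))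
        t hp₂.tU hp₂.ind κ c hp₂.rel k SA SB A B hA hrel
      refine ⟨E₃, hE₃.trans (hE₂.trans hE'), hB₃, max T₀ T₁, fun T hTT => ?_⟩
      obtain ⟨Q, hQ⟩ := hT T ((le_max_left _ _).trans hTT)
      obtain ⟨q, hq⟩ := hT₁ T ((le_max_right _ _).trans hTT)
      refine ⟨Function.update Q k q, fun x hx k' hk' => ?_⟩
      by_cases hkk : k' = k
      · subst hkk
        rw [Function.update_self]
        exact hq x hx
      · rw [Function.update_of_ne hkk]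
        exact hQ x (hE₂ (hE₃ hx)) k' ((Finset.mem_insert.1 hk').resolve_left hkk)
  obtain ⟨E', hE', hB', T₀, hT⟩ := key Finset.univ
  set T : ℕ := max T₀ (∑ i, ∑ j, (c i j).natAbs) with hTdef
  obtain ⟨Q, hQ⟩ := hT T (le_max_left _ _)
  have hp' := hpar.mono' hE'
  have hE'E := hE'.trans hE₁
  refine finN Z J₀ hJ₀ F d hd hF D hD hr E' hB' w (fun x hx => hw x (hE'E hx))
    (fun x hx => hev x (hE'E hx)) (fun x hx => hX x (hE'E hx)) t hp'.tU hp'.ind κ c hp'.rel hex T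
    (fun i j => ?_) Q (fun x hx k => hQ x hx k (Finset.mem_univ k))
  have h1 : (c i j).natAbs ≤ ∑ j, (c i j).natAbs :=
    Finset.single_le_sum (f := fun j => (c i j).natAbs) (fun _ _ => Nat.zero_le _)
      (Finset.mem_univ j)
  have h2 : ∑ j, (c i j).natAbs ≤ ∑ i, ∑ j, (c i j).natAbs :=
    Finset.single_le_sum (f := fun i => ∑ j, (c i j).natAbs) (fun _ _ => Nat.zero_le _)
      (Finset.mem_univ i)
  have h3 : (∑ i, ∑ j, (c i j).natAbs) ≤ T := le_max_right _ _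
  have h4 : (c i j).natAbs ≤ T := h1.trans (h2.trans h3)
  omega

end Pool.Agent.Helper38.TN
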