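import Pool.Agent.Helper38.TN.Defs

/-!
# Multiplicative relations: a large set with independent characters

Plan. For a large set `G` let `R G : Submodule ℤ (Fin n → ℤ)` be
`{δ | ∀ x ∈ G, ∀ y ∈ G, ∏ i, u x i ^ δ i = ∏ i, u y i ^ δ i}` (for `x, y ∈ G` all `u x i ≠ 0`).
By noetherianity of `Fin n → ℤ` (`set_has_maximal_iff_noetherian` or `WellFounded.has_min`) choose
a large `E₁ ⊆ E` with `R E₁` maximal among the `R G`, `G ⊆ E` large; then `R G = R E₁` for all
large `G ⊆ E₁` (as `R` is antitone).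
`R E₁` is saturated: if `k • δ ∈ R E₁`, `k ≥ 1`, then `u^δ` takes finitely many values on `E₁`
(roots of `X ^ k - a` in a field, `Polynomial.nthRoots` or `Polynomial.roots`), by
`LN.partition` it is constant on a large subset, so `δ ∈ R E₁`.
So `(Fin n → ℤ) ⧸ R E₁` is torsion free, finitely generated, hence free
(`Module.free_of_finite_type_torsion_free'` or similar); take a basis indexed by `Fin r`
(`Module.finBasis`/`Module.Free.chooseBasis`; `r ≤ n` because the quotient has rank at most `n`),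
lifts `γ j` of the basis, `t x j = ∏ i, u x i ^ γ j i`, `c i` = coordinates of the class of
`Pi.single i 1`; then `Pi.single i 1 - ∑ j, c i j • γ j ∈ R E₁` gives the constants `κ i`.
Independence: if `t^e` is constant on a large subset `G`, then `∑ j, e j • γ j ∈ R G = R E₁`, so
its class `∑ e j • (basis j)` vanishes and `e = 0`.
-/

set_option autoImplicit false

namespace Pool.Agent.Helper38.TN

open Pool.Agent.Helper10.Sub Pool.Agent.Helper38.TP

lemma lat_zsmul {K : Type} [Field K] {n : ℕ} (t : Fin n → K) (k : ℤ) (e : Fin n → ℤ) :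
    mono t (k • e) = mono t e ^ k := by
  rw [mono, mono, ← Finset.prod_zpow]
  refine Finset.prod_congr rfl fun j _ => ?_
  rw [Pi.smul_apply, smul_eq_mul, mul_comm, zpow_mul]

/-- the lattice of the relations on a set -/
def latR {K : Type} [Field K] {β : Type} {n : ℕ} (u : β → Fin n → K) (E : Set β)
    (hne : ∀ x ∈ E, ∀ i, u x i ≠ 0) (G : Set β) : Submodule ℤ (Fin n → ℤ) where
  carrier := {δ | ∀ x ∈ G, x ∈ E → ∀ y ∈ G, y ∈ E → mono (u x) δ = mono (u y) δ}
  add_mem' := by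
    intro a b ha hb x hx hxE y hy hyE
    rw [mono_add (hne x hxE), mono_add (hne y hyE), ha x hx hxE y hy hyE, hb x hx hxE y hy hyE]
  zero_mem' := by
    intro x _ _ y _ _
    rw [mono_zero, mono_zero]
  smul_mem' := by
    intro k a ha x hx hxE y hy hyE
    rw [lat_zsmul, lat_zsmul, ha x hx hxE y hy hyE]

lemma mem_latR {K : Type} [Field K] {β : Type} {n : ℕ} {u : β → Fin n → K} {E : Set β}
    {hne : ∀ x ∈ E, ∀ i, u x i ≠ 0} {G : Set β} {δ : Fin n → ℤ} :
    δ ∈ latR u E hne G ↔ ∀ x ∈ G, x ∈ E → ∀ y ∈ G, y ∈ E → mono (u x) δ = mono (u y) δ :=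
  Iff.rfl

lemma latR_anti {K : Type} [Field K] {β : Type} {n : ℕ} {u : β → Fin n → K} {E : Set β}
    {hne : ∀ x ∈ E, ∀ i, u x i ≠ 0} {G G' : Set β} (h : G' ⊆ G) :
    latR u E hne G ≤ latR u E hne G' :=
  fun _ hδ x hx hxE y hy hyE => hδ x (h hx) hxE y (h hy) hyE

lemma exists_latR {K : Type} [Field K] {β : Type} (𝔅 : LN β) {n : ℕ} (u : β → Fin n → K)
    (E : Set β) (hE : 𝔅.Big E) (hne : ∀ x ∈ E, ∀ i, u x i ≠ 0) :
    ∃ E' ⊆ E, 𝔅.Big E' ∧ ∀ G ⊆ E', 𝔅.Big G → latR u E hne G = latR u E hne E' := by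
  have hnoeth : IsNoetherian ℤ (Fin n → ℤ) := inferInstance
  obtain ⟨M, ⟨E', hE', hb, rfl⟩, hmax⟩ := set_has_maximal_iff_noetherian.mpr hnoeth
    {M | ∃ G ⊆ E, 𝔅.Big G ∧ latR u E hne G = M} ⟨_, E, subset_rfl, hE, rfl⟩
  refine ⟨E', hE', hb, fun G hG hGb => ?_⟩
  have h1 : latR u E hne E' ≤ latR u E hne G := latR_anti hG
  by_contra hcon
  exact hmax _ ⟨G, hG.trans hE', hGb, rfl⟩ (lt_of_le_of_ne h1 (Ne.symm hcon))

theorem exists_indep {K : Type} [Field K] {Λ : Type} [Fintype Λ] {L : Λ → Type}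
    [∀ s, NontriviallyNormedField (L s)] [∀ s, Algebra K (L s)] (Z : MP K L)
    {β : Type} (𝔅 : LN β) {n : ℕ} (u : β → Fin n → K) (E : Set β)
    (hE : 𝔅.Big E) (hu : ∀ x ∈ E, ∀ i, Z.U (u x i)) :
    ∃ E' ⊆ E, 𝔅.Big E' ∧ ∃ (r : ℕ) (t : β → Fin r → K) (κ : Fin n → K) (c : Fin n → Fin r → ℤ),
      r ≤ n ∧ (∀ x ∈ E', ∀ j, Z.U (t x j)) ∧ (∀ x ∈ E', ∀ i, u x i = κ i * mono (t x) (c i)) ∧
      ∀ e : Fin r → ℤ, e ≠ 0 → ∀ κ' : K, ¬ 𝔅.Big {x | x ∈ E' ∧ mono (t x) e = κ'} := by
  classical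
  have hne : ∀ x ∈ E, ∀ i, u x i ≠ 0 := fun x hx i => (hu x hx i).ne
  obtain ⟨E', hE', hb, hmin⟩ := exists_latR 𝔅 u E hE hne
  obtain ⟨x₀, hx₀⟩ := 𝔅.nonempty hb
  -- a monomial constant on a large subset is constant
  have hconst : ∀ (δ : Fin n → ℤ) (a : K), 𝔅.Big {x | x ∈ E' ∧ mono (u x) δ = a} →
      δ ∈ latR u E hne E' := by
    intro δ a ha
    rw [← hmin _ (fun x hx => hx.1) ha]
    intro x hx _ y hy _
    rw [hx.2, hy.2]
  have htf : Module.IsTorsionFree ℤ ((Fin n → ℤ) ⧸ latR u E hne E') := by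
    refine Module.IsTorsionFree.of_smul_eq_zero ?_
    intro k m hm
    by_contra hcon
    rw [not_or] at hcon
    obtain ⟨hk, hm0⟩ := hcon
    obtain ⟨δ, rfl⟩ := Submodule.mkQ_surjective _ m
    apply hm0
    rw [← map_smul, Submodule.mkQ_apply, Submodule.Quotient.mk_eq_zero] at hm
    rw [Submodule.mkQ_apply, Submodule.Quotient.mk_eq_zero]
    have hk0 : 0 < k.natAbs := Int.natAbs_pos.mpr hk
    have h1 : (k.natAbs : ℤ) • δ ∈ latR u E hne E' := by
      rcases Int.natAbs_eq k with h | h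
      · rw [← h]; exact hm
      · have h2 : (k.natAbs : ℤ) • δ = -(k • δ) := by
          rw [← neg_smul]
          congr 1
          omega
        rw [h2]
        exact Submodule.neg_mem _ hm
    obtain ⟨a, -, ha⟩ := 𝔅.partition
      (Polynomial.nthRoots k.natAbs (mono (u x₀) ((k.natAbs : ℤ) • δ))).toFinset hb
      (fun a x => mono (u x) δ = a) (by
        intro x hx
        refine ⟨mono (u x) δ, ?_, rfl⟩
        rw [Multiset.mem_toFinset, Polynomial.mem_nthRoots hk0,
          ← h1 x hx (hE' hx) x₀ hx₀ (hE' hx₀), lat_zsmul, zpow_natCast])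
    exact hconst δ a ha
  have hfree : Module.Free ℤ ((Fin n → ℤ) ⧸ latR u E hne E') :=
    Module.free_of_finite_type_torsion_free'
  let b := Module.finBasis ℤ ((Fin n → ℤ) ⧸ latR u E hne E')
  choose γ hγ using fun j => Submodule.mkQ_surjective (latR u E hne E') (b j)
  have hcomb : ∀ (x : β), x ∈ E → ∀ e : Fin _ → ℤ,
      mono (fun j => mono (u x) (γ j)) e = mono (u x) (∑ j, e j • γ j) := by
    intro x hx e
    rw [mono_sum _ (hne x hx)]
    exact Finset.prod_congr rfl fun j _ => (lat_zsmul _ _ _).symm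
  refine ⟨E', hE', hb, Module.finrank ℤ ((Fin n → ℤ) ⧸ latR u E hne E'),
    fun x j => mono (u x) (γ j),
    fun i => mono (u x₀) (Pi.single i 1 - ∑ j, b.repr (Submodule.mkQ _ (Pi.single i 1)) j • γ j),
    fun i j => b.repr (Submodule.mkQ _ (Pi.single i 1)) j, ?_, ?_, ?_, ?_⟩
  · have h1 := Submodule.finrank_quotient_le (latR u E hne E')
    rwa [Module.finrank_fintype_fun_eq_card, Fintype.card_fin] at h1
  · intro x hx j
    exact U_mono (hu x (hE' hx)) _
  · intro x hx i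
    rw [hcomb x (hE' hx)]
    have h1 : Pi.single i 1 - ∑ j, b.repr (Submodule.mkQ _ (Pi.single i 1)) j • γ j ∈
        latR u E hne E' := by
      rw [← Submodule.Quotient.mk_eq_zero, ← Submodule.mkQ_apply, map_sub, map_sum, sub_eq_zero]
      simp only [map_smul, hγ]
      exact (b.sum_repr _).symm
    beta_reduce
    rw [← h1 x hx (hE' hx) x₀ hx₀ (hE' hx₀), ← mono_add (hne x (hE' hx)), sub_add_cancel]
    rw [mono, Finset.prod_eq_single i]
    · rw [Pi.single_eq_same, zpow_one]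
    · intro j _ hj
      rw [Pi.single_eq_of_ne hj, zpow_zero]
    · intro h
      exact absurd (Finset.mem_univ i) h
  · intro e he κ' hbig
    apply he
    have h1 : ∑ j, e j • γ j ∈ latR u E hne E' := by
      apply hconst _ κ'
      refine 𝔅.mono ?_ hbig
      rintro x ⟨hx, hxe⟩
      exact ⟨hx, by rw [← hcomb x (hE' hx)]; exact hxe⟩
    rw [← Submodule.Quotient.mk_eq_zero, ← Submodule.mkQ_apply, map_sum] at h1
    simp only [map_smul, hγ] at h1
    have h2 := Fintype.linearIndependent_iff.mp b.linearIndependent e h1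
    funext j
    exact h2 j

end Pool.Agent.Helper38.TN
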