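import Pool.Agent.Helper38.TN.TwoN

/-!
# Points near the divisor at `s` places at most: the pigeonhole form

`G` is a set of indices all of whose subsets with `k + 1` elements belong to `𝒞`, and `s k < card G`.
At each of the `s` active places at most `k` elements `i` of `G` have `prox` smaller than the
distance to the corners; so some `i ∈ G` has `cdC ≤ prox` at all active places, and the product of
the `prox` of `F i` is `1 / Ht x`.
-/

set_option autoImplicit false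

namespace Pool.Agent.Helper38.TN

open Pool.Agent.Helper38.TP Pool.Agent.Helper85.Sub Pool.Agent.Helper85.RC
open Pool.Agent.Helper10.Sub NumberField MvPolynomial

theorem runge_pigeon {P : Type} [Fintype P] [DecidableEq P] {n : ℕ} (G : Finset (Fin (n + 1)))
    (k s : ℕ) (hs : s * k < G.card) (C H : ℝ) (hC : 1 ≤ C)
    (ρ : Fin (n + 1) → P → ℝ) (δ : P → ℝ) (hρ : ∀ j ∈ G, ∀ v, 0 < ρ j v)
    (hprod : ∀ j ∈ G, ∏ v, ρ j v ≤ H) (hδ : ∀ v, 0 ≤ δ v) (hδ1 : ∀ v, δ v ≤ 1)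
    (hI : ∀ v, ∀ I : Finset (Fin (n + 1)), I ⊆ G → I.card = k + 1 → ∃ i ∈ I, δ v ≤ ρ i v)
    (W : Finset P) (hW : W.card ≤ s) (hact : ∀ v, v ∉ W → ∀ j ∈ G, C⁻¹ ≤ ρ j v) :
    ∏ v, δ v ≤ C ^ Fintype.card P * H := by
  classical
  obtain ⟨B, hB⟩ : ∃ B : P → Finset (Fin (n + 1)), B = fun v => G.filter fun i => ρ i v < δ v :=
    ⟨_, rfl⟩
  have hBG : ∀ v, B v ⊆ G := fun v => by
    rw [hB]
    exact Finset.filter_subset _ _
  have hBc : ∀ v, (B v).card ≤ k := by
    intro v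
    by_contra hcon
    push Not at hcon
    obtain ⟨I, hIB, hIc⟩ := Finset.exists_subset_card_eq (Nat.succ_le_of_lt hcon)
    obtain ⟨i, hi, h⟩ := hI v I (hIB.trans (hBG v)) hIc
    have h1 := hIB hi
    rw [hB] at h1
    exact absurd (Finset.mem_filter.1 h1).2 (not_lt.2 h)
  obtain ⟨i, hiG, hi⟩ : ∃ i ∈ G, i ∉ W.biUnion B := by
    by_contra hcon
    push Not at hcon
    have h1 : G.card ≤ (W.biUnion B).card := Finset.card_le_card fun i hi => hcon i hi
    have h2 : (W.biUnion B).card ≤ W.card * k := Finset.card_biUnion_le_card_mul _ _ _ fun v _ => hBc v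
    have h3 : W.card * k ≤ s * k := Nat.mul_le_mul_right _ hW
    omega
  have hC0 : 0 < C := by linarith
  have key : ∀ v, δ v ≤ C * ρ i v := by
    intro v
    by_cases hv : v ∈ W
    · have h1 : ¬ ρ i v < δ v := by
        intro h
        apply hi
        rw [Finset.mem_biUnion]
        refine ⟨v, hv, ?_⟩
        rw [hB]
        exact Finset.mem_filter.2 ⟨hiG, h⟩
      have h2 := hρ i hiG v
      nlinarith
    · have h1 := hact v hv i hiG
      rw [inv_le_iff_one_le_mul₀ hC0] at h1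
      linarith [hδ1 v]
  calc ∏ v, δ v ≤ ∏ v, C * ρ i v := Finset.prod_le_prod (fun v _ => hδ v) fun v _ => key v
    _ = C ^ Fintype.card P * ∏ v, ρ i v := by
        rw [Finset.prod_mul_distrib, Finset.prod_const, Finset.card_univ]
    _ ≤ C ^ Fintype.card P * H := by
        gcongr
        exact hprod i hiG

section loc
variable {K : Type} [Field K] {N n : ℕ} {L : Type} [NontriviallyNormedField L] [Algebra K L]

/-- The bounds at one place. -/
lemma runge_plc (F : Fin (n + 1) → MvPolynomial (Fin (N + 1)) K) (d : Fin (n + 1) → ℕ)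
    (v : K → ℝ) (r : ℕ) (hv : ∀ y, v y = nu L y ^ r) (k : ℕ) (q : ℝ) (hq : 0 < q) :
    ∃ B : ℝ, 1 ≤ B ∧ ∀ x : Fin (N + 1) → K, x ≠ 0 → ∀ j, eval x (F j) ≠ 0 →
      0 < prox v (F j) (d j) x ^ k ∧
      (q * (⨆ j, v (x j)) ^ d j ≤ v (eval x (F j)) → B⁻¹ ≤ prox v (F j) (d j) x ^ k) := by
  have hs : 0 ≤ ∑ j, ((q ^ ((1 : ℝ) / d j)) ^ k)⁻¹ := Finset.sum_nonneg fun j _ => by positivity
  refine ⟨1 + ∑ j, ((q ^ ((1 : ℝ) / d j)) ^ k)⁻¹, by linarith, ?_⟩
  intro x hx j hne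
  have hn0 : 0 < nrm L x := nrm_pos hx
  have hsup : (⨆ k, v (x k)) = nrm L x ^ r := by
    rw [← two_nrm (L := L) x, Real.iSup_pow (fun k => norm_nonneg _)]
    exact iSup_congr fun k => hv _
  have hsup0 : 0 < ⨆ k, v (x k) := by rw [hsup]; exact pow_pos hn0 r
  constructor
  · apply pow_pos
    apply two_pos v _ _ _ hsup0
    rw [hv]
    apply pow_pos
    show 0 < ‖algebraMap K L _‖
    rw [norm_pos_iff, Ne, map_eq_zero_iff _ (algebraMap K L).injective]
    exact hne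
  · intro hyp
    have h3 : (q ^ ((1 : ℝ) / d j)) ^ k ≤ prox v (F j) (d j) x ^ k := by
      apply pow_le_pow_left₀ (by positivity)
      exact two_low v _ _ _ hq.le hsup0 hyp
    refine le_trans ?_ h3
    have h5 : ((q ^ ((1 : ℝ) / d j)) ^ k)⁻¹ ≤ ∑ j, ((q ^ ((1 : ℝ) / d j)) ^ k)⁻¹ :=
      Finset.single_le_sum (f := fun j => ((q ^ ((1 : ℝ) / d j)) ^ k)⁻¹)
        (fun j _ => by positivity) (Finset.mem_univ j)
    have h6 : 0 < ((q ^ ((1 : ℝ) / d j)) ^ k)⁻¹ := by positivity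
    have h7 := inv_anti₀ h6 (show ((q ^ ((1 : ℝ) / d j)) ^ k)⁻¹ ≤ 1 +
      ∑ j, ((q ^ ((1 : ℝ) / d j)) ^ k)⁻¹ by linarith)
    rwa [inv_inv] at h7

end loc

theorem runge_gapG {K : Type} [Field K] [NumberField K] (T : Finset Nat.Primes)
    (Z : MP K (LF K T)) (S : Finset (FinitePlace K))
    (hS : ∀ v ∈ S, ∃ t ∈ T, ((t : ℕ) : 𝓞 K) ∈ v.maximalIdeal.asIdeal) {N n : ℕ}
    (F : Fin (n + 1) → MvPolynomial (Fin (N + 1)) K) (d : Fin (n + 1) → ℕ) (hd : ∀ i, 1 ≤ d i)
    (G : Finset (Fin (n + 1))) (k s : ℕ) (hs : s * k < G.card)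
    (𝒞 : Set (Finset (Fin (n + 1))))
    (h𝒞 : ∀ I : Finset (Fin (n + 1)), I ⊆ G → I.card = k + 1 → I ∈ 𝒞)
    (c : FinitePlace K → ℝ) (hc : ∀ v, 0 < c v) (c₀ : ℝ) (hc₀ : 0 < c₀) :
    ∃ C' : ℝ, 0 ≤ C' ∧ ∀ x : Fin (N + 1) → K, x ≠ 0 → 1 ≤ Ht (LF K T) x →
      (∀ i ∈ G, Z.U (eval x (F i))) →
      (∀ v : FinitePlace K, v ∉ S → ∀ i ∈ G, c v * (⨆ j, v (x j)) ^ d i ≤ v (eval x (F i))) →
      (∃ (W : Finset (InfinitePlace K)) (V : Finset (FinitePlace K)), W.card + V.card ≤ s ∧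
        (∀ w : InfinitePlace K, w ∉ W → ∀ i ∈ G, c₀ * (⨆ j, w (x j)) ^ d i ≤ w (eval x (F i))) ∧
        ∀ v ∈ S, v ∉ V → ∀ i ∈ G, c₀ * (⨆ j, v (x j)) ^ d i ≤ v (eval x (F i))) →
      (∏ w : InfinitePlace K, cdC 𝒞 w F d x ^ w.mult) * ∏ v ∈ S, cdC 𝒞 v F d x ≤
        C' / Ht (LF K T) x := by
  classical
  obtain ⟨ST, hST1, -, hST3, hprod⟩ := prod_lam K T
  have hSST : S ⊆ ST := fun v hv => hST1 v (hS v hv)
  -- the places
  have hw : ∀ w : InfinitePlace K, ∀ y, w y = nu (LF K T (Sum.inl w.embedding)) y ^ 1 := by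
    intro w y
    rw [pow_one]
    exact (InfinitePlace.norm_embedding_eq w y).symm
  have hWloc : ∀ w : InfinitePlace K, ∃ B : ℝ, 1 ≤ B ∧ ∀ x : Fin (N + 1) → K, x ≠ 0 →
      ∀ j, eval x (F j) ≠ 0 → 0 < prox w (F j) (d j) x ^ w.mult ∧
      (c₀ * (⨆ j, w (x j)) ^ d j ≤ w (eval x (F j)) →
        B⁻¹ ≤ prox w (F j) (d j) x ^ w.mult) := fun w =>
    runge_plc (L := LF K T (Sum.inl w.embedding)) F d w 1 (hw w) w.mult c₀ hc₀
  have hVloc : ∀ v : ST, ∃ B : ℝ, 1 ≤ B ∧ ∀ x : Fin (N + 1) → K, x ≠ 0 →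
      ∀ j, eval x (F j) ≠ 0 → 0 < prox v.1 (F j) (d j) x ^ 1 ∧
      ((if v.1 ∈ S then c₀ else c v.1) * (⨆ j, v.1 (x j)) ^ d j ≤ v.1 (eval x (F j)) →
        B⁻¹ ≤ prox v.1 (F j) (d j) x ^ 1) := by
    intro v
    obtain ⟨s, r, hr, hs⟩ := hST3 v.1 v.2
    exact runge_plc (L := LF K T (Sum.inr s)) F d v.1 r (fun y => hs y) 1 _
      (by split_ifs; exacts [hc₀, hc _])
  choose BW hBW hWb using hWloc
  choose BV hBV hVb using hVloc
  obtain ⟨C, hCdef⟩ : ∃ C : ℝ, C = 1 + ∑ w, BW w + ∑ v, BV v := ⟨_, rfl⟩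
  have hsW : 0 ≤ ∑ w, BW w := Finset.sum_nonneg fun w _ => by linarith [hBW w]
  have hsV : 0 ≤ ∑ v, BV v := Finset.sum_nonneg fun v _ => by linarith [hBV v]
  have hC1 : 1 ≤ C := by linarith
  have hC0 : 0 < C := by linarith
  have hCW : ∀ w, BW w ≤ C := fun w => by
    have h1 : BW w ≤ ∑ w, BW w :=
      Finset.single_le_sum (fun w _ => by linarith [hBW w]) (Finset.mem_univ w)
    linarith
  have hCV : ∀ v, BV v ≤ C := fun v => by
    have h1 : BV v ≤ ∑ v, BV v :=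
      Finset.single_le_sum (fun v _ => by linarith [hBV v]) (Finset.mem_univ v)
    linarith
  have hCW' : ∀ w, C⁻¹ ≤ (BW w)⁻¹ := fun w => inv_anti₀ (by linarith [hBW w]) (hCW w)
  have hCV' : ∀ v, C⁻¹ ≤ (BV v)⁻¹ := fun v => inv_anti₀ (by linarith [hBV v]) (hCV v)
  refine ⟨C ^ Fintype.card (InfinitePlace K ⊕ ST) * C ^ (ST \ S).card, by positivity, ?_⟩
  rintro x hx hH hU hc' ⟨W, V, hWV, hWb', hVb'⟩
  have hne : ∀ i ∈ G, eval x (F i) ≠ 0 := fun i hi => (hU i hi).ne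
  have hH0 : 0 < Ht (LF K T) x := by linarith
  -- the functions on the places
  obtain ⟨ρ, hρ⟩ : ∃ ρ : Fin (n + 1) → InfinitePlace K ⊕ ST → ℝ, ρ = fun j =>
    Sum.elim (fun w : InfinitePlace K => prox w (F j) (d j) x ^ w.mult)
      (fun v : ST => prox v.1 (F j) (d j) x) := ⟨_, rfl⟩
  have hρl : ∀ j (w : InfinitePlace K), ρ j (Sum.inl w) = prox w (F j) (d j) x ^ w.mult :=
    fun j w => by rw [hρ]; rfl
  have hρr : ∀ j (v : ST), ρ j (Sum.inr v) = prox v.1 (F j) (d j) x := fun j v => by rw [hρ]; rfl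
  obtain ⟨δ, hδ⟩ : ∃ δ : InfinitePlace K ⊕ ST → ℝ, δ =
    Sum.elim (fun w : InfinitePlace K => cdC 𝒞 w F d x ^ w.mult)
      (fun v : ST => if v.1 ∈ S then cdC 𝒞 v.1 F d x else C⁻¹) := ⟨_, rfl⟩
  have hδl : ∀ w : InfinitePlace K, δ (Sum.inl w) = cdC 𝒞 w F d x ^ w.mult :=
    fun w => by rw [hδ]; rfl
  have hδr : ∀ v : ST, δ (Sum.inr v) = if v.1 ∈ S then cdC 𝒞 v.1 F d x else C⁻¹ :=
    fun v => by rw [hδ]; rfl
  have hnonW : ∀ (w : InfinitePlace K) (y : K), 0 ≤ w y := fun w y => apply_nonneg w y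
  have hnonV : ∀ (v : FinitePlace K) (y : K), 0 ≤ v y := fun v y => apply_nonneg v y
  have hlowV : ∀ v : ST, v.1 ∉ S → ∀ j ∈ G, C⁻¹ ≤ prox v.1 (F j) (d j) x := by
    intro v hv j hj
    have h1 := (hVb v x hx j (hne j hj)).2 (by
      rw [if_neg hv]
      exact hc' v.1 hv j hj)
    rw [pow_one] at h1
    exact (hCV' v).trans h1
  have hprodρ : ∀ j ∈ G, ∏ p, ρ j p = 1 / Ht (LF K T) x := by
    intro j hjG
    have h1 : ∏ p, ρ j p = ∏ s, prox (nu (LF K T s)) (F j) (d j) x := by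
      rw [Fintype.prod_sum_type]
      have h2 := hprod (fun s => prox (nu (LF K T s)) (F j) (d j) x)
        (fun w => prox w (F j) (d j) x) (fun v => prox v (F j) (d j) x)
        (fun s => prox_nonneg _ x (fun _ => norm_nonneg _) _ _)
        (fun σ => by
          have h3 : (nu (LF K T (Sum.inl σ)) : K → ℝ) = (InfinitePlace.mk σ : InfinitePlace K) := by
            funext y
            exact (InfinitePlace.apply σ y).symm
          show prox (nu (LF K T (Sum.inl σ))) (F j) (d j) x = _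
          rw [h3])
        (fun s v r hr hs => prox_pow v (nu (LF K T (Sum.inr s))) x r hr (fun y => hs y)
          (fun _ => norm_nonneg _) (F j) (d j))
      rw [h2]
      congr 1
      · exact Finset.prod_congr rfl fun w _ => hρl j w
      · rw [← Finset.prod_coe_sort ST (fun v => prox v (F j) (d j) x)]
        exact Finset.prod_congr rfl fun v _ => hρr j v
    have h4 : ∏ s, prox (nu (LF K T s)) (F j) (d j) x = 1 / Ht (LF K T) x := by
      have h5 : ∀ s, prox (nu (LF K T s)) (F j) (d j) x =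
          ‖algebraMap K (LF K T s) (eval x (F j))‖ ^ ((1 : ℝ) / d j) / nrm (LF K T s) x := by
        intro s
        have h6 : (⨆ k, nu (LF K T s) (x k)) = nrm (LF K T s) x := two_nrm x
        show (‖algebraMap K (LF K T s) (eval x (F j))‖ /
          (⨆ k, nu (LF K T s) (x k)) ^ d j) ^ ((1 : ℝ) / d j) = _
        rw [h6, Real.div_rpow (norm_nonneg _) (pow_nonneg (nrm_nonneg _) _),
          ← Real.rpow_natCast (nrm (LF K T s) x), ← Real.rpow_mul (nrm_nonneg _)]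
        have h7 : ((d j : ℝ)) * (1 / d j) = 1 := by
          have : (d j : ℝ) ≠ 0 := by
            have := hd j
            exact_mod_cast (by omega : d j ≠ 0)
          field_simp
        rw [h7, Real.rpow_one]
      rw [Finset.prod_congr rfl fun s _ => h5 s, Finset.prod_div_distrib]
      rw [Real.finsetProd_rpow _ _ (fun s _ => norm_nonneg _), (hU j hjG).pf, Real.one_rpow]
      rfl
    rw [h1, h4]
  have hmain : ∏ p, δ p ≤ C ^ Fintype.card (InfinitePlace K ⊕ ST) * (1 / Ht (LF K T) x) := by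
    apply runge_pigeon G k s hs C (1 / Ht (LF K T) x) hC1 ρ δ ?_ (fun j hj => (hprodρ j hj).le)
      ?_ ?_ ?_ (W.disjSum (V.subtype (· ∈ ST))) ?_ ?_
    · rintro j hj (w | v)
      · rw [hρl]; exact (hWb w x hx j (hne j hj)).1
      · rw [hρr]
        have h1 := (hVb v x hx j (hne j hj)).1
        rwa [pow_one] at h1
    · rintro (w | v)
      · rw [hδl]; exact pow_nonneg (cdC_nonneg 𝒞 _ F d x (hnonW w)) _
      · rw [hδr]
        split_ifs
        · exact cdC_nonneg 𝒞 _ F d x (hnonV v.1)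
        · positivity
    · rintro (w | v)
      · rw [hδl]
        exact pow_le_one₀ (cdC_nonneg 𝒞 _ F d x (hnonW w)) (cdC_le_one 𝒞 _ F d x)
      · rw [hδr]
        split_ifs
        · exact cdC_le_one 𝒞 _ F d x
        · exact inv_le_one_of_one_le₀ hC1
    · rintro (w | v) I hIG hI
      · have hIne : I.Nonempty := Finset.card_pos.1 (by omega)
        obtain ⟨j, hj, hj1⟩ := cdC_le_prox 𝒞 w F d x (h𝒞 I hIG hI) hIne
        refine ⟨j, hj, ?_⟩
        rw [hδl, hρl]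
        exact pow_le_pow_left₀ (cdC_nonneg 𝒞 _ F d x (hnonW w)) hj1 _
      · have hIne : I.Nonempty := Finset.card_pos.1 (by omega)
        by_cases hv : v.1 ∈ S
        · obtain ⟨j, hj, hj1⟩ := cdC_le_prox 𝒞 v.1 F d x (h𝒞 I hIG hI) hIne
          refine ⟨j, hj, ?_⟩
          rw [hδr, if_pos hv, hρr]
          exact hj1
        · obtain ⟨j, hj⟩ := hIne
          refine ⟨j, hj, ?_⟩
          rw [hδr, if_neg hv, hρr]
          exact hlowV v hv j (hIG hj)
    · rw [Finset.card_disjSum, Finset.card_subtype]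
      exact le_trans (Nat.add_le_add_left (Finset.card_filter_le _ _) _) hWV
    · rintro (w | v) h1 j hj
      · rw [hρl]
        have hwW : w ∉ W := fun h => h1 (Finset.inl_mem_disjSum.2 h)
        exact (hCW' w).trans ((hWb w x hx j (hne j hj)).2 (hWb' w hwW j hj))
      · rw [hρr]
        by_cases hv : v.1 ∈ S
        · have hvV : v.1 ∉ V := fun h =>
            h1 (Finset.inr_mem_disjSum.2 (Finset.mem_subtype.2 h))
          have h3 := (hVb v x hx j (hne j hj)).2 (by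
            rw [if_pos hv]
            exact hVb' v.1 hv hvV j hj)
          rw [pow_one] at h3
          exact (hCV' v).trans h3
        · exact hlowV v hv j hj
  -- remove the factors at the places outside `S`
  have hfin : ∏ p, δ p = ((∏ w : InfinitePlace K, cdC 𝒞 w F d x ^ w.mult) *
      ∏ v ∈ S, cdC 𝒞 v F d x) * (C⁻¹) ^ (ST \ S).card := by
    rw [Fintype.prod_sum_type, mul_assoc]
    congr 1
    · exact Finset.prod_congr rfl fun w _ => hδl w
    · have h1 : ∏ v : ST, δ (Sum.inr v) = ∏ v ∈ ST, if v ∈ S then cdC 𝒞 v F d x else C⁻¹ := by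
        rw [← Finset.prod_coe_sort ST (fun v => if v ∈ S then cdC 𝒞 v F d x else C⁻¹)]
        exact Finset.prod_congr rfl fun v _ => hδr v
      rw [h1, ← Finset.prod_sdiff hSST, mul_comm]
      congr 1
      · exact Finset.prod_congr rfl fun v hv => by rw [if_pos hv]
      · rw [Finset.prod_congr rfl fun v hv => if_neg (Finset.mem_sdiff.1 hv).2, Finset.prod_const]
  rw [hfin] at hmain
  have hCp : 0 < C ^ (ST \ S).card := by positivity
  have h1 := mul_le_mul_of_nonneg_right hmain hCp.le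
  rw [mul_assoc, ← mul_pow, inv_mul_cancel₀ hC0.ne', one_pow, mul_one] at h1
  calc _ ≤ _ := h1
    _ = C ^ Fintype.card (InfinitePlace K ⊕ ST) * C ^ (ST \ S).card / Ht (LF K T) x := by ring

end Pool.Agent.Helper38.TN
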