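import Pool.Agent.Helper38.TN.RungeG

/-!
# Points near the divisor: the pigeonhole form, counting

`G` is a set of indices all of whose subsets with `k + 1` elements belong to `𝒞`. Let `n_v` be the
number of the `i ∈ G` with `prox < c₀` at the place `v`. If the sum over the places of `S` and
infinity of `min k n_v` is less than `card G`, then some `i ∈ G` has `c₀ cdC ≤ prox` at all these
places, and the product of the `prox` of `F i` is `1 / Ht x`.
-/

set_option autoImplicit false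

namespace Pool.Agent.Helper38.TN

open Pool.Agent.Helper38.TP Pool.Agent.Helper85.Sub Pool.Agent.Helper85.RC
open Pool.Agent.Helper10.Sub NumberField MvPolynomial

theorem runge_count {P : Type} [Fintype P] {n : ℕ} (G : Finset (Fin (n + 1))) (k : ℕ) (c : ℝ)
    (hc : 0 < c) (hc1 : c ≤ 1) (p : Fin (n + 1) → P → ℝ) (δ : P → ℝ) (hδ : ∀ v, 0 ≤ δ v)
    (hδ1 : ∀ v, δ v ≤ 1)
    (hI : ∀ v, ∀ I : Finset (Fin (n + 1)), I ⊆ G → I.card = k + 1 → ∃ i ∈ I, δ v ≤ p i v)
    (hsum : ∑ v, min k (G.filter fun i => p i v < c).card < G.card) :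
    ∃ i ∈ G, ∀ v, c * δ v ≤ p i v := by
  classical
  obtain ⟨B, hB⟩ : ∃ B : P → Finset (Fin (n + 1)), B = fun v => G.filter fun i => p i v < c * δ v :=
    ⟨_, rfl⟩
  have hBG : ∀ v, B v ⊆ G := fun v => by
    rw [hB]
    exact Finset.filter_subset _ _
  have hBk : ∀ v, (B v).card ≤ k := by
    intro v
    by_contra hcon
    push Not at hcon
    obtain ⟨I, hIB, hIc⟩ := Finset.exists_subset_card_eq (Nat.succ_le_of_lt hcon)
    obtain ⟨i, hi, h⟩ := hI v I (hIB.trans (hBG v)) hIc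
    have h1 := hIB hi
    rw [hB] at h1
    have h2 := (Finset.mem_filter.1 h1).2
    have h3 : c * δ v ≤ 1 * δ v := mul_le_mul_of_nonneg_right hc1 (hδ v)
    linarith
  have hBn : ∀ v, (B v).card ≤ (G.filter fun i => p i v < c).card := by
    intro v
    apply Finset.card_le_card
    intro i hi
    rw [hB] at hi
    obtain ⟨h1, h2⟩ := Finset.mem_filter.1 hi
    refine Finset.mem_filter.2 ⟨h1, ?_⟩
    have h3 : c * δ v ≤ c * 1 := mul_le_mul_of_nonneg_left (hδ1 v) hc.le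
    linarith
  obtain ⟨i, hiG, hi⟩ : ∃ i ∈ G, i ∉ Finset.univ.biUnion B := by
    by_contra hcon
    push Not at hcon
    have h1 : G.card ≤ (Finset.univ.biUnion B).card := Finset.card_le_card fun i hi => hcon i hi
    have h2 : (Finset.univ.biUnion B).card ≤ ∑ v, (B v).card := Finset.card_biUnion_le
    have h3 : ∑ v, (B v).card ≤ ∑ v, min k (G.filter fun i => p i v < c).card :=
      Finset.sum_le_sum fun v _ => le_min (hBk v) (hBn v)
    omega
  refine ⟨i, hiG, fun v => ?_⟩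
  by_contra hcon
  push Not at hcon
  apply hi
  rw [Finset.mem_biUnion]
  refine ⟨v, Finset.mem_univ v, ?_⟩
  rw [hB]
  exact Finset.mem_filter.2 ⟨hiG, hcon⟩

theorem runge_gapH {K : Type} [Field K] [NumberField K] (T : Finset Nat.Primes)
    (Z : MP K (LF K T)) (S : Finset (FinitePlace K))
    (hS : ∀ v ∈ S, ∃ t ∈ T, ((t : ℕ) : 𝓞 K) ∈ v.maximalIdeal.asIdeal) {N n : ℕ}
    (F : Fin (n + 1) → MvPolynomial (Fin (N + 1)) K) (d : Fin (n + 1) → ℕ) (hd : ∀ i, 1 ≤ d i)
    (G : Finset (Fin (n + 1))) (k : ℕ) (𝒞 : Set (Finset (Fin (n + 1))))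
    (h𝒞 : ∀ I : Finset (Fin (n + 1)), I ⊆ G → I.card = k + 1 → I ∈ 𝒞)
    (c : FinitePlace K → ℝ) (hc : ∀ v, 0 < c v) (c₀ : ℝ) (hc₀ : 0 < c₀) :
    ∃ C' : ℝ, 0 ≤ C' ∧ ∀ x : Fin (N + 1) → K, x ≠ 0 → 1 ≤ Ht (LF K T) x →
      (∀ i ∈ G, Z.U (eval x (F i))) →
      (∀ v : FinitePlace K, v ∉ S → ∀ i ∈ G, c v * (⨆ j, v (x j)) ^ d i ≤ v (eval x (F i))) →
      (∑ w : InfinitePlace K, min k (G.filter fun i => prox w (F i) (d i) x < c₀).card) +
        ∑ v ∈ S, min k (G.filter fun i => prox v (F i) (d i) x < c₀).card < G.card →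
      (∏ w : InfinitePlace K, cdC 𝒞 w F d x ^ w.mult) * ∏ v ∈ S, cdC 𝒞 v F d x ≤
        C' / Ht (LF K T) x := by
  classical
  obtain ⟨ST, hST1, -, hST3, hprod⟩ := prod_lam K T
  have hSST : S ⊆ ST := fun v hv => hST1 v (hS v hv)
  have hVloc : ∀ v : ST, ∃ B : ℝ, 1 ≤ B ∧ ∀ x : Fin (N + 1) → K, x ≠ 0 →
      ∀ j, eval x (F j) ≠ 0 → 0 < prox v.1 (F j) (d j) x ^ 1 ∧
      (c v.1 * (⨆ j, v.1 (x j)) ^ d j ≤ v.1 (eval x (F j)) →
        B⁻¹ ≤ prox v.1 (F j) (d j) x ^ 1) := by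
    intro v
    obtain ⟨s, r, hr, hs⟩ := hST3 v.1 v.2
    exact runge_plc (L := LF K T (Sum.inr s)) F d v.1 r (fun y => hs y) 1 _ (hc _)
  choose BV hBV hVb using hVloc
  obtain ⟨C, hCdef⟩ : ∃ C : ℝ, C = 1 + ∑ v, BV v := ⟨_, rfl⟩
  have hsV : 0 ≤ ∑ v, BV v := Finset.sum_nonneg fun v _ => by linarith [hBV v]
  have hC1 : 1 ≤ C := by linarith
  have hC0 : 0 < C := by linarith
  have hCV : ∀ v, BV v ≤ C := fun v => by
    have h1 : BV v ≤ ∑ v, BV v :=
      Finset.single_le_sum (fun v _ => by linarith [hBV v]) (Finset.mem_univ v)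
    linarith
  have hCV' : ∀ v, C⁻¹ ≤ (BV v)⁻¹ := fun v => inv_anti₀ (by linarith [hBV v]) (hCV v)
  obtain ⟨c₁, hc₁def⟩ : ∃ c₁ : ℝ, c₁ = min c₀ 1 := ⟨_, rfl⟩
  have hc₁ : 0 < c₁ := by rw [hc₁def]; exact lt_min hc₀ one_pos
  have hc₁1 : c₁ ≤ 1 := by rw [hc₁def]; exact min_le_right _ _
  have hc₁0 : c₁ ≤ c₀ := by rw [hc₁def]; exact min_le_left _ _
  refine ⟨((∏ w : InfinitePlace K, c₁ ^ w.mult) * c₁ ^ S.card)⁻¹ * C ^ (ST \ S).card,
    by positivity, ?_⟩
  intro x hx hH hU hc' hcount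
  have hne : ∀ i ∈ G, eval x (F i) ≠ 0 := fun i hi => (hU i hi).ne
  have hH0 : 0 < Ht (LF K T) x := by linarith
  have hnonW : ∀ (w : InfinitePlace K) (y : K), 0 ≤ w y := fun w y => apply_nonneg w y
  have hnonV : ∀ (v : FinitePlace K) (y : K), 0 ≤ v y := fun v y => apply_nonneg v y
  -- the functions on the places
  obtain ⟨ρ, hρ⟩ : ∃ ρ : Fin (n + 1) → InfinitePlace K ⊕ ST → ℝ, ρ = fun j =>
    Sum.elim (fun w : InfinitePlace K => prox w (F j) (d j) x ^ w.mult)
      (fun v : ST => prox v.1 (F j) (d j) x) := ⟨_, rfl⟩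
  have hρl : ∀ j (w : InfinitePlace K), ρ j (Sum.inl w) = prox w (F j) (d j) x ^ w.mult :=
    fun j w => by rw [hρ]; rfl
  have hρr : ∀ j (v : ST), ρ j (Sum.inr v) = prox v.1 (F j) (d j) x := fun j v => by rw [hρ]; rfl
  have hlowV : ∀ v : ST, v.1 ∉ S → ∀ j ∈ G, C⁻¹ ≤ prox v.1 (F j) (d j) x := by
    intro v hv j hj
    have h1 := (hVb v x hx j (hne j hj)).2 (hc' v.1 hv j hj)
    rw [pow_one] at h1
    exact (hCV' v).trans h1
  have hprodρ : ∀ j ∈ G, ∏ p, ρ j p = 1 / Ht (LF K T) x := by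
    intro j hjG
    have h1 : ∏ p, ρ j p = ∏ s, prox (nu (LF K T s)) (F j) (d j) x := by
      rw [Fintype.prod_sum_type]
      have h2 := hprod (fun s => prox (nu (LF K T s)) (F j) (d j) x)
        (fun w => prox w (F j) (d j) x) (fun v => prox v (F j) (d j) x)
        (fun s => prox_nonneg _ x (fun _ => norm_nonneg _) _ _)
        (fun σ => by
          have h3 : (nu (LF K T (Sum.inl σ)) : K → ℝ) = (InfinitePlace.mk σ : InfinitePlace K) := by
            funext y
            exact (InfinitePlace.apply σ y).symm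
          show prox (nu (LF K T (Sum.inl σ))) (F j) (d j) x = _
          rw [h3])
        (fun s v r hr hs => prox_pow v (nu (LF K T (Sum.inr s))) x r hr (fun y => hs y)
          (fun _ => norm_nonneg _) (F j) (d j))
      rw [h2]
      congr 1
      · exact Finset.prod_congr rfl fun w _ => hρl j w
      · rw [← Finset.prod_coe_sort ST (fun v => prox v (F j) (d j) x)]
        exact Finset.prod_congr rfl fun v _ => hρr j v
    have h4 : ∏ s, prox (nu (LF K T s)) (F j) (d j) x = 1 / Ht (LF K T) x := by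
      have h5 : ∀ s, prox (nu (LF K T s)) (F j) (d j) x =
          ‖algebraMap K (LF K T s) (eval x (F j))‖ ^ ((1 : ℝ) / d j) / nrm (LF K T s) x := by
        intro s
        have h6 : (⨆ k, nu (LF K T s) (x k)) = nrm (LF K T s) x := two_nrm x
        show (‖algebraMap K (LF K T s) (eval x (F j))‖ /
          (⨆ k, nu (LF K T s) (x k)) ^ d j) ^ ((1 : ℝ) / d j) = _
        rw [h6, Real.div_rpow (norm_nonneg _) (pow_nonneg (nrm_nonneg _) _),
          ← Real.rpow_natCast (nrm (LF K T s) x), ← Real.rpow_mul (nrm_nonneg _)]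
        have h7 : ((d j : ℝ)) * (1 / d j) = 1 := by
          have : (d j : ℝ) ≠ 0 := by
            have := hd j
            exact_mod_cast (by omega : d j ≠ 0)
          field_simp
        rw [h7, Real.rpow_one]
      rw [Finset.prod_congr rfl fun s _ => h5 s, Finset.prod_div_distrib]
      rw [Real.finsetProd_rpow _ _ (fun s _ => norm_nonneg _), (hU j hjG).pf, Real.one_rpow]
      rfl
    rw [h1, h4]
  -- the pigeonhole principle
  obtain ⟨i, hiG, hi⟩ : ∃ i ∈ G, ∀ v : InfinitePlace K ⊕ S,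
      c₁ * Sum.elim (fun w : InfinitePlace K => cdC 𝒞 w F d x) (fun v : S => cdC 𝒞 v.1 F d x) v ≤
        Sum.elim (fun w : InfinitePlace K => prox w (F i) (d i) x)
          (fun v : S => prox v.1 (F i) (d i) x) v := by
    apply runge_count G k c₁ hc₁ hc₁1
      (fun i => Sum.elim (fun w : InfinitePlace K => prox w (F i) (d i) x)
        (fun v : S => prox v.1 (F i) (d i) x))
      (Sum.elim (fun w : InfinitePlace K => cdC 𝒞 w F d x) (fun v : S => cdC 𝒞 v.1 F d x))
    · rintro (w | v)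
      · exact cdC_nonneg 𝒞 _ F d x (hnonW w)
      · exact cdC_nonneg 𝒞 _ F d x (hnonV v.1)
    · rintro (w | v)
      · exact cdC_le_one 𝒞 _ F d x
      · exact cdC_le_one 𝒞 _ F d x
    · rintro (w | v) I hIG hI
      · exact cdC_le_prox 𝒞 w F d x (h𝒞 I hIG hI) (Finset.card_pos.1 (by omega))
      · exact cdC_le_prox 𝒞 v.1 F d x (h𝒞 I hIG hI) (Finset.card_pos.1 (by omega))
    · refine lt_of_le_of_lt ?_ hcount
      rw [Fintype.sum_sum_type]
      apply add_le_add
      · apply Finset.sum_le_sum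
        intro w _
        refine min_le_min_left _ (Finset.card_le_card ?_)
        intro j hj
        obtain ⟨h1, h2⟩ := Finset.mem_filter.1 hj
        exact Finset.mem_filter.2 ⟨h1, lt_of_lt_of_le h2 hc₁0⟩
      · rw [← Finset.sum_coe_sort S (fun v => min k
          (G.filter fun i => prox v (F i) (d i) x < c₀).card)]
        apply Finset.sum_le_sum
        intro v _
        refine min_le_min_left _ (Finset.card_le_card ?_)
        intro j hj
        obtain ⟨h1, h2⟩ := Finset.mem_filter.1 hj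
        exact Finset.mem_filter.2 ⟨h1, lt_of_lt_of_le h2 hc₁0⟩
  obtain ⟨δ, hδ⟩ : ∃ δ : InfinitePlace K ⊕ ST → ℝ, δ =
    Sum.elim (fun w : InfinitePlace K => (c₁ * cdC 𝒞 w F d x) ^ w.mult)
      (fun v : ST => if v.1 ∈ S then c₁ * cdC 𝒞 v.1 F d x else C⁻¹) := ⟨_, rfl⟩
  have hδl : ∀ w : InfinitePlace K, δ (Sum.inl w) = (c₁ * cdC 𝒞 w F d x) ^ w.mult :=
    fun w => by rw [hδ]; rfl
  have hδr : ∀ v : ST, δ (Sum.inr v) = if v.1 ∈ S then c₁ * cdC 𝒞 v.1 F d x else C⁻¹ :=
    fun v => by rw [hδ]; rfl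
  have hmain : ∏ p, δ p ≤ 1 / Ht (LF K T) x := by
    rw [← hprodρ i hiG]
    apply Finset.prod_le_prod
    · rintro (w | v) _
      · rw [hδl]
        exact pow_nonneg (mul_nonneg hc₁.le (cdC_nonneg 𝒞 _ F d x (hnonW w))) _
      · rw [hδr]
        split_ifs
        · exact mul_nonneg hc₁.le (cdC_nonneg 𝒞 _ F d x (hnonV v.1))
        · positivity
    · rintro (w | v) _
      · rw [hδl, hρl]
        exact pow_le_pow_left₀ (mul_nonneg hc₁.le (cdC_nonneg 𝒞 _ F d x (hnonW w)))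
          (hi (Sum.inl w)) _
      · rw [hδr, hρr]
        split_ifs with hv
        · exact hi (Sum.inr ⟨v.1, hv⟩)
        · exact hlowV v hv i hiG
  -- remove the constants and the factors at the places outside `S`
  have hfin : ∏ p, δ p = ((∏ w : InfinitePlace K, c₁ ^ w.mult) * c₁ ^ S.card) *
      ((∏ w : InfinitePlace K, cdC 𝒞 w F d x ^ w.mult) *
      ∏ v ∈ S, cdC 𝒞 v F d x) * (C⁻¹) ^ (ST \ S).card := by
    rw [Fintype.prod_sum_type]
    have h1 : ∏ w : InfinitePlace K, δ (Sum.inl w) = (∏ w : InfinitePlace K, c₁ ^ w.mult) *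
        ∏ w : InfinitePlace K, cdC 𝒞 w F d x ^ w.mult := by
      rw [← Finset.prod_mul_distrib]
      exact Finset.prod_congr rfl fun w _ => by rw [hδl, mul_pow]
    have h2 : ∏ v : ST, δ (Sum.inr v) = c₁ ^ S.card * (∏ v ∈ S, cdC 𝒞 v F d x) *
        (C⁻¹) ^ (ST \ S).card := by
      have h3 : ∏ v : ST, δ (Sum.inr v) =
          ∏ v ∈ ST, if v ∈ S then c₁ * cdC 𝒞 v F d x else C⁻¹ := by
        rw [← Finset.prod_coe_sort ST (fun v => if v ∈ S then c₁ * cdC 𝒞 v F d x else C⁻¹)]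
        exact Finset.prod_congr rfl fun v _ => hδr v
      rw [h3, ← Finset.prod_sdiff hSST, mul_comm]
      congr 1
      · rw [Finset.prod_congr rfl fun v hv => if_pos hv, Finset.prod_mul_distrib,
          Finset.prod_const]
      · rw [Finset.prod_congr rfl fun v hv => if_neg (Finset.mem_sdiff.1 hv).2, Finset.prod_const]
    rw [h1, h2]
    ring
  rw [hfin] at hmain
  have hCp : 0 < C ^ (ST \ S).card := by positivity
  have hcp : 0 < (∏ w : InfinitePlace K, c₁ ^ w.mult) * c₁ ^ S.card := by positivity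
  have h1 := mul_le_mul_of_nonneg_right hmain hCp.le
  rw [mul_assoc, ← mul_pow, inv_mul_cancel₀ hC0.ne', one_pow, mul_one] at h1
  have h2 := mul_le_mul_of_nonneg_left h1 (inv_pos.2 hcp).le
  rw [← mul_assoc, inv_mul_cancel₀ hcp.ne', one_mul] at h2
  calc _ ≤ _ := h2
    _ = ((∏ w : InfinitePlace K, c₁ ^ w.mult) * c₁ ^ S.card)⁻¹ * C ^ (ST \ S).card /
        Ht (LF K T) x := by ring

end Pool.Agent.Helper38.TN
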