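import Mathlib

/-!
# The real estimate: Runge's condition with `m - 1`

Plan (multiplicative form of helper10's argument). Every `ρ j v` is at least `c / H`
(`c = C⁻¹ * C⁻¹ ^ (card P)`), because `∏ v, ρ j v ≥ C⁻¹ / H` and the other factors are at most `C`.
Let `v ∈ W` and `B = {j | ρ j v < C⁻¹}`; then `card B ≤ m`. If `card B = m`, some `j₀ ∈ B` has
`δ v ≤ ρ j₀ v`, so `∏ j, ρ j v ≥ C⁻¹ ^ (n + 1) * δ v * (c / H) ^ (m - 1)`; if `card B < m`, then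
`∏ j, ρ j v ≥ C⁻¹ ^ (n + 1) * (c / H) ^ (m - 1)` (as `c / H ≤ 1`), which is at least the same as
`δ v ≤ 1`. For `v ∉ W`: `∏ j, ρ j v ≥ C⁻¹ ^ (n + 1) * δ v`. Multiply over `v`:
`∏ j, ∏ v, ρ j v ≥ c' * (∏ v, δ v) * H ^ (-(s * (m - 1)))` (`card W ≤ s`, `H ≥ 1`), and
`∏ j, ∏ v, ρ j v ≤ (C / H) ^ (n + 1)`; as `s * (m - 1) ≤ n`, `∏ v, δ v ≤ C' / H`.
-/

set_option autoImplicit false

namespace Pool.Agent.Helper38.TN

/-- every factor is at least `c / H` -/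
theorem RungeReal_low {P : Type} [Fintype P] [DecidableEq P] {C H : ℝ} (hC : 1 ≤ C) {r : P → ℝ}
    (h0 : ∀ v, 0 < r v) (h1 : ∀ v, r v ≤ C) (h2 : C⁻¹ / H ≤ ∏ v, r v) (v : P) :
    C⁻¹ * C⁻¹ ^ Fintype.card P / H ≤ r v := by
  have hC0 : 0 < C := by linarith
  have h3 : ∏ w, r w = r v * ∏ w ∈ Finset.univ.erase v, r w :=
    (Finset.mul_prod_erase _ _ (Finset.mem_univ v)).symm
  have h4 : ∏ w ∈ Finset.univ.erase v, r w ≤ ∏ w ∈ Finset.univ.erase v, C :=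
    Finset.prod_le_prod (fun w _ => (h0 w).le) (fun w _ => h1 w)
  rw [Finset.prod_const] at h4
  have h5 : C ^ (Finset.univ.erase v).card ≤ C ^ Fintype.card P :=
    pow_le_pow_right₀ hC (by
      rw [← Finset.card_univ]
      exact Finset.card_le_card (Finset.erase_subset _ _))
  have h6 : C⁻¹ / H ≤ r v * C ^ Fintype.card P := by
    rw [h3] at h2
    exact h2.trans (mul_le_mul_of_nonneg_left (h4.trans h5) (h0 v).le)
  have h7 : 0 < C ^ Fintype.card P := by positivity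
  have h8 : C⁻¹ * C⁻¹ ^ Fintype.card P / H = C⁻¹ / H * (C ^ Fintype.card P)⁻¹ := by
    rw [inv_pow]
    ring
  rw [h8]
  exact (mul_inv_le_iff₀ h7).2 h6

/-- the product at one place -/
theorem RungeReal_place {n m : ℕ} {a c δ : ℝ} (ha : 0 < a) (ha1 : a ≤ 1) (hc : 0 < c)
    (hc1 : c ≤ 1) (hδ : 0 ≤ δ) (hδ1 : δ ≤ 1) {g : Fin (n + 1) → ℝ} (hg : ∀ j, c ≤ g j)
    (h1 : ∀ I : Finset (Fin (n + 1)), I.card = m + 1 → ∃ i ∈ I, a ≤ g i)
    (h2 : ∀ I : Finset (Fin (n + 1)), I.card = m → ∃ i ∈ I, δ ≤ g i) :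
    a ^ (n + 1) * δ * c ^ (m - 1) ≤ ∏ j, g j := by
  classical
  obtain ⟨B, hB⟩ : ∃ B : Finset (Fin (n + 1)), B = Finset.univ.filter (fun j => g j < a) :=
    ⟨_, rfl⟩
  have hBm : B.card ≤ m := by
    by_contra h
    have h3 : m + 1 ≤ B.card := by omega
    obtain ⟨I, hI, hIc⟩ := Finset.exists_subset_card_eq h3
    obtain ⟨i, hi, hi1⟩ := h1 I hIc
    have h4 := hI hi
    rw [hB] at h4
    have h5 := (Finset.mem_filter.1 h4).2
    linarith
  have hg0 : ∀ j, 0 ≤ g j := fun j => hc.le.trans (hg j)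
  have hcompl : a ^ (n + 1) ≤ ∏ j ∈ Bᶜ, g j := by
    have h3 : (Bᶜ).card ≤ n + 1 := by simpa using Finset.card_le_univ Bᶜ
    calc a ^ (n + 1) ≤ a ^ (Bᶜ).card := pow_le_pow_of_le_one ha.le ha1 h3
      _ = ∏ _j ∈ Bᶜ, a := by rw [Finset.prod_const]
      _ ≤ _ := Finset.prod_le_prod (fun _ _ => ha.le) (fun j hj => by
        rw [hB] at hj
        simpa using hj)
  have hBprod : δ * c ^ (m - 1) ≤ ∏ j ∈ B, g j := by
    rcases hBm.lt_or_eq with h | h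
    · calc δ * c ^ (m - 1) ≤ 1 * c ^ (m - 1) :=
            mul_le_mul_of_nonneg_right hδ1 (by positivity)
        _ = c ^ (m - 1) := one_mul _
        _ ≤ c ^ B.card := pow_le_pow_of_le_one hc.le hc1 (by omega)
        _ = ∏ _j ∈ B, c := by rw [Finset.prod_const]
        _ ≤ _ := Finset.prod_le_prod (fun _ _ => hc.le) (fun j _ => hg j)
    · obtain ⟨i, hi, hi1⟩ := h2 B h
      rw [← Finset.mul_prod_erase B g hi]
      have h3 : c ^ (m - 1) ≤ ∏ j ∈ B.erase i, g j := by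
        calc c ^ (m - 1) = ∏ _j ∈ B.erase i, c := by
              rw [Finset.prod_const, Finset.card_erase_of_mem hi, h]
          _ ≤ _ := Finset.prod_le_prod (fun _ _ => hc.le) (fun j _ => hg j)
      exact mul_le_mul hi1 h3 (by positivity) (hg0 i)
  rw [← Finset.prod_mul_prod_compl B g]
  calc a ^ (n + 1) * δ * c ^ (m - 1) = (δ * c ^ (m - 1)) * a ^ (n + 1) := by ring
    _ ≤ (∏ j ∈ B, g j) * ∏ j ∈ Bᶜ, g j :=
      mul_le_mul hBprod hcompl (by positivity) (Finset.prod_nonneg fun j _ => hg0 j)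

theorem runge_real {P : Type} [Fintype P] [DecidableEq P] {n : ℕ} (m s : ℕ) (hm1 : 1 ≤ m)
    (hs : s * (m - 1) < n + 1) (C : ℝ) (hC : 1 ≤ C) :
    ∃ C' : ℝ, 0 ≤ C' ∧ ∀ (ρ : Fin (n + 1) → P → ℝ) (δ : P → ℝ) (H : ℝ), 1 ≤ H →
      (∀ j v, 0 < ρ j v) → (∀ j v, ρ j v ≤ C) → (∀ j, ∏ v, ρ j v ≤ C / H) →
      (∀ j, C⁻¹ / H ≤ ∏ v, ρ j v) →
      (∀ v, ∀ I : Finset (Fin (n + 1)), I.card = m + 1 → ∃ i ∈ I, C⁻¹ ≤ ρ i v) →
      (∀ v, 0 ≤ δ v) → (∀ v, δ v ≤ 1) →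
      (∀ v, ∀ I : Finset (Fin (n + 1)), I.card = m → ∃ i ∈ I, δ v ≤ ρ i v) →
      (∃ W : Finset P, W.card ≤ s ∧ ∀ v, v ∉ W → ∀ j, C⁻¹ ≤ ρ j v) →
      ∏ v, δ v ≤ C' / H := by
  have hC0 : 0 < C := by linarith
  have hCi : 0 < C⁻¹ := by positivity
  have hCi1 : C⁻¹ ≤ 1 := inv_le_one_of_one_le₀ hC
  obtain ⟨c0, hc0⟩ : ∃ c0 : ℝ, c0 = C⁻¹ * C⁻¹ ^ Fintype.card P := ⟨_, rfl⟩
  have hc0p : 0 < c0 := by
    rw [hc0]
    positivity
  have hc01 : c0 ≤ 1 := by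
    rw [hc0]
    exact mul_le_one₀ hCi1 (by positivity) (pow_le_one₀ hCi.le hCi1)
  obtain ⟨A, hA⟩ : ∃ A : ℝ, A = (C⁻¹ ^ (n + 1)) ^ Fintype.card P * c0 ^ (s * (m - 1)) := ⟨_, rfl⟩
  have hAp : 0 < A := by
    rw [hA]
    positivity
  refine ⟨C ^ (n + 1) / A, by positivity, ?_⟩
  intro ρ δ H hH h0 h1 h2 h3 h4 h5 h6 h7 h8
  obtain ⟨W, hWs, hW⟩ := h8
  have hH0 : 0 < H := by linarith
  obtain ⟨c, hc⟩ : ∃ c : ℝ, c = c0 / H := ⟨_, rfl⟩
  have hcp : 0 < c := by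
    rw [hc]
    positivity
  have hc1 : c ≤ 1 := by
    rw [hc, div_le_one hH0]
    linarith
  have hlow : ∀ j v, c ≤ ρ j v := by
    intro j v
    rw [hc, hc0]
    exact RungeReal_low hC (h0 j) (h1 j) (h3 j) v
  -- one place
  have hv : ∀ v, C⁻¹ ^ (n + 1) * δ v * (if v ∈ W then c ^ (m - 1) else 1) ≤ ∏ j, ρ j v := by
    intro v
    split_ifs with hvW
    · exact RungeReal_place hCi hCi1 hcp hc1 (h5 v) (h6 v) (fun j => hlow j v) (h4 v) (h7 v)
    · calc C⁻¹ ^ (n + 1) * δ v * 1 ≤ C⁻¹ ^ (n + 1) * 1 * 1 := by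
            have := h6 v
            gcongr
        _ = ∏ _j : Fin (n + 1), C⁻¹ := by
            rw [Finset.prod_const, Finset.card_univ, Fintype.card_fin, mul_one, mul_one]
        _ ≤ _ := Finset.prod_le_prod (fun _ _ => hCi.le) (fun j _ => hW v hvW j)
  -- all places
  have hall : (C⁻¹ ^ (n + 1)) ^ Fintype.card P * (∏ v, δ v) * c ^ (s * (m - 1)) ≤
      ∏ v, ∏ j, ρ j v := by
    calc (C⁻¹ ^ (n + 1)) ^ Fintype.card P * (∏ v, δ v) * c ^ (s * (m - 1))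
        ≤ (C⁻¹ ^ (n + 1)) ^ Fintype.card P * (∏ v, δ v) * (c ^ (m - 1)) ^ W.card := by
          have h9 : c ^ (s * (m - 1)) ≤ (c ^ (m - 1)) ^ W.card := by
            rw [← pow_mul]
            refine pow_le_pow_of_le_one hcp.le hc1 ?_
            rw [mul_comm (m - 1)]
            exact Nat.mul_le_mul_right _ hWs
          have h10 : 0 ≤ ∏ v, δ v := Finset.prod_nonneg fun v _ => h5 v
          gcongr
      _ = ∏ v, (C⁻¹ ^ (n + 1) * δ v * (if v ∈ W then c ^ (m - 1) else 1)) := by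
          rw [Finset.prod_mul_distrib, Finset.prod_mul_distrib, Finset.prod_const,
            Finset.card_univ]
          congr 1
          rw [Finset.prod_ite_mem, Finset.univ_inter, Finset.prod_const]
      _ ≤ _ := Finset.prod_le_prod (fun v _ => by
          have := h5 v
          split_ifs <;> positivity) (fun v _ => hv v)
  have hup : ∏ v, ∏ j, ρ j v ≤ (C / H) ^ (n + 1) := by
    rw [Finset.prod_comm]
    calc ∏ j, ∏ v, ρ j v ≤ ∏ _j : Fin (n + 1), C / H :=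
          Finset.prod_le_prod (fun j _ => Finset.prod_nonneg fun v _ => (h0 j v).le)
            (fun j _ => h2 j)
      _ = _ := by rw [Finset.prod_const, Finset.card_univ, Fintype.card_fin]
  have h9 := hall.trans hup
  have h10 : c ^ (s * (m - 1)) = c0 ^ (s * (m - 1)) / H ^ (s * (m - 1)) := by
    rw [hc, div_pow]
  rw [h10] at h9
  have h11 : A * (∏ v, δ v) / H ^ (s * (m - 1)) ≤ C ^ (n + 1) / H ^ (n + 1) := by
    rw [← div_pow C H]
    refine le_trans (le_of_eq ?_) h9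
    rw [hA]
    ring
  have h12 : H ^ (s * (m - 1)) * H ≤ H ^ (n + 1) := by
    rw [← pow_succ]
    exact pow_le_pow_right₀ hH (by omega)
  rw [div_le_div_iff₀ (by positivity) (by positivity)] at h11
  rw [div_div, le_div_iff₀ (by positivity)]
  have hP : 0 ≤ ∏ v, δ v := Finset.prod_nonneg fun v _ => h5 v
  have h13 : A * (∏ v, δ v) * (H ^ (s * (m - 1)) * H) ≤ C ^ (n + 1) * H ^ (s * (m - 1)) := by
    refine le_trans ?_ h11
    gcongr
  have h14 : 0 < H ^ (s * (m - 1)) := by positivity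
  nlinarith [h13, h14]

end Pool.Agent.Helper38.TN
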