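import Pool.Agent.Helper38.TN.TwoN
import Pool.Agent.Helper38.TN.RungeReal

/-!
# Points near the divisor at `s` places at most

Adapt `two_gapN` (`TwoN.lean`): `runge_real` instead of `two_realN`; the additional hypothesis
`C⁻¹ / H ≤ ∏ v, ρ j v` holds because the product is exactly `1 / Ht x`; the set `W` of places in
`runge_real` is the disjoint sum of `W` and `V` (restricted to `ST`), of cardinality at most `s`.
-/

set_option autoImplicit false

namespace Pool.Agent.Helper38.TN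

open Pool.Agent.Helper38.TP Pool.Agent.Helper85.Sub Pool.Agent.Helper85.RC
open Pool.Agent.Helper10.Sub NumberField MvPolynomial

theorem runge_gapN {K : Type} [Field K] [NumberField K] (T : Finset Nat.Primes)
    (Z : MP K (LF K T)) (S : Finset (FinitePlace K))
    (hS : ∀ v ∈ S, ∃ t ∈ T, ((t : ℕ) : 𝓞 K) ∈ v.maximalIdeal.asIdeal) {N n : ℕ}
    (J₀ : Set (MvPolynomial (Fin (N + 1)) K)) (hJ₀ : ∀ f ∈ J₀, ∃ e, f.IsHomogeneous e)
    (F : Fin (n + 1) → MvPolynomial (Fin (N + 1)) K) (d : Fin (n + 1) → ℕ) (hd : ∀ i, 1 ≤ d i)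
    (hF : ∀ i, (F i).IsHomogeneous (d i)) (m s : ℕ) (hm1 : 1 ≤ m)
    (hs : s * (m - 1) < n + 1)
    (hempty : ∀ s, ∀ I : Finset (Fin (n + 1)), I.card = m + 1 → ∀ A : Fin (N + 1) → LF K T s,
      OnV J₀ A → (∀ i ∈ I, aeval A (F i) = 0) → A = 0)
    (𝒞 : Set (Finset (Fin (n + 1)))) (h𝒞 : ∀ I : Finset (Fin (n + 1)), I.card = m → I ∈ 𝒞)
    (c : FinitePlace K → ℝ) (hc : ∀ v, 0 < c v) (c₀ : ℝ) (hc₀ : 0 < c₀) :
    ∃ C' : ℝ, 0 ≤ C' ∧ ∀ x : Fin (N + 1) → K, x ≠ 0 → OnV J₀ x → 1 ≤ Ht (LF K T) x →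
      (∀ i, Z.U (eval x (F i))) →
      (∀ v : FinitePlace K, v ∉ S → ∀ i, c v * (⨆ j, v (x j)) ^ d i ≤ v (eval x (F i))) →
      (∃ (W : Finset (InfinitePlace K)) (V : Finset (FinitePlace K)), W.card + V.card ≤ s ∧
        (∀ w : InfinitePlace K, w ∉ W → ∀ i, c₀ * (⨆ j, w (x j)) ^ d i ≤ w (eval x (F i))) ∧
        ∀ v ∈ S, v ∉ V → ∀ i, c₀ * (⨆ j, v (x j)) ^ d i ≤ v (eval x (F i))) →
      (∏ w : InfinitePlace K, cdC 𝒞 w F d x ^ w.mult) * ∏ v ∈ S, cdC 𝒞 v F d x ≤
        C' / Ht (LF K T) x := by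
  classical
  obtain ⟨ST, hST1, -, hST3, hprod⟩ := prod_lam K T
  have hSST : S ⊆ ST := fun v hv => hST1 v (hS v hv)
  -- the places
  have hw : ∀ w : InfinitePlace K, ∀ y, w y = nu (LF K T (Sum.inl w.embedding)) y ^ 1 := by
    intro w y
    rw [pow_one]
    exact (InfinitePlace.norm_embedding_eq w y).symm
  have hWloc : ∀ w : InfinitePlace K, ∃ B : ℝ, 1 ≤ B ∧ ∀ x : Fin (N + 1) → K, x ≠ 0 →
      OnV J₀ x → (∀ i, eval x (F i) ≠ 0) →
      (∀ j, 0 < prox w (F j) (d j) x ^ w.mult) ∧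
      (∀ j, prox w (F j) (d j) x ^ w.mult ≤ B) ∧
      (∀ I : Finset (Fin (n + 1)), I.card = m + 1 →
        ∃ i ∈ I, B⁻¹ ≤ prox w (F i) (d i) x ^ w.mult) ∧
      ((∀ i, c₀ * (⨆ j, w (x j)) ^ d i ≤ w (eval x (F i))) →
        ∀ j, B⁻¹ ≤ prox w (F j) (d j) x ^ w.mult) := fun w =>
    two_plcN (L := LF K T (Sum.inl w.embedding)) J₀ hJ₀ F d hF m (hempty _) w 1 one_ne_zero (hw w)
      w.mult c₀ hc₀
  have hVloc : ∀ v : ST, ∃ B : ℝ, 1 ≤ B ∧ ∀ x : Fin (N + 1) → K, x ≠ 0 →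
      OnV J₀ x → (∀ i, eval x (F i) ≠ 0) →
      (∀ j, 0 < prox v.1 (F j) (d j) x ^ 1) ∧
      (∀ j, prox v.1 (F j) (d j) x ^ 1 ≤ B) ∧
      (∀ I : Finset (Fin (n + 1)), I.card = m + 1 →
        ∃ i ∈ I, B⁻¹ ≤ prox v.1 (F i) (d i) x ^ 1) ∧
      ((∀ i, (if v.1 ∈ S then c₀ else c v.1) * (⨆ j, v.1 (x j)) ^ d i ≤ v.1 (eval x (F i))) →
        ∀ j, B⁻¹ ≤ prox v.1 (F j) (d j) x ^ 1) := by
    intro v
    obtain ⟨s, r, hr, hs⟩ := hST3 v.1 v.2
    exact two_plcN (L := LF K T (Sum.inr s)) J₀ hJ₀ F d hF m (hempty _) v.1 r hr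
      (fun y => hs y) 1 _ (by split_ifs; exacts [hc₀, hc _])
  choose BW hBW hWb using hWloc
  choose BV hBV hVb using hVloc
  obtain ⟨C, hCdef⟩ : ∃ C : ℝ, C = 1 + ∑ w, BW w + ∑ v, BV v := ⟨_, rfl⟩
  have hsW : 0 ≤ ∑ w, BW w := Finset.sum_nonneg fun w _ => by linarith [hBW w]
  have hsV : 0 ≤ ∑ v, BV v := Finset.sum_nonneg fun v _ => by linarith [hBV v]
  have hC1 : 1 ≤ C := by linarith
  have hC0 : 0 < C := by linarith
  have hCW : ∀ w, BW w ≤ C := fun w => by
    have h1 : BW w ≤ ∑ w, BW w :=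
      Finset.single_le_sum (fun w _ => by linarith [hBW w]) (Finset.mem_univ w)
    linarith
  have hCV : ∀ v, BV v ≤ C := fun v => by
    have h1 : BV v ≤ ∑ v, BV v :=
      Finset.single_le_sum (fun v _ => by linarith [hBV v]) (Finset.mem_univ v)
    linarith
  have hCW' : ∀ w, C⁻¹ ≤ (BW w)⁻¹ := fun w => inv_anti₀ (by linarith [hBW w]) (hCW w)
  have hCV' : ∀ v, C⁻¹ ≤ (BV v)⁻¹ := fun v => inv_anti₀ (by linarith [hBV v]) (hCV v)
  obtain ⟨C₂, hC₂, hreal⟩ := runge_real (P := InfinitePlace K ⊕ ST) m s hm1 hs C hC1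
  refine ⟨C₂ * C ^ (ST \ S).card, by positivity, ?_⟩
  rintro x hx hOn hH hU hc' ⟨W, V, hWV, hWb', hVb'⟩
  have hne : ∀ i, eval x (F i) ≠ 0 := fun i => (hU i).ne
  have hH0 : 0 < Ht (LF K T) x := by linarith
  -- the functions on the places
  obtain ⟨ρ, hρ⟩ : ∃ ρ : Fin (n + 1) → InfinitePlace K ⊕ ST → ℝ, ρ = fun j =>
    Sum.elim (fun w : InfinitePlace K => prox w (F j) (d j) x ^ w.mult)
      (fun v : ST => prox v.1 (F j) (d j) x) := ⟨_, rfl⟩
  have hρl : ∀ j (w : InfinitePlace K), ρ j (Sum.inl w) = prox w (F j) (d j) x ^ w.mult :=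
    fun j w => by rw [hρ]; rfl
  have hρr : ∀ j (v : ST), ρ j (Sum.inr v) = prox v.1 (F j) (d j) x := fun j v => by rw [hρ]; rfl
  obtain ⟨δ, hδ⟩ : ∃ δ : InfinitePlace K ⊕ ST → ℝ, δ =
    Sum.elim (fun w : InfinitePlace K => cdC 𝒞 w F d x ^ w.mult)
      (fun v : ST => if v.1 ∈ S then cdC 𝒞 v.1 F d x else C⁻¹) := ⟨_, rfl⟩
  have hδl : ∀ w : InfinitePlace K, δ (Sum.inl w) = cdC 𝒞 w F d x ^ w.mult :=
    fun w => by rw [hδ]; rfl
  have hδr : ∀ v : ST, δ (Sum.inr v) = if v.1 ∈ S then cdC 𝒞 v.1 F d x else C⁻¹ :=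
    fun v => by rw [hδ]; rfl
  have hnonW : ∀ (w : InfinitePlace K) (y : K), 0 ≤ w y := fun w y => apply_nonneg w y
  have hnonV : ∀ (v : FinitePlace K) (y : K), 0 ≤ v y := fun v y => apply_nonneg v y
  have hlowV : ∀ v : ST, v.1 ∉ S → ∀ j, C⁻¹ ≤ prox v.1 (F j) (d j) x := by
    intro v hv j
    have h1 := (hVb v x hx hOn hne).2.2.2 (by
      intro i
      rw [if_neg hv]
      exact hc' v.1 hv i) j
    rw [pow_one] at h1
    exact (hCV' v).trans h1
  have hprodρ : ∀ j, ∏ p, ρ j p = 1 / Ht (LF K T) x := by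
    intro j
    have h1 : ∏ p, ρ j p = ∏ s, prox (nu (LF K T s)) (F j) (d j) x := by
      rw [Fintype.prod_sum_type]
      have h2 := hprod (fun s => prox (nu (LF K T s)) (F j) (d j) x)
        (fun w => prox w (F j) (d j) x) (fun v => prox v (F j) (d j) x)
        (fun s => prox_nonneg _ x (fun _ => norm_nonneg _) _ _)
        (fun σ => by
          have h3 : (nu (LF K T (Sum.inl σ)) : K → ℝ) = (InfinitePlace.mk σ : InfinitePlace K) := by
            funext y
            exact (InfinitePlace.apply σ y).symm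
          show prox (nu (LF K T (Sum.inl σ))) (F j) (d j) x = _
          rw [h3])
        (fun s v r hr hs => prox_pow v (nu (LF K T (Sum.inr s))) x r hr (fun y => hs y)
          (fun _ => norm_nonneg _) (F j) (d j))
      rw [h2]
      congr 1
      · exact Finset.prod_congr rfl fun w _ => hρl j w
      · rw [← Finset.prod_coe_sort ST (fun v => prox v (F j) (d j) x)]
        exact Finset.prod_congr rfl fun v _ => hρr j v
    have h4 : ∏ s, prox (nu (LF K T s)) (F j) (d j) x = 1 / Ht (LF K T) x := by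
      have h5 : ∀ s, prox (nu (LF K T s)) (F j) (d j) x =
          ‖algebraMap K (LF K T s) (eval x (F j))‖ ^ ((1 : ℝ) / d j) / nrm (LF K T s) x := by
        intro s
        have h6 : (⨆ k, nu (LF K T s) (x k)) = nrm (LF K T s) x := two_nrm x
        show (‖algebraMap K (LF K T s) (eval x (F j))‖ /
          (⨆ k, nu (LF K T s) (x k)) ^ d j) ^ ((1 : ℝ) / d j) = _
        rw [h6, Real.div_rpow (norm_nonneg _) (pow_nonneg (nrm_nonneg _) _),
          ← Real.rpow_natCast (nrm (LF K T s) x), ← Real.rpow_mul (nrm_nonneg _)]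
        have h7 : ((d j : ℝ)) * (1 / d j) = 1 := by
          have : (d j : ℝ) ≠ 0 := by
            have := hd j
            exact_mod_cast (by omega : d j ≠ 0)
          field_simp
        rw [h7, Real.rpow_one]
      rw [Finset.prod_congr rfl fun s _ => h5 s, Finset.prod_div_distrib]
      rw [Real.finsetProd_rpow _ _ (fun s _ => norm_nonneg _), (hU j).pf, Real.one_rpow]
      rfl
    rw [h1, h4]
  have hmain : ∏ p, δ p ≤ C₂ / Ht (LF K T) x := by
    apply hreal ρ δ (Ht (LF K T) x) hH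
    · rintro j (w | v)
      · rw [hρl]; exact (hWb w x hx hOn hne).1 j
      · rw [hρr]
        have h1 := (hVb v x hx hOn hne).1 j
        rwa [pow_one] at h1
    · rintro j (w | v)
      · rw [hρl]; exact ((hWb w x hx hOn hne).2.1 j).trans (hCW w)
      · rw [hρr]
        have h1 := (hVb v x hx hOn hne).2.1 j
        rw [pow_one] at h1
        exact h1.trans (hCV v)
    · intro j
      rw [hprodρ]
      exact div_le_div_of_nonneg_right hC1 hH0.le
    · intro j
      rw [hprodρ]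
      exact div_le_div_of_nonneg_right (inv_le_one_of_one_le₀ hC1) hH0.le
    · rintro (w | v) I hI
      · obtain ⟨i, hiI, hi⟩ := (hWb w x hx hOn hne).2.2.1 I hI
        exact ⟨i, hiI, by rw [hρl]; exact (hCW' w).trans hi⟩
      · obtain ⟨i, hiI, hi⟩ := (hVb v x hx hOn hne).2.2.1 I hI
        rw [pow_one] at hi
        exact ⟨i, hiI, by rw [hρr]; exact (hCV' v).trans hi⟩
    · rintro (w | v)
      · rw [hδl]; exact pow_nonneg (cdC_nonneg 𝒞 _ F d x (hnonW w)) _
      · rw [hδr]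
        split_ifs
        · exact cdC_nonneg 𝒞 _ F d x (hnonV v.1)
        · positivity
    · rintro (w | v)
      · rw [hδl]
        exact pow_le_one₀ (cdC_nonneg 𝒞 _ F d x (hnonW w)) (cdC_le_one 𝒞 _ F d x)
      · rw [hδr]
        split_ifs
        · exact cdC_le_one 𝒞 _ F d x
        · exact inv_le_one_of_one_le₀ hC1
    · rintro (w | v) I hI
      · have hIne : I.Nonempty := Finset.card_pos.1 (by omega)
        obtain ⟨j, hj, hj1⟩ := cdC_le_prox 𝒞 w F d x (h𝒞 I hI) hIne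
        refine ⟨j, hj, ?_⟩
        rw [hδl, hρl]
        exact pow_le_pow_left₀ (cdC_nonneg 𝒞 _ F d x (hnonW w)) hj1 _
      · have hIne : I.Nonempty := Finset.card_pos.1 (by omega)
        by_cases hv : v.1 ∈ S
        · obtain ⟨j, hj, hj1⟩ := cdC_le_prox 𝒞 v.1 F d x (h𝒞 I hI) hIne
          refine ⟨j, hj, ?_⟩
          rw [hδr, if_pos hv, hρr]
          exact hj1
        · obtain ⟨j, hj⟩ := hIne
          refine ⟨j, hj, ?_⟩
          rw [hδr, if_neg hv, hρr]
          exact hlowV v hv j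
    · -- the places near the divisor
      refine ⟨W.disjSum (V.subtype (· ∈ ST)), ?_, ?_⟩
      · rw [Finset.card_disjSum, Finset.card_subtype]
        exact le_trans (Nat.add_le_add_left (Finset.card_filter_le _ _) _) hWV
      rintro (w | v) h1 j
      · rw [hρl]
        have hwW : w ∉ W := fun h => h1 (Finset.inl_mem_disjSum.2 h)
        exact (hCW' w).trans ((hWb w x hx hOn hne).2.2.2 (hWb' w hwW) j)
      · rw [hρr]
        by_cases hv : v.1 ∈ S
        · have hvV : v.1 ∉ V := fun h => by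
            exact h1 (Finset.inr_mem_disjSum.2 (Finset.mem_subtype.2 h))
          have h3 := (hVb v x hx hOn hne).2.2.2 (by
            intro i
            rw [if_pos hv]
            exact hVb' v.1 hv hvV i) j
          rw [pow_one] at h3
          exact (hCV' v).trans h3
        · exact hlowV v hv j
  -- remove the factors at the places outside `S`
  have hfin : ∏ p, δ p = ((∏ w : InfinitePlace K, cdC 𝒞 w F d x ^ w.mult) *
      ∏ v ∈ S, cdC 𝒞 v F d x) * (C⁻¹) ^ (ST \ S).card := by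
    rw [Fintype.prod_sum_type, mul_assoc]
    congr 1
    · exact Finset.prod_congr rfl fun w _ => hδl w
    · have h1 : ∏ v : ST, δ (Sum.inr v) = ∏ v ∈ ST, if v ∈ S then cdC 𝒞 v F d x else C⁻¹ := by
        rw [← Finset.prod_coe_sort ST (fun v => if v ∈ S then cdC 𝒞 v F d x else C⁻¹)]
        exact Finset.prod_congr rfl fun v _ => hδr v
      rw [h1, ← Finset.prod_sdiff hSST, mul_comm]
      congr 1
      · exact Finset.prod_congr rfl fun v hv => by rw [if_pos hv]
      · rw [Finset.prod_congr rfl fun v hv => if_neg (Finset.mem_sdiff.1 hv).2, Finset.prod_const]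
  rw [hfin] at hmain
  have hCp : 0 < C ^ (ST \ S).card := by positivity
  have h1 := mul_le_mul_of_nonneg_right hmain hCp.le
  rw [mul_assoc, ← mul_pow, inv_mul_cancel₀ hC0.ne', one_pow, mul_one] at h1
  calc _ ≤ _ := h1
    _ = C₂ * C ^ (ST \ S).card / Ht (LF K T) x := by ring

end Pool.Agent.Helper38.TN
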