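import Pool.Agent.Helper38.TN.RungeH

/-!
# Points near the divisor: the counting form under the name used in the assembly
-/

set_option autoImplicit false

namespace Pool.Agent.Helper38.TN

alias runge_gapP := runge_gapH

end Pool.Agent.Helper38.TN
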