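import Mathlib

/-!
# Two active places, any number of components: the real estimate
-/

set_option autoImplicit false

namespace Pool.Agent.Helper38.TN

theorem two_realN {P : Type} [Fintype P] [DecidableEq P] {n : ℕ} (m : ℕ) (hm : m ≤ n)
    (hm2 : 2 * m ≤ n + 2) (C : ℝ) (hC : 1 ≤ C) :
    ∃ C' : ℝ, 0 ≤ C' ∧ ∀ (ρ : Fin (n + 1) → P → ℝ) (δ : P → ℝ) (H : ℝ), 1 ≤ H →
      (∀ j v, 0 < ρ j v) → (∀ j v, ρ j v ≤ C) → (∀ j, ∏ v, ρ j v ≤ C / H) →
      (∀ v, ∀ I : Finset (Fin (n + 1)), I.card = m + 1 → ∃ i ∈ I, C⁻¹ ≤ ρ i v) →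
      (∀ v, 0 ≤ δ v) → (∀ v, δ v ≤ 1) →
      (∀ v, ∀ I : Finset (Fin (n + 1)), I.card = m → ∃ i ∈ I, δ v ≤ ρ i v) →
      (∃ v₁ v₂ : P, ∀ v, v ≠ v₁ → v ≠ v₂ → ∀ j, C⁻¹ ≤ ρ j v) →
      ∏ v, δ v ≤ C' * H ^ (-(1 / 2) : ℝ) := by
  obtain ⟨N, hN⟩ : ∃ N, N = Fintype.card P := ⟨_, rfl⟩
  have hC0 : 0 < C := by linarith
  obtain ⟨B, hB⟩ : ∃ B : ℝ, B = C * C ^ N := ⟨_, rfl⟩
  have hB0 : 0 < B := by rw [hB]; positivity
  refine ⟨Real.sqrt (B * C ^ 2), Real.sqrt_nonneg _, ?_⟩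
  rintro ρ δ H hH hpos hle hprod hex hδ0 hδ1 hδ ⟨v₁, v₂, hv⟩
  have hH0 : 0 < H := by linarith
  have hHr : H ^ (-(1 / 2) : ℝ) = (Real.sqrt H)⁻¹ := by
    rw [Real.rpow_neg hH0.le, Real.sqrt_eq_rpow]
  have hsH : 0 < Real.sqrt H := Real.sqrt_pos.2 hH0
  rw [hHr, ← div_eq_mul_inv]
  have hle1 : ∀ S : Finset P, ∏ v ∈ S, δ v ≤ 1 := fun S =>
    Finset.prod_le_one (fun v _ => hδ0 v) fun v _ => hδ1 v
  rcases le_or_gt H (B * C ^ 2) with hsm | hbig
  · refine (hle1 Finset.univ).trans ?_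
    rw [le_div_iff₀ hsH, one_mul]
    exact Real.sqrt_le_sqrt hsm
  obtain ⟨τ, hτ⟩ : ∃ τ : ℝ, τ = Real.sqrt (B / H) := ⟨_, rfl⟩
  have hτ0 : 0 < τ := by rw [hτ]; exact Real.sqrt_pos.2 (by positivity)
  have hττ : τ * τ = B / H := by rw [hτ]; exact Real.mul_self_sqrt (by positivity)
  have hτC : τ < C⁻¹ := by
    rw [hτ, Real.sqrt_lt' (by positivity), inv_pow, div_lt_iff₀ hH0, inv_mul_eq_div,
      lt_div_iff₀ (by positivity)]
    exact hbig
  have hτ1 : τ ≤ 1 := hτC.le.trans (inv_le_one_of_one_le₀ hC)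
  have hτfin : τ ≤ Real.sqrt (B * C ^ 2) / Real.sqrt H := by
    rw [hτ, Real.sqrt_div hB0.le]
    refine div_le_div_of_nonneg_right (Real.sqrt_le_sqrt ?_) hsH.le
    have : (1:ℝ) ≤ C ^ 2 := one_le_pow₀ hC
    nlinarith
  have hcard : ∀ v, (Finset.univ.filter fun j => ρ j v ≤ τ).card ≤ m := by
    intro v
    by_contra hcon
    obtain ⟨I, hI, hIc⟩ := Finset.exists_subset_card_eq (Nat.succ_le_of_lt (not_le.1 hcon))
    obtain ⟨i, hi, hi'⟩ := hex v I hIc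
    have h1 := (Finset.mem_filter.1 (hI hi)).2
    linarith
  have hlow : ∀ (S : Finset P) (f : P → ℝ), (∀ v ∈ S, C⁻¹ ≤ f v) →
      (C ^ N)⁻¹ ≤ ∏ v ∈ S, f v := by
    intro S f h1
    calc (C ^ N)⁻¹ ≤ (C ^ S.card)⁻¹ := by
          have h2 : C ^ S.card ≤ C ^ N := pow_le_pow_right₀ hC (hN ▸ Finset.card_le_univ S)
          have h3 : 0 < C ^ S.card := by positivity
          exact inv_anti₀ h3 h2
      _ = ∏ _v ∈ S, C⁻¹ := by rw [Finset.prod_const, inv_pow]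
      _ ≤ ∏ v ∈ S, f v := Finset.prod_le_prod (fun _ _ => by positivity) h1
  have hcut : ∀ (j : Fin (n + 1)) (x : ℝ) (S : Finset P), 0 ≤ x → (∀ v ∈ S, C⁻¹ ≤ ρ j v) →
      x * ∏ v ∈ S, ρ j v ≤ C / H → x ≤ τ * τ := by
    intro j x S hx hS h1
    have h2 := (mul_le_mul_of_nonneg_left (hlow S (ρ j) hS) hx).trans h1
    have h5 : (0:ℝ) < C ^ N := by positivity
    have h6 := mul_le_mul_of_nonneg_right h2 h5.le
    rw [mul_assoc, inv_mul_cancel₀ h5.ne', mul_one] at h6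
    rw [hττ, hB]
    calc x ≤ C / H * C ^ N := h6
      _ = C * C ^ N / H := by ring
  by_cases hv12 : v₁ = v₂
  · exfalso
    have h1 := hcard v₁
    have h2 : (Finset.univ.filter fun j => ρ j v₁ ≤ τ) = Finset.univ := by
      refine Finset.filter_true_of_mem fun j _ => ?_
      have h3 := hcut j (ρ j v₁) (Finset.univ.erase v₁) (hpos _ _).le (fun v hv' =>
        hv v (Finset.ne_of_mem_erase hv') (hv12 ▸ Finset.ne_of_mem_erase hv') j) (by
        rw [Finset.mul_prod_erase Finset.univ (ρ j) (Finset.mem_univ v₁)]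
        exact hprod j)
      nlinarith
    rw [h2, Finset.card_univ, Fintype.card_fin] at h1
    omega
  have h12 : v₂ ∈ Finset.univ.erase v₁ := by
    simp only [Finset.mem_erase, Finset.mem_univ, and_true]
    exact fun h => hv12 h.symm
  have hpair : ∀ j, ρ j v₁ * ρ j v₂ ≤ τ * τ := by
    intro j
    refine hcut j _ ((Finset.univ.erase v₁).erase v₂) (mul_pos (hpos _ _) (hpos _ _)).le
      (fun v hv' => ?_) ?_
    · simp only [Finset.mem_erase, Finset.mem_univ, and_true] at hv'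
      exact hv v hv'.2 hv'.1 j
    · rw [mul_assoc, Finset.mul_prod_erase _ (ρ j) h12,
        Finset.mul_prod_erase Finset.univ (ρ j) (Finset.mem_univ v₁)]
      exact hprod j
  have hun : (Finset.univ.filter fun j => ρ j v₁ ≤ τ) ∪ (Finset.univ.filter fun j => ρ j v₂ ≤ τ) =
      Finset.univ := by
    rw [Finset.eq_univ_iff_forall]
    intro j
    simp only [Finset.mem_union, Finset.mem_filter, Finset.mem_univ, true_and]
    by_contra hcon
    push Not at hcon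
    have := mul_lt_mul'' hcon.1 hcon.2 hτ0.le hτ0.le
    exact absurd (hpair j) (not_le.2 this)
  have hsum : n + 1 ≤ (Finset.univ.filter fun j => ρ j v₁ ≤ τ).card +
      (Finset.univ.filter fun j => ρ j v₂ ≤ τ).card := by
    have h1 := Finset.card_union_le (Finset.univ.filter fun j => ρ j v₁ ≤ τ)
      (Finset.univ.filter fun j => ρ j v₂ ≤ τ)
    rw [hun, Finset.card_univ, Fintype.card_fin] at h1
    exact h1
  have hfin : ∀ v, (Finset.univ.filter fun j => ρ j v ≤ τ).card = m → ∏ w, δ w ≤ τ := by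
    intro v hcv
    obtain ⟨i, hi, hi'⟩ := hδ v _ hcv
    have h1 := hi'.trans (Finset.mem_filter.1 hi).2
    rw [← Finset.mul_prod_erase Finset.univ δ (Finset.mem_univ v)]
    calc δ v * ∏ w ∈ Finset.univ.erase v, δ w ≤ τ * 1 :=
          mul_le_mul h1 (hle1 _) (Finset.prod_nonneg fun w _ => hδ0 w) hτ0.le
      _ = τ := mul_one _
  have hc1 := hcard v₁
  have hc2 := hcard v₂
  rcases Nat.lt_or_ge (Finset.univ.filter fun j => ρ j v₁ ≤ τ).card m with h | h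
  · refine (hfin v₂ ?_).trans hτfin
    omega
  · exact (hfin v₁ (le_antisymm hc1 h)).trans hτfin

end Pool.Agent.Helper38.TN
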