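import Pool.Agent.Helper38.TP.Two
import Pool.Agent.Helper38.TN.TwoRealN
import Pool.Agent.Helper38.TN.CDC
import Pool.Agent.Helper10.Sub.ConstJ

/-!
# Points near the divisor at two places at most, any number of components

Adapt `TP/Two.lean` (`two_gap`): `F : Fin (n + 1) → …`, `two_realN` instead of `two_real`,
`cdC 𝒞` instead of `cornerDist` (`cdC_le_prox` gives, for every `I` with `m` elements, some
`i ∈ I` with `cdC ≤ prox`; `m ≥ 1` so that `I` is non-empty), the lower bounds for all `I` with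
`m + 1` elements (`Helper10.Sub.lowerI`-like: `loc0` for the forms `F i`, `i ∈ I`; finitely many
`I`). At the places in `ST \ S` use `1` for the distance (`two_realN` only needs `δ v ≤ 1`, and
there `∃ i ∈ I, δ v ≤ ρ i v` may be arranged with `δ v = C⁻¹` as in `two_gap`); so the product over
`S` and infinity is at most `C ^ card (ST \ S)` times the product over all.
-/

set_option autoImplicit false

namespace Pool.Agent.Helper38.TN

open Pool.Agent.Helper38.TP Pool.Agent.Helper85.Sub Pool.Agent.Helper85.RC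
open Pool.Agent.Helper10.Sub NumberField MvPolynomial

section loc
variable {K : Type} [Field K] {N n : ℕ} {L : Type} [NontriviallyNormedField L]
  [ProperSpace L] [Algebra K L]

/-- Lower bound at a place from the emptiness of the intersection of the components in `I`. -/
lemma lowerIN (J₀ : Set (MvPolynomial (Fin (N + 1)) K)) (hJ₀ : ∀ f ∈ J₀, ∃ e, f.IsHomogeneous e)
    (F : Fin (n + 1) → MvPolynomial (Fin (N + 1)) K) (d : Fin (n + 1) → ℕ)
    (hF : ∀ i, (F i).IsHomogeneous (d i)) (I : Finset (Fin (n + 1)))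
    (hempty : ∀ A : Fin (N + 1) → L, OnV J₀ A → (∀ i ∈ I, aeval A (F i) = 0) → A = 0) :
    ∃ η : ℝ, 0 < η ∧ ∀ x : Fin (N + 1) → K, x ≠ 0 → OnV J₀ x →
      ∃ i ∈ I, η * nrm L x ^ d i ≤ ‖algebraMap K L (eval x (F i))‖ := by
  obtain ⟨η, hη, h⟩ := loc0 (L := L) J₀ hJ₀ (fun i : I => F i) (fun i => d i) (fun i => hF i) (by
    intro A hA hOn
    by_contra hcon
    push Not at hcon
    exact hA (hempty A hOn fun i hi => hcon ⟨i, hi⟩))
  refine ⟨η, hη, fun x hx hxP => ?_⟩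
  obtain ⟨⟨i, hiI⟩, hi⟩ := h (fun k => algebraMap K L (x k)) (by
    intro h0
    apply hx
    funext k
    exact (map_eq_zero_iff _ (algebraMap K L).injective).mp (congrFun h0 k)) (by
    intro f hf
    rw [aeval_alg]
    have := hxP f hf
    rw [aeval_self'] at this
    rw [this, map_zero])
  rw [aeval_alg] at hi
  exact ⟨i, hiI, hi⟩

/-- The bounds at one embedding. -/
lemma two_locN (J₀ : Set (MvPolynomial (Fin (N + 1)) K)) (hJ₀ : ∀ f ∈ J₀, ∃ e, f.IsHomogeneous e)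
    (F : Fin (n + 1) → MvPolynomial (Fin (N + 1)) K) (d : Fin (n + 1) → ℕ)
    (hF : ∀ i, (F i).IsHomogeneous (d i)) (m : ℕ)
    (hempty : ∀ I : Finset (Fin (n + 1)), I.card = m + 1 → ∀ A : Fin (N + 1) → L,
      OnV J₀ A → (∀ i ∈ I, aeval A (F i) = 0) → A = 0) :
    ∃ B : ℝ, 1 ≤ B ∧ ∀ x : Fin (N + 1) → K, x ≠ 0 → OnV J₀ x →
      (∀ j, prox (nu L) (F j) (d j) x ≤ B) ∧
      ∀ I : Finset (Fin (n + 1)), I.card = m + 1 → ∃ i ∈ I, B⁻¹ ≤ prox (nu L) (F i) (d i) x := by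
  classical
  have hlowI : ∀ I : Finset (Fin (n + 1)), ∃ η : ℝ, 0 < η ∧ (I.card = m + 1 →
      ∀ x : Fin (N + 1) → K, x ≠ 0 → OnV J₀ x →
      ∃ i ∈ I, η * nrm L x ^ d i ≤ ‖algebraMap K L (eval x (F i))‖) := by
    intro I
    by_cases hI : I.card = m + 1
    · obtain ⟨η, hη, h⟩ := lowerIN (L := L) J₀ hJ₀ F d hF I (hempty I hI)
      exact ⟨η, hη, fun _ => h⟩
    · exact ⟨1, one_pos, fun h => absurd h hI⟩
  choose η hη hlow using hlowI
  choose Cj hCj hup using fun j => aeval_le (L := L) (F j) (d j) (hF j)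
  have h1 : 0 ≤ ∑ j, (Cj j) ^ ((1 : ℝ) / d j) :=
    Finset.sum_nonneg fun j _ => Real.rpow_nonneg (hCj j) _
  have h20 : ∀ I j, 0 < ((η I) ^ ((1 : ℝ) / d j))⁻¹ := fun I j =>
    inv_pos.2 (Real.rpow_pos_of_pos (hη I) _)
  have h2 : 0 ≤ ∑ I, ∑ j, ((η I) ^ ((1 : ℝ) / d j))⁻¹ :=
    Finset.sum_nonneg fun I _ => Finset.sum_nonneg fun j _ => (h20 I j).le
  refine ⟨1 + ∑ j, (Cj j) ^ ((1 : ℝ) / d j) + ∑ I, ∑ j, ((η I) ^ ((1 : ℝ) / d j))⁻¹, by linarith, ?_⟩
  intro x hx hOn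
  have hn : (⨆ k, nu L (x k)) = nrm L x := two_nrm x
  have hn0 : 0 < nrm L x := nrm_pos hx
  constructor
  · intro j
    have h3 : prox (nu L) (F j) (d j) x ≤ (Cj j) ^ ((1 : ℝ) / d j) := by
      refine two_up (nu L) (fun _ => norm_nonneg _) (F j) (d j) x (by rw [hn]; exact hn0) ?_
      rw [hn]
      have h4 := hup j (fun k => algebraMap K L (x k))
      rw [aeval_alg] at h4
      exact h4
    have h5 : (Cj j) ^ ((1 : ℝ) / d j) ≤ ∑ j, (Cj j) ^ ((1 : ℝ) / d j) :=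
      Finset.single_le_sum (f := fun j => (Cj j) ^ ((1 : ℝ) / d j))
        (fun j _ => Real.rpow_nonneg (hCj j) _) (Finset.mem_univ j)
    linarith
  · intro I hI
    obtain ⟨i, hiI, hi⟩ := hlow I hI x hx hOn
    refine ⟨i, hiI, ?_⟩
    have h3 : (η I) ^ ((1 : ℝ) / d i) ≤ prox (nu L) (F i) (d i) x := by
      refine two_low (nu L) (F i) (d i) x (hη I).le (by rw [hn]; exact hn0) ?_
      rw [hn]
      exact hi
    refine le_trans ?_ h3
    have h5 : ((η I) ^ ((1 : ℝ) / d i))⁻¹ ≤ ∑ j, ((η I) ^ ((1 : ℝ) / d j))⁻¹ :=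
      Finset.single_le_sum (f := fun j => ((η I) ^ ((1 : ℝ) / d j))⁻¹)
        (fun j _ => (h20 I j).le) (Finset.mem_univ i)
    have h5' : ∑ j, ((η I) ^ ((1 : ℝ) / d j))⁻¹ ≤ ∑ I, ∑ j, ((η I) ^ ((1 : ℝ) / d j))⁻¹ :=
      Finset.single_le_sum (f := fun I => ∑ j, ((η I) ^ ((1 : ℝ) / d j))⁻¹)
        (fun I _ => Finset.sum_nonneg fun j _ => (h20 I j).le) (Finset.mem_univ I)
    have h7 := inv_anti₀ (h20 I i) (show ((η I) ^ ((1 : ℝ) / d i))⁻¹ ≤
      1 + ∑ j, (Cj j) ^ ((1 : ℝ) / d j) + ∑ I, ∑ j, ((η I) ^ ((1 : ℝ) / d j))⁻¹ by linarith)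
    rwa [inv_inv] at h7

/-- The bounds at one place. -/
lemma two_plcN (J₀ : Set (MvPolynomial (Fin (N + 1)) K)) (hJ₀ : ∀ f ∈ J₀, ∃ e, f.IsHomogeneous e)
    (F : Fin (n + 1) → MvPolynomial (Fin (N + 1)) K) (d : Fin (n + 1) → ℕ)
    (hF : ∀ i, (F i).IsHomogeneous (d i)) (m : ℕ)
    (hempty : ∀ I : Finset (Fin (n + 1)), I.card = m + 1 → ∀ A : Fin (N + 1) → L,
      OnV J₀ A → (∀ i ∈ I, aeval A (F i) = 0) → A = 0)
    (v : K → ℝ) (r : ℕ) (hr : r ≠ 0) (hv : ∀ y, v y = nu L y ^ r) (k : ℕ) (q : ℝ) (hq : 0 < q) :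
    ∃ B : ℝ, 1 ≤ B ∧ ∀ x : Fin (N + 1) → K, x ≠ 0 → OnV J₀ x → (∀ i, eval x (F i) ≠ 0) →
      (∀ j, 0 < prox v (F j) (d j) x ^ k) ∧
      (∀ j, prox v (F j) (d j) x ^ k ≤ B) ∧
      (∀ I : Finset (Fin (n + 1)), I.card = m + 1 → ∃ i ∈ I, B⁻¹ ≤ prox v (F i) (d i) x ^ k) ∧
      ((∀ i, q * (⨆ j, v (x j)) ^ d i ≤ v (eval x (F i))) →
        ∀ j, B⁻¹ ≤ prox v (F j) (d j) x ^ k) := by
  obtain ⟨B, hB, h⟩ := two_locN (L := L) J₀ hJ₀ F d hF m hempty
  have hB0 : 0 < B := by linarith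
  have hs : 0 ≤ ∑ j, ((q ^ ((1 : ℝ) / d j)) ^ k)⁻¹ := Finset.sum_nonneg fun j _ => by positivity
  have hBk : 1 ≤ (B ^ r) ^ k := one_le_pow₀ (one_le_pow₀ hB)
  refine ⟨(B ^ r) ^ k + ∑ j, ((q ^ ((1 : ℝ) / d j)) ^ k)⁻¹, by linarith, ?_⟩
  intro x hx hOn hne
  have hn0 : 0 < nrm L x := nrm_pos hx
  have hv0 : ∀ y, 0 ≤ v y := fun y => by rw [hv]; exact pow_nonneg (norm_nonneg _) r
  have hsup : (⨆ k, v (x k)) = nrm L x ^ r := by
    rw [← two_nrm (L := L) x, Real.iSup_pow (fun k => norm_nonneg _)]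
    exact iSup_congr fun k => hv _
  have hsup0 : 0 < ⨆ k, v (x k) := by rw [hsup]; exact pow_pos hn0 r
  have hpr : ∀ j, prox v (F j) (d j) x = prox (nu L) (F j) (d j) x ^ r := fun j =>
    prox_pow v (nu L) x r hr hv (fun _ => norm_nonneg _) (F j) (d j)
  obtain ⟨h1, h2⟩ := h x hx hOn
  refine ⟨?_, ?_, ?_, ?_⟩
  · intro j
    apply pow_pos
    apply two_pos v _ _ _ hsup0
    rw [hv]
    apply pow_pos
    show 0 < ‖algebraMap K L _‖
    rw [norm_pos_iff, Ne, map_eq_zero_iff _ (algebraMap K L).injective]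
    exact hne j
  · intro j
    have h3 : prox v (F j) (d j) x ^ k ≤ (B ^ r) ^ k := by
      rw [hpr]
      have h4 := prox_nonneg (nu L) x (fun _ => norm_nonneg _) (F j) (d j)
      exact pow_le_pow_left₀ (pow_nonneg h4 r) (pow_le_pow_left₀ h4 (h1 j) r) k
    linarith
  · intro I hI
    obtain ⟨i₀, hi₀, h2⟩ := h2 I hI
    refine ⟨i₀, hi₀, ?_⟩
    have h3 : ((B ^ r) ^ k)⁻¹ ≤ prox v (F i₀) (d i₀) x ^ k := by
      rw [hpr, ← inv_pow, ← inv_pow]
      have h4 : 0 ≤ B⁻¹ := by positivity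
      exact pow_le_pow_left₀ (pow_nonneg h4 r) (pow_le_pow_left₀ h4 h2 r) k
    exact (inv_anti₀ (by positivity) (by linarith)).trans h3
  · intro hyp j
    have h3 : (q ^ ((1 : ℝ) / d j)) ^ k ≤ prox v (F j) (d j) x ^ k := by
      apply pow_le_pow_left₀ (by positivity)
      exact two_low v _ _ _ hq.le hsup0 (hyp j)
    refine le_trans ?_ h3
    have h5 : ((q ^ ((1 : ℝ) / d j)) ^ k)⁻¹ ≤ ∑ j, ((q ^ ((1 : ℝ) / d j)) ^ k)⁻¹ :=
      Finset.single_le_sum (f := fun j => ((q ^ ((1 : ℝ) / d j)) ^ k)⁻¹)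
        (fun j _ => by positivity) (Finset.mem_univ j)
    have h6 : 0 < ((q ^ ((1 : ℝ) / d j)) ^ k)⁻¹ := by positivity
    have h7 := inv_anti₀ h6 (show ((q ^ ((1 : ℝ) / d j)) ^ k)⁻¹ ≤ (B ^ r) ^ k +
      ∑ j, ((q ^ ((1 : ℝ) / d j)) ^ k)⁻¹ by linarith)
    rwa [inv_inv] at h7

end loc

theorem two_gapN {K : Type} [Field K] [NumberField K] (T : Finset Nat.Primes)
    (Z : MP K (LF K T)) (S : Finset (FinitePlace K))
    (hS : ∀ v ∈ S, ∃ t ∈ T, ((t : ℕ) : 𝓞 K) ∈ v.maximalIdeal.asIdeal) {N n : ℕ}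
    (J₀ : Set (MvPolynomial (Fin (N + 1)) K)) (hJ₀ : ∀ f ∈ J₀, ∃ e, f.IsHomogeneous e)
    (F : Fin (n + 1) → MvPolynomial (Fin (N + 1)) K) (d : Fin (n + 1) → ℕ) (hd : ∀ i, 1 ≤ d i)
    (hF : ∀ i, (F i).IsHomogeneous (d i)) (m : ℕ) (hm1 : 1 ≤ m) (hm : m ≤ n)
    (hm2 : 2 * m ≤ n + 2)
    (hempty : ∀ s, ∀ I : Finset (Fin (n + 1)), I.card = m + 1 → ∀ A : Fin (N + 1) → LF K T s,
      OnV J₀ A → (∀ i ∈ I, aeval A (F i) = 0) → A = 0)
    (𝒞 : Set (Finset (Fin (n + 1)))) (h𝒞 : ∀ I : Finset (Fin (n + 1)), I.card = m → I ∈ 𝒞)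
    (c : FinitePlace K → ℝ) (hc : ∀ v, 0 < c v) (c₀ : ℝ) (hc₀ : 0 < c₀) :
    ∃ C' : ℝ, 0 ≤ C' ∧ ∀ x : Fin (N + 1) → K, x ≠ 0 → OnV J₀ x → 1 ≤ Ht (LF K T) x →
      (∀ i, Z.U (eval x (F i))) →
      (∀ v : FinitePlace K, v ∉ S → ∀ i, c v * (⨆ j, v (x j)) ^ d i ≤ v (eval x (F i))) →
      (∃ (W : Finset (InfinitePlace K)) (V : Finset (FinitePlace K)), W.card + V.card ≤ 2 ∧
        (∀ w : InfinitePlace K, w ∉ W → ∀ i, c₀ * (⨆ j, w (x j)) ^ d i ≤ w (eval x (F i))) ∧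
        ∀ v ∈ S, v ∉ V → ∀ i, c₀ * (⨆ j, v (x j)) ^ d i ≤ v (eval x (F i))) →
      (∏ w : InfinitePlace K, cdC 𝒞 w F d x ^ w.mult) * ∏ v ∈ S, cdC 𝒞 v F d x ≤
        C' * Ht (LF K T) x ^ (-(1 / 2) : ℝ) := by
  classical
  obtain ⟨ST, hST1, -, hST3, hprod⟩ := prod_lam K T
  have hSST : S ⊆ ST := fun v hv => hST1 v (hS v hv)
  -- the places
  have hw : ∀ w : InfinitePlace K, ∀ y, w y = nu (LF K T (Sum.inl w.embedding)) y ^ 1 := by
    intro w y
    rw [pow_one]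
    exact (InfinitePlace.norm_embedding_eq w y).symm
  have hWloc : ∀ w : InfinitePlace K, ∃ B : ℝ, 1 ≤ B ∧ ∀ x : Fin (N + 1) → K, x ≠ 0 →
      OnV J₀ x → (∀ i, eval x (F i) ≠ 0) →
      (∀ j, 0 < prox w (F j) (d j) x ^ w.mult) ∧
      (∀ j, prox w (F j) (d j) x ^ w.mult ≤ B) ∧
      (∀ I : Finset (Fin (n + 1)), I.card = m + 1 →
        ∃ i ∈ I, B⁻¹ ≤ prox w (F i) (d i) x ^ w.mult) ∧
      ((∀ i, c₀ * (⨆ j, w (x j)) ^ d i ≤ w (eval x (F i))) →
        ∀ j, B⁻¹ ≤ prox w (F j) (d j) x ^ w.mult) := fun w =>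
    two_plcN (L := LF K T (Sum.inl w.embedding)) J₀ hJ₀ F d hF m (hempty _) w 1 one_ne_zero (hw w)
      w.mult c₀ hc₀
  have hVloc : ∀ v : ST, ∃ B : ℝ, 1 ≤ B ∧ ∀ x : Fin (N + 1) → K, x ≠ 0 →
      OnV J₀ x → (∀ i, eval x (F i) ≠ 0) →
      (∀ j, 0 < prox v.1 (F j) (d j) x ^ 1) ∧
      (∀ j, prox v.1 (F j) (d j) x ^ 1 ≤ B) ∧
      (∀ I : Finset (Fin (n + 1)), I.card = m + 1 →
        ∃ i ∈ I, B⁻¹ ≤ prox v.1 (F i) (d i) x ^ 1) ∧
      ((∀ i, (if v.1 ∈ S then c₀ else c v.1) * (⨆ j, v.1 (x j)) ^ d i ≤ v.1 (eval x (F i))) →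
        ∀ j, B⁻¹ ≤ prox v.1 (F j) (d j) x ^ 1) := by
    intro v
    obtain ⟨s, r, hr, hs⟩ := hST3 v.1 v.2
    exact two_plcN (L := LF K T (Sum.inr s)) J₀ hJ₀ F d hF m (hempty _) v.1 r hr
      (fun y => hs y) 1 _ (by split_ifs; exacts [hc₀, hc _])
  choose BW hBW hWb using hWloc
  choose BV hBV hVb using hVloc
  obtain ⟨C, hCdef⟩ : ∃ C : ℝ, C = 1 + ∑ w, BW w + ∑ v, BV v := ⟨_, rfl⟩
  have hsW : 0 ≤ ∑ w, BW w := Finset.sum_nonneg fun w _ => by linarith [hBW w]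
  have hsV : 0 ≤ ∑ v, BV v := Finset.sum_nonneg fun v _ => by linarith [hBV v]
  have hC1 : 1 ≤ C := by linarith
  have hC0 : 0 < C := by linarith
  have hCW : ∀ w, BW w ≤ C := fun w => by
    have h1 : BW w ≤ ∑ w, BW w :=
      Finset.single_le_sum (fun w _ => by linarith [hBW w]) (Finset.mem_univ w)
    linarith
  have hCV : ∀ v, BV v ≤ C := fun v => by
    have h1 : BV v ≤ ∑ v, BV v :=
      Finset.single_le_sum (fun v _ => by linarith [hBV v]) (Finset.mem_univ v)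
    linarith
  have hCW' : ∀ w, C⁻¹ ≤ (BW w)⁻¹ := fun w => inv_anti₀ (by linarith [hBW w]) (hCW w)
  have hCV' : ∀ v, C⁻¹ ≤ (BV v)⁻¹ := fun v => inv_anti₀ (by linarith [hBV v]) (hCV v)
  obtain ⟨C₂, hC₂, hreal⟩ := two_realN (P := InfinitePlace K ⊕ ST) m hm hm2 C hC1
  refine ⟨C₂ * C ^ (ST \ S).card, by positivity, ?_⟩
  rintro x hx hOn hH hU hc' ⟨W, V, hWV, hWb', hVb'⟩
  have hne : ∀ i, eval x (F i) ≠ 0 := fun i => (hU i).ne
  have hH0 : 0 < Ht (LF K T) x := by linarith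
  -- the functions on the places
  obtain ⟨ρ, hρ⟩ : ∃ ρ : Fin (n + 1) → InfinitePlace K ⊕ ST → ℝ, ρ = fun j =>
    Sum.elim (fun w : InfinitePlace K => prox w (F j) (d j) x ^ w.mult)
      (fun v : ST => prox v.1 (F j) (d j) x) := ⟨_, rfl⟩
  have hρl : ∀ j (w : InfinitePlace K), ρ j (Sum.inl w) = prox w (F j) (d j) x ^ w.mult :=
    fun j w => by rw [hρ]; rfl
  have hρr : ∀ j (v : ST), ρ j (Sum.inr v) = prox v.1 (F j) (d j) x := fun j v => by rw [hρ]; rfl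
  obtain ⟨δ, hδ⟩ : ∃ δ : InfinitePlace K ⊕ ST → ℝ, δ =
    Sum.elim (fun w : InfinitePlace K => cdC 𝒞 w F d x ^ w.mult)
      (fun v : ST => if v.1 ∈ S then cdC 𝒞 v.1 F d x else C⁻¹) := ⟨_, rfl⟩
  have hδl : ∀ w : InfinitePlace K, δ (Sum.inl w) = cdC 𝒞 w F d x ^ w.mult :=
    fun w => by rw [hδ]; rfl
  have hδr : ∀ v : ST, δ (Sum.inr v) = if v.1 ∈ S then cdC 𝒞 v.1 F d x else C⁻¹ :=
    fun v => by rw [hδ]; rfl
  have hnonW : ∀ (w : InfinitePlace K) (y : K), 0 ≤ w y := fun w y => apply_nonneg w y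
  have hnonV : ∀ (v : FinitePlace K) (y : K), 0 ≤ v y := fun v y => apply_nonneg v y
  have hlowV : ∀ v : ST, v.1 ∉ S → ∀ j, C⁻¹ ≤ prox v.1 (F j) (d j) x := by
    intro v hv j
    have h1 := (hVb v x hx hOn hne).2.2.2 (by
      intro i
      rw [if_neg hv]
      exact hc' v.1 hv i) j
    rw [pow_one] at h1
    exact (hCV' v).trans h1
  have hmain : ∏ p, δ p ≤ C₂ * Ht (LF K T) x ^ (-(1 / 2) : ℝ) := by
    apply hreal ρ δ (Ht (LF K T) x) hH
    · rintro j (w | v)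
      · rw [hρl]; exact (hWb w x hx hOn hne).1 j
      · rw [hρr]
        have h1 := (hVb v x hx hOn hne).1 j
        rwa [pow_one] at h1
    · rintro j (w | v)
      · rw [hρl]; exact ((hWb w x hx hOn hne).2.1 j).trans (hCW w)
      · rw [hρr]
        have h1 := (hVb v x hx hOn hne).2.1 j
        rw [pow_one] at h1
        exact h1.trans (hCV v)
    · intro j
      have h1 : ∏ p, ρ j p = ∏ s, prox (nu (LF K T s)) (F j) (d j) x := by
        rw [Fintype.prod_sum_type]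
        have h2 := hprod (fun s => prox (nu (LF K T s)) (F j) (d j) x)
          (fun w => prox w (F j) (d j) x) (fun v => prox v (F j) (d j) x)
          (fun s => prox_nonneg _ x (fun _ => norm_nonneg _) _ _)
          (fun σ => by
            have h3 : (nu (LF K T (Sum.inl σ)) : K → ℝ) = (InfinitePlace.mk σ : InfinitePlace K) := by
              funext y
              exact (InfinitePlace.apply σ y).symm
            show prox (nu (LF K T (Sum.inl σ))) (F j) (d j) x = _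
            rw [h3])
          (fun s v r hr hs => prox_pow v (nu (LF K T (Sum.inr s))) x r hr (fun y => hs y)
            (fun _ => norm_nonneg _) (F j) (d j))
        rw [h2]
        congr 1
        · exact Finset.prod_congr rfl fun w _ => hρl j w
        · rw [← Finset.prod_coe_sort ST (fun v => prox v (F j) (d j) x)]
          exact Finset.prod_congr rfl fun v _ => hρr j v
      have h4 : ∏ s, prox (nu (LF K T s)) (F j) (d j) x = 1 / Ht (LF K T) x := by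
        have h5 : ∀ s, prox (nu (LF K T s)) (F j) (d j) x =
            ‖algebraMap K (LF K T s) (eval x (F j))‖ ^ ((1 : ℝ) / d j) / nrm (LF K T s) x := by
          intro s
          have h6 : (⨆ k, nu (LF K T s) (x k)) = nrm (LF K T s) x := two_nrm x
          show (‖algebraMap K (LF K T s) (eval x (F j))‖ /
            (⨆ k, nu (LF K T s) (x k)) ^ d j) ^ ((1 : ℝ) / d j) = _
          rw [h6, Real.div_rpow (norm_nonneg _) (pow_nonneg (nrm_nonneg _) _),
            ← Real.rpow_natCast (nrm (LF K T s) x), ← Real.rpow_mul (nrm_nonneg _)]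
          have h7 : ((d j : ℝ)) * (1 / d j) = 1 := by
            have : (d j : ℝ) ≠ 0 := by
              have := hd j
              exact_mod_cast (by omega : d j ≠ 0)
            field_simp
          rw [h7, Real.rpow_one]
        rw [Finset.prod_congr rfl fun s _ => h5 s, Finset.prod_div_distrib]
        rw [Real.finsetProd_rpow _ _ (fun s _ => norm_nonneg _), (hU j).pf, Real.one_rpow]
        rfl
      rw [h1, h4]
      exact div_le_div_of_nonneg_right hC1 hH0.le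
    · rintro (w | v) I hI
      · obtain ⟨i, hiI, hi⟩ := (hWb w x hx hOn hne).2.2.1 I hI
        exact ⟨i, hiI, by rw [hρl]; exact (hCW' w).trans hi⟩
      · obtain ⟨i, hiI, hi⟩ := (hVb v x hx hOn hne).2.2.1 I hI
        rw [pow_one] at hi
        exact ⟨i, hiI, by rw [hρr]; exact (hCV' v).trans hi⟩
    · rintro (w | v)
      · rw [hδl]; exact pow_nonneg (cdC_nonneg 𝒞 _ F d x (hnonW w)) _
      · rw [hδr]
        split_ifs
        · exact cdC_nonneg 𝒞 _ F d x (hnonV v.1)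
        · positivity
    · rintro (w | v)
      · rw [hδl]
        exact pow_le_one₀ (cdC_nonneg 𝒞 _ F d x (hnonW w)) (cdC_le_one 𝒞 _ F d x)
      · rw [hδr]
        split_ifs
        · exact cdC_le_one 𝒞 _ F d x
        · exact inv_le_one_of_one_le₀ hC1
    · rintro (w | v) I hI
      · have hIne : I.Nonempty := Finset.card_pos.1 (by omega)
        obtain ⟨j, hj, hj1⟩ := cdC_le_prox 𝒞 w F d x (h𝒞 I hI) hIne
        refine ⟨j, hj, ?_⟩
        rw [hδl, hρl]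
        exact pow_le_pow_left₀ (cdC_nonneg 𝒞 _ F d x (hnonW w)) hj1 _
      · have hIne : I.Nonempty := Finset.card_pos.1 (by omega)
        by_cases hv : v.1 ∈ S
        · obtain ⟨j, hj, hj1⟩ := cdC_le_prox 𝒞 v.1 F d x (h𝒞 I hI) hIne
          refine ⟨j, hj, ?_⟩
          rw [hδr, if_pos hv, hρr]
          exact hj1
        · obtain ⟨j, hj⟩ := hIne
          refine ⟨j, hj, ?_⟩
          rw [hδr, if_neg hv, hρr]
          exact hlowV v hv j
    · -- the two places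
      obtain ⟨p, q, hp, hq⟩ := two_pick W (V.subtype (· ∈ ST)) (by
        refine le_trans (Nat.add_le_add_left ?_ _) hWV
        rw [Finset.card_subtype]
        exact Finset.card_filter_le _ _)
      refine ⟨p, q, ?_⟩
      rintro (w | v) h1 h2 j
      · rw [hρl]
        have hwW : w ∉ W := fun h => by
          rcases hp w h with h' | h'
          · exact h1 h'
          · exact h2 h'
        exact (hCW' w).trans ((hWb w x hx hOn hne).2.2.2 (hWb' w hwW) j)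
      · rw [hρr]
        by_cases hv : v.1 ∈ S
        · have hvV : v.1 ∉ V := fun h => by
            rcases hq v (Finset.mem_subtype.2 h) with h' | h'
            · exact h1 h'
            · exact h2 h'
          have h3 := (hVb v x hx hOn hne).2.2.2 (by
            intro i
            rw [if_pos hv]
            exact hVb' v.1 hv hvV i) j
          rw [pow_one] at h3
          exact (hCV' v).trans h3
        · exact hlowV v hv j
  -- remove the factors at the places outside `S`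
  have hfin : ∏ p, δ p = ((∏ w : InfinitePlace K, cdC 𝒞 w F d x ^ w.mult) *
      ∏ v ∈ S, cdC 𝒞 v F d x) * (C⁻¹) ^ (ST \ S).card := by
    rw [Fintype.prod_sum_type, mul_assoc]
    congr 1
    · exact Finset.prod_congr rfl fun w _ => hδl w
    · have h1 : ∏ v : ST, δ (Sum.inr v) = ∏ v ∈ ST, if v ∈ S then cdC 𝒞 v F d x else C⁻¹ := by
        rw [← Finset.prod_coe_sort ST (fun v => if v ∈ S then cdC 𝒞 v F d x else C⁻¹)]
        exact Finset.prod_congr rfl fun v _ => hδr v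
      rw [h1, ← Finset.prod_sdiff hSST, mul_comm]
      congr 1
      · exact Finset.prod_congr rfl fun v hv => by rw [if_pos hv]
      · rw [Finset.prod_congr rfl fun v hv => if_neg (Finset.mem_sdiff.1 hv).2, Finset.prod_const]
  rw [hfin] at hmain
  have hCp : 0 < C ^ (ST \ S).card := by positivity
  have h1 := mul_le_mul_of_nonneg_right hmain hCp.le
  rw [mul_assoc, ← mul_pow, inv_mul_cancel₀ hC0.ne', one_pow, mul_one] at h1
  calc _ ≤ _ := h1
    _ = C₂ * C ^ (ST \ S).card * Ht (LF K T) x ^ (-(1 / 2) : ℝ) := by ring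

end Pool.Agent.Helper38.TN
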